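import Mathlib

/-!
# Project CI: Boolean valued sets, equality and membership
-/

set_option autoImplicit false

namespace CI

universe u

/-- names of sets over `B` -/
inductive BSet (B : Type u) : Type (u + 1)
  | mk (A : Type u) (x : A → BSet B) (b : A → B) : BSet B

namespace BSet

/-- the index type -/
def Ty {B : Type u} : BSet B → Type u
  | mk A _ _ => A

/-- the names of the possible elements -/
def el {B : Type u} : (u : BSet B) → u.Ty → BSet B
  | mk _ x _ => x

/-- the truth values of membership -/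
def tv {B : Type u} : (u : BSet B) → u.Ty → B
  | mk _ _ b => b

variable {B : Type u} [CompleteBooleanAlgebra B]

/-- truth value of equality -/
def beq : BSet B → BSet B → B
  | mk A x b, mk A' x' b' =>
    (⨅ a, b a ⇨ ⨆ a', b' a' ⊓ beq (x a) (x' a')) ⊓
      (⨅ a', b' a' ⇨ ⨆ a, b a ⊓ beq (x a) (x' a'))

/-- truth value of membership -/
def bmem (u v : BSet B) : B := ⨆ a, v.tv a ⊓ beq u (v.el a)

theorem beq_refl : ∀ u : BSet B, beq u u = ⊤
  | mk A x b => by
    have ih := fun a => beq_refl (x a)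
    rw [beq, eq_top_iff]
    refine le_inf (le_iInf fun a => ?_) (le_iInf fun a => ?_) <;> rw [le_himp_iff]
    · refine le_iSup_of_le a ?_
      rw [ih a]; simp
    · refine le_iSup_of_le a ?_
      rw [ih a]; simp

theorem beq_symm : ∀ u v : BSet B, beq u v = beq v u
  | mk A x b, mk A' x' b' => by
    have ih := fun a a' => beq_symm (x a) (x' a')
    rw [beq, beq, inf_comm]
    simp only [ih]

theorem beq_le_left (u v : BSet B) (a : u.Ty) : beq u v ⊓ u.tv a ≤ bmem (u.el a) v := by
  cases u with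
  | mk A x b =>
    cases v with
    | mk A' x' b' =>
      rw [beq]
      have h : (⨅ a, b a ⇨ ⨆ a', b' a' ⊓ beq (x a) (x' a')) ⊓ b a ≤
          ⨆ a', b' a' ⊓ beq (x a) (x' a') := by
        rw [← le_himp_iff]
        exact iInf_le _ a
      exact (inf_le_inf_right _ inf_le_left).trans h

theorem beq_le_right (u v : BSet B) (a : v.Ty) : beq u v ⊓ v.tv a ≤ bmem (v.el a) u := by
  rw [beq_symm]
  exact beq_le_left v u a

theorem beq_eq (u v : BSet B) : beq u v =
    (⨅ a, u.tv a ⇨ bmem (u.el a) v) ⊓ (⨅ a, v.tv a ⇨ bmem (v.el a) u) := by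
  cases u with
  | mk A x b =>
    cases v with
    | mk A' x' b' =>
      rw [beq]
      simp only [bmem, tv, el]
      congr 1
      refine iInf_congr fun a' => ?_
      congr 1
      refine iSup_congr fun a => ?_
      rw [beq_symm]

theorem tv_le_bmem (v : BSet B) (a : v.Ty) : v.tv a ≤ bmem (v.el a) v := by
  refine le_iSup_of_le a ?_
  rw [beq_refl]; simp

/-- transitivity of equality -/
theorem beq_trans : ∀ u v w : BSet B, beq u v ⊓ beq v w ≤ beq u w
  | mk A x b, mk A' x' b', mk A'' x'' b'' => by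
    have ih := fun a a' a'' => beq_trans (x a) (x' a') (x'' a'')
    have h1 : beq (mk A x b) (mk A' x' b') ⊓ beq (mk A' x' b') (mk A'' x'' b'') ≤
        ⨅ a, b a ⇨ ⨆ a'', b'' a'' ⊓ beq (x a) (x'' a'') := by
      refine le_iInf fun a => ?_
      rw [le_himp_iff]
      have e1 := beq_le_left (mk A x b) (mk A' x' b') a
      have e2 := fun a' => beq_le_left (mk A' x' b') (mk A'' x'' b'') a'
      simp only [tv, el, bmem] at e1 e2
      calc beq (mk A x b) (mk A' x' b') ⊓ beq (mk A' x' b') (mk A'' x'' b'') ⊓ b a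
          = beq (mk A' x' b') (mk A'' x'' b'') ⊓ (beq (mk A x b) (mk A' x' b') ⊓ b a) := by
            ac_rfl
        _ ≤ beq (mk A' x' b') (mk A'' x'' b'') ⊓ ⨆ a', b' a' ⊓ beq (x a) (x' a') :=
            inf_le_inf_left _ e1
        _ = ⨆ a', (beq (mk A' x' b') (mk A'' x'' b'') ⊓ b' a') ⊓ beq (x a) (x' a') := by
            rw [inf_iSup_eq]; simp only [inf_assoc]
        _ ≤ ⨆ a', (⨆ a'', b'' a'' ⊓ beq (x' a') (x'' a'')) ⊓ beq (x a) (x' a') :=
            iSup_mono fun a' => inf_le_inf_right _ (e2 a')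
        _ ≤ ⨆ a'', b'' a'' ⊓ beq (x a) (x'' a'') := by
            refine iSup_le fun a' => ?_
            rw [iSup_inf_eq]
            refine iSup_mono fun a'' => ?_
            rw [inf_assoc]
            refine inf_le_inf_left _ ?_
            rw [inf_comm]
            exact ih a a' a''
    have h2 : beq (mk A x b) (mk A' x' b') ⊓ beq (mk A' x' b') (mk A'' x'' b'') ≤
        ⨅ a'', b'' a'' ⇨ ⨆ a, b a ⊓ beq (x a) (x'' a'') := by
      refine le_iInf fun a'' => ?_
      rw [le_himp_iff]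
      have e1 := fun a' => beq_le_right (mk A x b) (mk A' x' b') a'
      have e2 := beq_le_right (mk A' x' b') (mk A'' x'' b'') a''
      simp only [tv, el, bmem] at e1 e2
      calc beq (mk A x b) (mk A' x' b') ⊓ beq (mk A' x' b') (mk A'' x'' b'') ⊓ b'' a''
          = beq (mk A x b) (mk A' x' b') ⊓ (beq (mk A' x' b') (mk A'' x'' b'') ⊓ b'' a'') := by
            ac_rfl
        _ ≤ beq (mk A x b) (mk A' x' b') ⊓ ⨆ a', b' a' ⊓ beq (x'' a'') (x' a') :=
            inf_le_inf_left _ e2
        _ = ⨆ a', (beq (mk A x b) (mk A' x' b') ⊓ b' a') ⊓ beq (x'' a'') (x' a') := by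
            rw [inf_iSup_eq]; simp only [inf_assoc]
        _ ≤ ⨆ a', (⨆ a, b a ⊓ beq (x' a') (x a)) ⊓ beq (x'' a'') (x' a') :=
            iSup_mono fun a' => inf_le_inf_right _ (e1 a')
        _ ≤ ⨆ a, b a ⊓ beq (x a) (x'' a'') := by
            refine iSup_le fun a' => ?_
            rw [iSup_inf_eq]
            refine iSup_mono fun a => ?_
            rw [inf_assoc]
            refine inf_le_inf_left _ ?_
            rw [beq_symm (x' a'), beq_symm (x'' a'')]
            exact ih a a' a''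
    rw [beq.eq_def (mk A x b) (mk A'' x'' b'')]
    exact le_inf h1 h2

theorem bmem_congr_left (u v w : BSet B) : beq u v ⊓ bmem u w ≤ bmem v w := by
  rw [bmem, inf_iSup_eq]
  refine iSup_mono fun a => ?_
  calc beq u v ⊓ (w.tv a ⊓ beq u (w.el a)) = w.tv a ⊓ (beq v u ⊓ beq u (w.el a)) := by
        rw [beq_symm u v]; ac_rfl
    _ ≤ w.tv a ⊓ beq v (w.el a) := inf_le_inf_left _ (beq_trans _ _ _)

theorem bmem_congr_right (u v w : BSet B) : beq v w ⊓ bmem u v ≤ bmem u w := by
  rw [bmem, inf_iSup_eq]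
  refine iSup_le fun a => ?_
  calc beq v w ⊓ (v.tv a ⊓ beq u (v.el a)) = (beq v w ⊓ v.tv a) ⊓ beq u (v.el a) := by
        ac_rfl
    _ ≤ bmem (v.el a) w ⊓ beq u (v.el a) := inf_le_inf_right _ (beq_le_left v w a)
    _ = beq (v.el a) u ⊓ bmem (v.el a) w := by rw [beq_symm u, inf_comm]
    _ ≤ bmem u w := bmem_congr_left _ _ _

/-- extensionality: equality is the infimum over all names -/
theorem le_beq_of (u v : BSet B) (b : B) (h1 : ∀ w, b ⊓ bmem w u ≤ bmem w v)
    (h2 : ∀ w, b ⊓ bmem w v ≤ bmem w u) : b ≤ beq u v := by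
  rw [beq_eq]
  refine le_inf (le_iInf fun a => ?_) (le_iInf fun a => ?_) <;> rw [le_himp_iff]
  · exact (inf_le_inf_left _ (tv_le_bmem u a)).trans (h1 _)
  · exact (inf_le_inf_left _ (tv_le_bmem v a)).trans (h2 _)

/-- a predicate on names respects equality -/
def Ext (P : BSet B → B) : Prop := ∀ u v, beq u v ⊓ P u ≤ P v

/-- bounded quantifier -/
theorem bex_eq {P : BSet B → B} (hP : Ext P) (v : BSet B) :
    ⨆ u, bmem u v ⊓ P u = ⨆ a, v.tv a ⊓ P (v.el a) := by
  apply le_antisymm
  · refine iSup_le fun u => ?_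
    rw [bmem, iSup_inf_eq]
    refine iSup_mono fun a => ?_
    rw [inf_assoc]
    exact inf_le_inf_left _ (hP _ _)
  · refine iSup_le fun a => ?_
    exact le_iSup_of_le (v.el a) (inf_le_inf_right _ (tv_le_bmem v a))

theorem ball_eq {P : BSet B → B} (hP : Ext P) (v : BSet B) :
    ⨅ u, bmem u v ⇨ P u = ⨅ a, v.tv a ⇨ P (v.el a) := by
  apply le_antisymm
  · refine le_iInf fun a => ?_
    exact (iInf_le _ (v.el a)).trans (himp_le_himp_right (tv_le_bmem v a))
  · refine le_iInf fun u => ?_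
    rw [le_himp_iff, bmem, inf_iSup_eq]
    refine iSup_le fun a => ?_
    have h : (⨅ a, v.tv a ⇨ P (v.el a)) ⊓ v.tv a ≤ P (v.el a) := by
      rw [← le_himp_iff]
      exact iInf_le _ a
    calc (⨅ a, v.tv a ⇨ P (v.el a)) ⊓ (v.tv a ⊓ beq u (v.el a))
        = ((⨅ a, v.tv a ⇨ P (v.el a)) ⊓ v.tv a) ⊓ beq (v.el a) u := by
          rw [beq_symm u]; ac_rfl
      _ ≤ P (v.el a) ⊓ beq (v.el a) u := inf_le_inf_right _ h
      _ ≤ P u := by rw [inf_comm]; exact hP _ _

end BSet

end CI
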