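import Pool.Agent.CI.T.Choice

/-!
# Project CI: names of ground model sets, ordinals, the axiom of infinity
-/

set_option autoImplicit false

namespace CI

universe u

variable {B : Type u} [CompleteBooleanAlgebra B]

open BSet Ordinal

/-- the name of a ground model set -/
def chk (B : Type u) [CompleteBooleanAlgebra B] : PSet.{u} → BSet B
  | ⟨A, f⟩ => mk A (fun a => chk B (f a)) (fun _ => ⊤)

theorem chk_eq : ∀ x y : PSet.{u}, (PSet.Equiv x y ∧ beq (chk B x) (chk B y) = ⊤) ∨
    (¬ PSet.Equiv x y ∧ beq (chk B x) (chk B y) = ⊥)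
  | ⟨A, f⟩, ⟨A', f'⟩ => by
    have ih := fun a a' => chk_eq (f a) (f' a')
    by_cases h : PSet.Equiv ⟨A, f⟩ ⟨A', f'⟩
    · left
      refine ⟨h, ?_⟩
      rw [chk, chk, beq]
      rw [eq_top_iff]
      refine le_inf (le_iInf fun a => ?_) (le_iInf fun a' => ?_) <;> rw [le_himp_iff]
      · obtain ⟨a', ha'⟩ := h.1 a
        refine le_iSup_of_le a' ?_
        rcases ih a a' with h' | h'
        · rw [h'.2]
        · exact absurd ha' h'.1
      · obtain ⟨a, ha⟩ := h.2 a'
        refine le_iSup_of_le a ?_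
        rcases ih a a' with h' | h'
        · rw [h'.2]
        · exact absurd ha h'.1
    · right
      refine ⟨h, ?_⟩
      rw [chk, chk, beq, eq_bot_iff]
      have h2 : (∃ a, ∀ a', ¬ PSet.Equiv (f a) (f' a')) ∨
          (∃ a', ∀ a, ¬ PSet.Equiv (f a) (f' a')) := by
        by_contra hc
        push Not at hc
        exact h ⟨hc.1, hc.2⟩
      rcases h2 with ⟨a, ha⟩ | ⟨a', ha'⟩
      · refine inf_le_left.trans ((iInf_le _ a).trans ?_)
        rw [top_himp]
        refine iSup_le fun a' => ?_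
        rcases ih a a' with h' | h'
        · exact absurd h'.1 (ha a')
        · rw [h'.2]; simp
      · refine inf_le_right.trans ((iInf_le _ a').trans ?_)
        rw [top_himp]
        refine iSup_le fun a => ?_
        rcases ih a a' with h' | h'
        · exact absurd h'.1 (ha' a)
        · rw [h'.2]; simp

/-- the name of an ordinal -/
noncomputable def oN (B : Type u) [CompleteBooleanAlgebra B] (o : Ordinal.{u}) : BSet B :=
  chk B o.toPSet

theorem toPSet_equiv {a b : Ordinal.{u}} : PSet.Equiv a.toPSet b.toPSet ↔ a = b := by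
  constructor
  · intro h
    have := PSet.rank_congr h
    rwa [rank_toPSet, rank_toPSet] at this
  · rintro rfl; exact PSet.Equiv.rfl

theorem beq_oN (a : Ordinal.{u}) : beq (oN B a) (oN B a) = ⊤ := beq_refl _

theorem beq_oN_ne {a b : Ordinal.{u}} (h : a ≠ b) : beq (oN B a) (oN B b) = ⊥ := by
  rcases chk_eq (B := B) a.toPSet b.toPSet with h' | h'
  · exact absurd (toPSet_equiv.1 h'.1) h
  · exact h'.2

theorem bmem_oN (z : BSet B) (o : Ordinal.{u}) :
    bmem z (oN B o) = ⨆ a : Ordinal.{u}, ⨆ _ : a < o, beq z (oN B a) := by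
  have h : oN B o = mk o.ToType (fun a => oN B a) (fun _ => ⊤) := by
    rw [oN, toPSet, chk]; rfl
  rw [h]
  apply le_antisymm
  · rw [bmem]
    refine iSup_le fun (a : o.ToType) => ?_
    refine inf_le_right.trans ?_
    exact le_iSup₂_of_le (ToType.toOrd a).1 (ToType.toOrd a).2 le_rfl
  · refine iSup₂_le fun a ha => ?_
    rw [bmem]
    refine le_iSup_of_le (ToType.mk ⟨a, ha⟩ : o.ToType) ?_
    simp [tv, el]

theorem iSup_inf_oN {P : BSet B → B} (hP : Ext P) (o : Ordinal.{u}) :
    ⨆ z, bmem z (oN B o) ⊓ P z = ⨆ a : Ordinal.{u}, ⨆ _ : a < o, P (oN B a) := by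
  apply le_antisymm
  · refine iSup_le fun z => ?_
    rw [bmem_oN, iSup_inf_eq]
    refine iSup_mono fun a => ?_
    rw [iSup_inf_eq]
    exact iSup_mono fun _ => hP _ _
  · refine iSup₂_le fun a ha => ?_
    refine le_iSup_of_le (oN B a) ?_
    refine le_inf ?_ le_rfl
    rw [bmem_oN]
    exact le_iSup₂_of_le a ha (by rw [beq_refl]; exact le_top)

theorem EU_oN (U : Ult B) (a b : Ordinal.{u}) : EU U (cl U (oN B a)) (cl U (oN B b)) ↔ a < b := by
  rw [EU_cl, bmem_oN]
  constructor
  · intro h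
    by_contra hab
    apply U.bot
    refine U.mono ?_ h
    refine iSup₂_le fun c hc => ?_
    rw [beq_oN_ne]
    rintro rfl
    exact hab hc
  · intro h
    refine U.mono ?_ U.top
    exact le_iSup₂_of_le a h (by rw [beq_refl])

theorem oN_inj (U : Ult B) {a b : Ordinal.{u}} : cl U (oN B a) = cl U (oN B b) ↔ a = b := by
  rw [cl_eq]
  constructor
  · intro h
    by_contra hab
    rw [beq_oN_ne hab] at h
    exact U.bot h
  · rintro rfl
    rw [beq_refl]; exact U.top

/-- bounded quantifiers over a ground model ordinal: it is enough to look at standard elements,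
for all ultrafilters containing `b` -/
theorem Los.ball_oN {P : BSet B → B} {P' : ∀ U : Ult B, MU U → Prop} (h : Los P P')
    (o : Ordinal.{u}) (b : B) (hb : ∀ U : Ult B, b ∈ U.s → ∀ a, a < o → P' U (cl U (oN B a)))
    (U : Ult B) (hU : b ∈ U.s) (x : MU U) (hx : EU U x (cl U (oN B o))) : P' U x := by
  have h1 : ∀ a, a < o → b ≤ P (oN B a) := by
    intro a ha
    rw [le_iff_ult]
    intro V hV
    exact (h V _).1 (hb V hV a ha)
  obtain ⟨z, rfl⟩ := cl_surj U x
  rw [h U z]
  rw [EU_cl, bmem_oN] at hx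
  refine U.mono ?_ ((U.inf _ _).2 ⟨hx, hU⟩)
  rw [iSup_inf_eq]
  refine iSup_le fun a => ?_
  rw [iSup_inf_eq]
  refine iSup_le fun ha => ?_
  calc beq z (oN B a) ⊓ b ≤ beq (oN B a) z ⊓ P (oN B a) := by
        rw [beq_symm]; exact inf_le_inf_left _ (h1 a ha)
    _ ≤ P z := h.ext _ _

/-- the successor of an ordinal -/
theorem EU_succ (U : Ult B) (a : Ordinal.{u}) (z : MU U) :
    EU U z (cl U (oN B (Order.succ a))) ↔ EU U z (cl U (oN B a)) ∨ z = cl U (oN B a) := by
  obtain ⟨z, rfl⟩ := cl_surj U z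
  rw [EU_cl, EU_cl, cl_eq, ← U.sup, bmem_oN, bmem_oN]
  have : (⨆ c : Ordinal.{u}, ⨆ _ : c < Order.succ a, beq z (oN B c)) =
      (⨆ c : Ordinal.{u}, ⨆ _ : c < a, beq z (oN B c)) ⊔ beq z (oN B a) := by
    apply le_antisymm
    · refine iSup₂_le fun c hc => ?_
      rcases (Order.lt_succ_iff.1 hc).lt_or_eq with h | h
      · exact le_sup_of_le_left (le_iSup₂_of_le c h le_rfl)
      · rw [h]; exact le_sup_right
    · refine sup_le ?_ ?_
      · refine iSup₂_le fun c hc => ?_
        exact le_iSup₂_of_le c (hc.trans (Order.lt_succ a)) le_rfl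
      · exact le_iSup₂_of_le a (Order.lt_succ a) le_rfl
  rw [this]

theorem EU_zero (U : Ult B) (z : MU U) : ¬ EU U z (cl U (oN B 0)) := by
  obtain ⟨z, rfl⟩ := cl_surj U z
  rw [EU_cl, bmem_oN]
  intro h
  apply U.bot
  refine U.mono ?_ h
  refine iSup₂_le fun c hc => ?_
  exact absurd hc (by simp)

end CI
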