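import Pool.Agent.CI.T.Zf

/-!
# Project CI: the axiom of choice in the two-valued models
-/

set_option autoImplicit false

namespace CI

universe u

variable {B : Type u} [CompleteBooleanAlgebra B]

open BSet

/-- supremum over a well ordered index set: the first index with the property -/
theorem iSup_first {I : Type u} (r : I → I → Prop) [hr : IsWellOrder I r] (b : I → B) :
    ⨆ i, b i = ⨆ i, b i ⊓ (⨆ j, ⨆ _ : r j i, b j)ᶜ := by
  apply le_antisymm
  · refine iSup_le fun i => ?_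
    induction i using hr.toIsWellFounded.wf.induction with
    | _ i ih =>
      have h1 : (⨆ j, ⨆ _ : r j i, b j) ≤ ⨆ i, b i ⊓ (⨆ j, ⨆ _ : r j i, b j)ᶜ :=
        iSup₂_le fun j hj => ih j hj
      calc b i = (b i ⊓ (⨆ j, ⨆ _ : r j i, b j)) ⊔ (b i ⊓ (⨆ j, ⨆ _ : r j i, b j)ᶜ) := by
            rw [← inf_sup_left, sup_compl_eq_top, inf_top_eq]
        _ ≤ _ := by
            refine sup_le (inf_le_right.trans h1) ?_
            exact le_iSup (fun i => b i ⊓ (⨆ j, ⨆ _ : r j i, b j)ᶜ) i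
  · exact iSup_mono fun i => inf_le_left

/-- value of: `y` and `z` lie in a common element of `u` -/
def comN (u y z : BSet B) : B := ⨆ x, bmem x u ⊓ (bmem y x ⊓ bmem z x)

theorem comN_mem (U : Ult B) (u y z : BSet B) : comN u y z ∈ U.s ↔
    ∃ x, EU U x (cl U u) ∧ EU U (cl U y) x ∧ EU U (cl U z) x :=
  (((Los.mem_left u).and ((Los.mem_right y).and (Los.mem_right z))).ex U).symm

/-- the name of a choice set -/
noncomputable def chN (u : BSet B) : BSet B :=
  mk (Σ i, (u.el i).Ty) (fun p => (u.el p.1).el p.2)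
    (fun p => (⨆ q : (Σ i, (u.el i).Ty), ⨆ _ : WellOrderingRel q p,
      comN u ((u.el q.1).el q.2) ((u.el p.1).el p.2))ᶜ)

theorem ch_uniq (u x y z : BSet B) : bmem x u ⊓ (bmem y x ⊓ bmem z x) ⊓
    (bmem y (chN u) ⊓ bmem z (chN u)) ≤ beq y z := by
  have h1 : bmem y (chN u) = ⨆ p : (Σ i, (u.el i).Ty), (chN u).tv p ⊓
      beq y ((u.el p.1).el p.2) := rfl
  have h2 : bmem z (chN u) = ⨆ p : (Σ i, (u.el i).Ty), (chN u).tv p ⊓
      beq z ((u.el p.1).el p.2) := rfl
  rw [h1, h2, iSup_inf_iSup, inf_iSup_eq]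
  refine iSup_le fun pq => ?_
  obtain ⟨p, q⟩ := pq
  rw [le_iff_ult]
  intro U hU
  simp only [U.inf] at hU
  obtain ⟨⟨hxu, hyx, hzx⟩, ⟨hp, hyp⟩, hq, hzq⟩ := hU
  have hyp' : cl U y = cl U ((u.el p.1).el p.2) := cl_eq.2 hyp
  have hzq' : cl U z = cl U ((u.el q.1).el q.2) := cl_eq.2 hzq
  have key : ∀ p q : (Σ i, (u.el i).Ty), WellOrderingRel q p → (chN u).tv p ∈ U.s →
      EU U (cl U ((u.el p.1).el p.2)) (cl U x) → EU U (cl U ((u.el q.1).el q.2)) (cl U x) →
      False := by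
    intro p q hqp hp h1 h2
    have h3 : comN u ((u.el q.1).el q.2) ((u.el p.1).el p.2) ∈ U.s :=
      (comN_mem U _ _ _).2 ⟨cl U x, hxu, h2, h1⟩
    have h4 : (⨆ q : (Σ i, (u.el i).Ty), ⨆ _ : WellOrderingRel q p,
      comN u ((u.el q.1).el q.2) ((u.el p.1).el p.2)) ∈ U.s := by
      refine U.mono ?_ h3
      exact le_iSup₂_of_le q hqp le_rfl
    exact (U.compl _).1 hp h4
  rcases trichotomous_of WellOrderingRel p q with h | h | h
  · exfalso
    refine key q p h hq ?_ ?_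
    · rw [← hzq']; exact hzx
    · rw [← hyp']; exact hyx
  · subst h
    rw [← cl_eq, hyp', hzq']
  · exfalso
    refine key p q h hp ?_ ?_
    · rw [← hyp']; exact hyx
    · rw [← hzq']; exact hzx

/-- value of: the elements of `u` are disjoint to `x` or equal to `x` -/
def disN (u x : BSet B) : B :=
  ⨅ x', bmem x' u ⇨ ((⨆ z, bmem z x ⊓ bmem z x') ⇨ beq x' x)

theorem disN_mem (U : Ult B) (u x : BSet B) : disN u x ∈ U.s ↔
    ∀ x', EU U x' (cl U u) → (∃ z, EU U z (cl U x) ∧ EU U z x') → x' = cl U x := by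
  refine (Los.all (P := fun x' => bmem x' u ⇨ ((⨆ z, bmem z x ⊓ bmem z x') ⇨ beq x' x))
    (P' := fun U x' => EU U x' (cl U u) → (∃ z, EU U z (cl U x) ∧ EU U z x') → x' = cl U x)
    ?_ U).symm
  apply Los.imp (Los.mem_left u)
  apply Los.imp
  · intro U x'
    exact ((Los.mem_left x).and (Los.mem_left x')).ex U
  · intro U x'
    exact cl_eq

theorem ch_ex (u x : BSet B) : bmem x u ⊓ disN u x ⊓ (⨆ y, bmem y x) ≤
    ⨆ y, bmem y x ⊓ bmem y (chN u) := by
  -- the union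
  set e : (Σ i, (u.el i).Ty) → BSet B := fun p => (u.el p.1).el p.2 with he
  have h1 : bmem x u ⊓ (⨆ y, bmem y x) ≤ ⨆ p, bmem (e p) x := by
    rw [inf_iSup_eq]
    refine iSup_le fun y => ?_
    have h2 : bmem x u ⊓ bmem y x ≤ bmem y (unN u.tv u.el) := by
      rw [bmem_unN, ← bex_eq (ext_bmem_right y) u]
      exact le_iSup (fun w => bmem w u ⊓ bmem y w) x
    calc bmem x u ⊓ bmem y x ≤ bmem y (unN u.tv u.el) ⊓ bmem y x := le_inf h2 inf_le_right
      _ ≤ ⨆ p, bmem (e p) x := by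
        have h3 : bmem y (unN u.tv u.el) = ⨆ p : (Σ i, (u.el i).Ty),
          (unN u.tv u.el).tv p ⊓ beq y (e p) := rfl
        rw [h3, iSup_inf_eq]
        refine iSup_mono fun p => ?_
        exact (inf_le_inf_right _ inf_le_right).trans (bmem_congr_left _ _ _)
  have h2 : (⨆ p, bmem (e p) x) =
      ⨆ p, bmem (e p) x ⊓ (⨆ q, ⨆ _ : WellOrderingRel q p, bmem (e q) x)ᶜ :=
    iSup_first WellOrderingRel _
  calc bmem x u ⊓ disN u x ⊓ (⨆ y, bmem y x)
      ≤ (bmem x u ⊓ disN u x) ⊓ (⨆ p, bmem (e p) x) := by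
        refine le_inf inf_le_left ?_
        refine le_trans ?_ h1
        exact inf_le_inf_right _ inf_le_left
    _ = ⨆ p, (bmem x u ⊓ disN u x) ⊓
        (bmem (e p) x ⊓ (⨆ q, ⨆ _ : WellOrderingRel q p, bmem (e q) x)ᶜ) := by
        rw [h2, inf_iSup_eq]
    _ ≤ _ := by
        refine iSup_le fun p => ?_
        refine le_iSup_of_le (e p) ?_
        have h5 : (bmem x u ⊓ disN u x) ⊓
            (bmem (e p) x ⊓ (⨆ q, ⨆ _ : WellOrderingRel q p, bmem (e q) x)ᶜ) ≤
            (chN u).tv p := by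
          change _ ≤ (⨆ q, ⨆ _ : WellOrderingRel q p, comN u (e q) (e p))ᶜ
          have h6 : ∀ q, WellOrderingRel q p →
              bmem x u ⊓ disN u x ⊓ bmem (e p) x ⊓ comN u (e q) (e p) ≤ bmem (e q) x := by
            intro q _
            rw [le_iff_ult]
            intro U hU
            simp only [U.inf, disN_mem, comN_mem] at hU
            obtain ⟨⟨⟨_, h1⟩, h2⟩, x', h3, h4, h5⟩ := hU
            have := h1 x' h3 ⟨cl U (e p), h2, h5⟩
            subst this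
            exact h4
          rw [le_compl_iff_disjoint_right, disjoint_iff, eq_bot_iff, inf_iSup_eq]
          refine iSup_le fun q => ?_
          rw [inf_iSup_eq]
          refine iSup_le fun hq => ?_
          have h7 : (bmem x u ⊓ disN u x) ⊓
            (bmem (e p) x ⊓ (⨆ q, ⨆ _ : WellOrderingRel q p, bmem (e q) x)ᶜ) ⊓
            comN u (e q) (e p) ≤ (⨆ q, ⨆ _ : WellOrderingRel q p, bmem (e q) x) ⊓
            (⨆ q, ⨆ _ : WellOrderingRel q p, bmem (e q) x)ᶜ := by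
            refine le_inf ?_ ?_
            · refine le_trans ?_ (le_iSup₂_of_le q hq le_rfl)
              refine le_trans ?_ (h6 q hq)
              refine inf_le_inf_right _ ?_
              exact inf_le_inf_left _ inf_le_left
            · exact inf_le_left.trans (inf_le_right.trans inf_le_right)
          rwa [inf_compl_eq_bot] at h7
        refine le_inf (inf_le_right.trans inf_le_left) ?_
        exact h5.trans (tv_le_bmem (chN u) p)

theorem EU_choice (U : Ult B) (a : MU U) (h1 : ∀ x, EU U x a → ∃ y, EU U y x)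
    (h2 : ∀ x y, EU U x a → EU U y a → x ≠ y → ∀ z, ¬ (EU U z x ∧ EU U z y)) :
    ∃ c, ∀ x, EU U x a → ∃! y, EU U y x ∧ EU U y c := by
  obtain ⟨u, rfl⟩ := cl_surj U a
  refine ⟨cl U (chN u), fun x hx => ?_⟩
  obtain ⟨x, rfl⟩ := cl_surj U x
  have hd : disN u x ∈ U.s := by
    rw [disN_mem]
    rintro x' hx' ⟨z, hz1, hz2⟩
    by_contra hne
    exact h2 _ _ hx' hx hne z ⟨hz2, hz1⟩
  have hn : (⨆ y, bmem y x) ∈ U.s := ((Los.mem_left x).ex U).1 (h1 _ hx)
  have he : (⨆ y, bmem y x ⊓ bmem y (chN u)) ∈ U.s :=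
    U.mono (ch_ex u x) ((U.inf _ _).2 ⟨(U.inf _ _).2 ⟨hx, hd⟩, hn⟩)
  obtain ⟨y, hy1, hy2⟩ := (((Los.mem_left x).and (Los.mem_left (chN u))).ex U).2 he
  refine ⟨y, ⟨hy1, hy2⟩, ?_⟩
  rintro z ⟨hz1, hz2⟩
  obtain ⟨y, rfl⟩ := cl_surj U y
  obtain ⟨z, rfl⟩ := cl_surj U z
  rw [cl_eq]
  refine U.mono (ch_uniq u x z y) ?_
  rw [U.inf, U.inf, U.inf, U.inf]
  exact ⟨⟨hx, hz1, hy1⟩, hz2, hy2⟩

end CI
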