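import Pool.Agent.CI.T.NullC

/-!
# Project CI: codes of closed sets give sets in the ideals E and M
-/

set_option autoImplicit false

namespace CI

universe u v

variable {B : Type u} [CompleteBooleanAlgebra B] {G : Type v}

open BSet Ordinal

/-- the name of a family of sets of reals with index names `e` -/
noncomputable def famN {J : Type u} (e : J → BSet B) (P : J → (ℕ → B) → B) : BSet B :=
  relN (I := J × (ℕ → B)) (fun p => P p.1 p.2) (fun p => e p.1) (fun p => rN p.2)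

theorem rel_famN {J : Type u} (e : J → BSet B) (P : J → (ℕ → B) → B) (hP : ∀ j, RExt (P j))
    (he : ∀ i j, i ≠ j → beq (e i) (e j) = ⊥) (U : Ult B) (j : J) (x : ℕ → B) :
    Rel (EU U) (cl U (famN e P)) (cl U (e j)) (cl U (rN x)) ↔ P j x ∈ U.s := by
  rw [famN, rel_relN]
  have : (⨆ p : J × (ℕ → B), P p.1 p.2 ⊓ (beq (e j) (e p.1) ⊓ beq (rN x) (rN p.2))) = P j x := by
    apply le_antisymm
    · refine iSup_le fun p => ?_
      obtain ⟨i, y⟩ := p
      by_cases h : j = i
      · subst h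
        change P j y ⊓ (beq (e j) (e j) ⊓ beq (rN x) (rN y)) ≤ P j x
        rw [inf_comm, beq_symm (rN x)]
        exact (inf_le_inf_right _ inf_le_right).trans (hP j y x)
      · change P i y ⊓ (beq (e j) (e i) ⊓ beq (rN x) (rN y)) ≤ P j x
        rw [he j i h]
        simp
    · refine le_iSup_of_le (j, x) ?_
      change P j x ≤ P j x ⊓ (beq (e j) (e j) ⊓ beq (rN x) (rN x))
      rw [beq_refl, beq_refl]
      simp
  rw [this]

/-- the name of a sequence of closed sets -/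
noncomputable def cloN (F : ℕ → CloC B) : BSet B :=
  famN (J := ULift.{u} ℕ) (fun i => oN B i.down) (fun i x => (F i.down).mem x)

theorem rel_cloN (F : ℕ → CloC B) (U : Ult B) (i : ℕ) (x : ℕ → B) :
    Rel (EU U) (cl U (cloN F)) (cl U (oN B i)) (cl U (rN x)) ↔ (F i).mem x ∈ U.s := by
  refine rel_famN (J := ULift.{u} ℕ) (fun i => oN B i.down) (fun i x => (F i.down).mem x)
    (fun j => (F j.down).rext) ?_ U ⟨i⟩ x
  intro i j hij
  apply beq_oN_ne
  rw [Ne, Nat.cast_inj]
  exact fun h => hij (ULift.ext _ _ h)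

theorem CloC.mem_level (F : CloC B) (V : Ult B) (x : ℕ → B) (n : ℕ) (h : F.mem x ∈ V.s) :
    F.T n (tr V x n) ∈ V.s := by
  classical
  have h1 : (⨆ a : Finset ℕ, ⨆ _ : a ⊆ Finset.range n, F.T n a ⊓ cutV x n a) ∈ V.s :=
    V.mono (iInf_le _ n) h
  have h3 : (⨆ a : Finset ℕ, ⨆ _ : a ⊆ Finset.range n, F.T n a ⊓ cutV x n a) =
      (Finset.range n).powerset.sup (fun a => F.T n a ⊓ cutV x n a) := by
    rw [Finset.sup_eq_iSup]
    simp only [Finset.mem_powerset]
  rw [h3, V.finset_sup] at h1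
  obtain ⟨a, ha, h⟩ := h1
  rw [V.inf, cutV_iff_tr V _ _ _ (Finset.mem_powerset.1 ha)] at h
  rw [← h.2]; exact h.1

theorem closed_cloN (F : ℕ → CloC B) (U : Ult B) (i : ℕ) :
    ClosedP (EU U) (cl U (oN B ω)) (Rel (EU U) (cl U (cloN F)) (cl U (oN B i))) := by
  intro x hx hRx
  obtain ⟨x, rfl⟩ := exists_rN U x hx
  rw [rel_cloN] at hRx
  have hD : Df (B := B) (G := Unit) (fun U _ => ∃ n a, EU U n (cl U (oN B ω)) ∧
      Cut (EU U) (cl U (rN x)) n a ∧ ∀ y, Sub (EU U) y (cl U (oN B ω)) → Cut (EU U) y n a →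
        ¬ Rel (EU U) (cl U (cloN F)) (cl U (oN B i)) y) :=
    Df.ex (Df.ex (Df.and (Df.mem _ _) (Df.and (Df.Cut _ _ _) (Df.all (Df.imp (Df.Sub _ _)
      (Df.imp (Df.Cut _ _ _) (Df.not (Df.Rel _ _ _))))))))
  obtain ⟨P, hP⟩ := hD
  refine (hP U ()).2 (U.mono ?_ ((U.compl _).2 hRx))
  rw [CloC.mem, compl_iInf]
  refine iSup_le fun n => ?_
  rw [le_iff_ult]
  intro V hV
  rw [V.compl] at hV
  have h1 : (F i).T n (tr V x n) ∉ V.s := by
    intro h
    apply hV
    refine V.mono ?_ ((V.inf _ _).2 ⟨h, cutV_tr V x n⟩)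
    exact le_iSup_of_le _ (le_iSup_of_le (tr_sub V x n) le_rfl)
  apply (hP V ()).1
  refine ⟨cl V (oN B n), cl V (fN B (tr V x n)), nat_mem_omega V n,
    (cut_iff V x n _ (tr_sub V x n)).2 (cutV_tr V x n), ?_⟩
  intro y hy hyc hRy
  obtain ⟨y, rfl⟩ := exists_rN V y hy
  rw [cut_iff V y n _ (tr_sub V x n), cutV_iff_tr V y n _ (tr_sub V x n)] at hyc
  rw [rel_cloN] at hRy
  have := (F i).mem_level V y n hRy
  rw [← hyc] at this
  exact h1 this

/-- truth value of: few cylinders of level `n` meet the closed set -/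
def fewV (F : CloC B) (k n : ℕ) : B :=
  ⨅ A : Finset (Finset ℕ), ⨅ _ : (∀ a ∈ A, a ⊆ Finset.range n) ∧
    2 ^ n < 2 ^ k * A.card, (⨅ a ∈ A, F.T n a)ᶜ

theorem fewV_mem (F : CloC B) (k n : ℕ) (V : Ult B) : fewV F k n ∈ V.s ↔
    ∀ A : Finset (Finset ℕ), (∀ a ∈ A, a ⊆ Finset.range n) → (∀ a ∈ A, F.T n a ∈ V.s) →
      2 ^ k * A.card ≤ 2 ^ n := by
  classical
  constructor
  · intro h A hA hT
    by_contra hlt
    rw [not_le] at hlt
    have h1 : fewV F k n ≤ (⨅ a ∈ A, F.T n a)ᶜ := iInf₂_le A ⟨hA, hlt⟩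
    have h2 := V.mono h1 h
    rw [V.compl, V.biInf_finset] at h2
    exact h2 hT
  · intro h
    have h3 : fewV F k n = ((Finset.range n).powerset.powerset.filter
        (fun A => 2 ^ n < 2 ^ k * A.card)).inf (fun A => (⨅ a ∈ A, F.T n a)ᶜ) := by
      rw [Finset.inf_eq_iInf, fewV]
      refine iInf_congr fun A => ?_
      have : ((∀ a ∈ A, a ⊆ Finset.range n) ∧ 2 ^ n < 2 ^ k * A.card) ↔
          A ∈ (Finset.range n).powerset.powerset.filter (fun A => 2 ^ n < 2 ^ k * A.card) := by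
        rw [Finset.mem_filter, Finset.mem_powerset]
        constructor
        · rintro ⟨h1, h2⟩
          exact ⟨fun a ha => Finset.mem_powerset.2 (h1 a ha), h2⟩
        · rintro ⟨h1, h2⟩
          exact ⟨fun a ha => Finset.mem_powerset.1 (h1 ha), h2⟩
      simp only [this]
    rw [h3, V.finset_inf]
    intro A hA
    rw [Finset.mem_filter, Finset.mem_powerset] at hA
    rw [V.compl, V.biInf_finset]
    intro hT
    have := h A (fun a ha => Finset.mem_powerset.1 (hA.1 ha)) hT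
    omega

/-- first level at which few cylinders meet the closed set -/
def firV (F : CloC B) (k n : ℕ) : B := fewV F k n ⊓ (⨆ m : ℕ, ⨆ _ : m < n, fewV F k m)ᶜ

theorem firV_uniq (F : CloC B) (k : ℕ) {m n : ℕ} (V : Ult B) (h : firV F k m ∈ V.s)
    (h' : firV F k n ∈ V.s) : m = n := by
  have key : ∀ m n : ℕ, m < n → firV F k m ∈ V.s → firV F k n ∈ V.s → False := by
    intro m n hmn h h'
    rw [firV, V.inf, V.compl] at h h'
    apply h'.2
    exact V.mono (le_iSup_of_le m (le_iSup_of_le hmn le_rfl)) h.1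
  rcases lt_trichotomy m n with h1 | h1 | h1
  · exact (key m n h1 h h').elim
  · exact h1
  · exact (key n m h1 h' h).elim

theorem iSup_firV (F : CloC B) (hF : F.Nul) (k : ℕ) : ⨆ n, firV F k n = ⊤ := by
  have h1 : ⨆ n, fewV F k n = ⊤ := hF k
  rw [eq_top_iff, ← h1]
  refine iSup_le fun n => ?_
  induction n using Nat.strong_induction_on with
  | _ n ih =>
    have h2 : (⨆ m : ℕ, ⨆ _ : m < n, fewV F k m) ≤ ⨆ n, firV F k n :=
      iSup₂_le fun m hm => ih m hm
    calc fewV F k n = (fewV F k n ⊓ (⨆ m : ℕ, ⨆ _ : m < n, fewV F k m)) ⊔ firV F k n := by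
          rw [firV, ← inf_sup_left, sup_compl_eq_top, inf_top_eq]
      _ ≤ _ := sup_le (inf_le_right.trans h2) (le_iSup (firV F k) n)

/-- the code of a null set containing a closed null set -/
def nulOf (F : CloC B) : NulC B where
  U := fun k =>
    { O := fun n a => ⨆ m : ℕ, ⨆ _ : m ≤ n, firV F k m ⊓ F.T m (a ∩ Finset.range m)
      mono := by
        intro n a ha
        refine le_inf ?_ ?_
        · refine iSup₂_le fun m hm => ?_
          exact le_iSup₂_of_le m (hm.trans (Nat.le_succ n)) le_rfl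
        · refine iSup₂_le fun m hm => ?_
          refine le_iSup₂_of_le m (hm.trans (Nat.le_succ n)) ?_
          have : insert n a ∩ Finset.range m = a ∩ Finset.range m := by
            ext i
            simp only [Finset.mem_insert, Finset.mem_inter, Finset.mem_range]
            constructor
            · rintro ⟨rfl | h1, h2⟩
              · omega
              · exact ⟨h1, h2⟩
            · rintro ⟨h1, h2⟩
              exact ⟨Or.inr h1, h2⟩
          rw [this] }
  le := by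
    classical
    intro k n A hA hlt
    by_contra hne
    obtain ⟨V, hV⟩ := exists_ult hne
    rw [V.biInf_finset] at hV
    have h1 : ∀ a ∈ A, ∃ m, m ≤ n ∧ firV F k m ∈ V.s ∧ F.T m (a ∩ Finset.range m) ∈ V.s := by
      intro a ha
      have h2 := hV a ha
      have h3 : (⨆ m : ℕ, ⨆ _ : m ≤ n, firV F k m ⊓ F.T m (a ∩ Finset.range m)) =
          (Finset.range (n + 1)).sup (fun m => firV F k m ⊓ F.T m (a ∩ Finset.range m)) := by
        rw [Finset.sup_eq_iSup]
        simp only [Finset.mem_range, Nat.lt_succ_iff]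
      change (⨆ m : ℕ, ⨆ _ : m ≤ n, firV F k m ⊓ F.T m (a ∩ Finset.range m)) ∈ V.s at h2
      rw [h3, V.finset_sup] at h2
      obtain ⟨m, hm, h4⟩ := h2
      rw [V.inf] at h4
      exact ⟨m, Nat.lt_succ_iff.1 (Finset.mem_range.1 hm), h4⟩
    have hne : A.Nonempty := by
      rw [Finset.nonempty_iff_ne_empty]
      rintro rfl
      simp at hlt
    obtain ⟨a₀, ha₀⟩ := hne
    obtain ⟨m, hm, hf, -⟩ := h1 a₀ ha₀
    obtain ⟨i, rfl⟩ := Nat.exists_eq_add_of_le hm
    set S := (Finset.range m).powerset.filter (fun a => F.T m a ∈ V.s) with hS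
    have h2 : A ⊆ (Finset.range (m + i)).powerset.filter (fun c => c ∩ Finset.range m ∈ S) := by
      intro a ha
      obtain ⟨m', hm', hf', hT⟩ := h1 a ha
      have := firV_uniq F k V hf hf'
      subst this
      rw [Finset.mem_filter, Finset.mem_powerset, hS, Finset.mem_filter, Finset.mem_powerset]
      exact ⟨hA a ha, Finset.inter_subset_right, hT⟩
    have h3 := Finset.card_le_card h2
    have hSs : ∀ a ∈ S, a ⊆ Finset.range m := fun a ha =>
      Finset.mem_powerset.1 (Finset.mem_filter.1 ha).1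
    rw [card_ext m i S hSs] at h3
    have h4 : 2 ^ k * S.card ≤ 2 ^ m := by
      have hf2 : fewV F k m ∈ V.s := ((V.inf _ _).1 hf).1
      exact (fewV_mem F k m V).1 hf2 S hSs (fun a ha => (Finset.mem_filter.1 ha).2)
    have h5 : 2 ^ k * A.card ≤ 2 ^ (m + i) := by
      calc 2 ^ k * A.card ≤ 2 ^ k * (2 ^ i * S.card) := Nat.mul_le_mul_left _ h3
        _ = 2 ^ i * (2 ^ k * S.card) := by ring
        _ ≤ 2 ^ i * 2 ^ m := Nat.mul_le_mul_left _ h4
        _ = 2 ^ (m + i) := by rw [pow_add, mul_comm]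
    omega

theorem le_nulOf (F : CloC B) (hF : F.Nul) (x : ℕ → B) : F.mem x ≤ (nulOf F).mem x := by
  refine le_iInf fun k => ?_
  rw [← inf_top_eq (F.mem x), ← iSup_firV F hF k, inf_iSup_eq]
  refine iSup_le fun n => ?_
  rw [le_iff_ult]
  intro V hV
  rw [V.inf] at hV
  have h1 := F.mem_level V x n hV.1
  refine V.mono (((nulOf F).U k).mem_of x n (tr V x n) (tr_sub V x n)) ?_
  rw [V.inf]
  refine ⟨?_, cutV_tr V x n⟩
  change (⨆ m : ℕ, ⨆ _ : m ≤ n, firV F k m ⊓ F.T m (tr V x n ∩ Finset.range m)) ∈ V.s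
  refine V.mono (le_iSup₂_of_le n le_rfl le_rfl) ?_
  rw [V.inf, Finset.inter_eq_left.2 (tr_sub V x n)]
  exact ⟨hV.2, h1⟩

/-- codes give sets in the ideal E -/
theorem nullE_of (F : ℕ → CloC B) (hF : ∀ n, (F n).Nul) (b : B) {R : ∀ U : Ult B, MU U → Prop}
    (h : ∀ U : Ult B, b ∈ U.s → ∀ x : ℕ → B, R U (cl U (rN x)) → (⨆ n, (F n).mem x) ∈ U.s)
    (U : Ult B) (hU : b ∈ U.s) : NullE (EU U) (cl U (oN B ω)) (R U) := by
  refine ⟨cl U (cloN F), ?_, ?_⟩
  · intro i hi
    refine ball_omega (R := fun U i => ClosedP (EU U) (cl U (oN B ω))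
      (Rel (EU U) (cl U (cloN F)) i) ∧ Null (EU U) (cl U (oN B ω))
      (Rel (EU U) (cl U (cloN F)) i)) ?_ ⊤ ?_ U U.top i hi
    · exact Df.and (Df.ClosedP _ (Df.Rel _ _ _)) (Df.Null _ (Df.Rel _ _ _))
    · intro U _ i
      refine ⟨closed_cloN F U i, ?_⟩
      refine null_of (nulOf (F i)) ⊤ (R := fun U x => Rel (EU U) (cl U (cloN F))
        (cl U (oN B i)) x) (Df.Rel _ _ _) ?_ U U.top
      intro U _ x hx
      rw [rel_cloN] at hx
      exact U.mono (le_nulOf (F i) (hF i) x) hx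
  · intro x hx hRx
    obtain ⟨x, rfl⟩ := exists_rN U x hx
    have h1 := h U hU x hRx
    obtain ⟨P, hP⟩ : Df (B := B) (G := Unit) (fun U _ => ∃ i, EU U i (cl U (oN B ω)) ∧
      Rel (EU U) (cl U (cloN F)) i (cl U (rN x))) := Df.ex (Df.and (Df.mem _ _) (Df.Rel _ _ _))
    refine (hP U ()).2 (U.mono ?_ h1)
    refine iSup_le fun n => ?_
    rw [le_iff_ult]
    intro V hV
    apply (hP V ()).1
    exact ⟨cl V (oN B n), nat_mem_omega V n, (rel_cloN F V n x).2 hV⟩

theorem tr_fin (V : Ult B) (c : Finset ℕ) (m : ℕ) (hc : c ⊆ Finset.range m) :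
    tr V (fun n => if n ∈ c then (⊤ : B) else ⊥) m = c := by
  classical
  ext i
  rw [tr, Finset.mem_filter, Finset.mem_range]
  constructor
  · rintro ⟨-, h⟩
    by_contra hi
    simp only [hi, if_false] at h
    exact V.bot h
  · intro hi
    refine ⟨Finset.mem_range.1 (hc hi), ?_⟩
    simp only [hi, if_true]
    exact V.top

/-- codes give meager sets -/
theorem meager_of (F : ℕ → CloC B) (hF : ∀ n, (F n).Nwd) (b : B)
    {R : ∀ U : Ult B, MU U → Prop}
    (h : ∀ U : Ult B, b ∈ U.s → ∀ x : ℕ → B, R U (cl U (rN x)) → (⨆ n, (F n).mem x) ∈ U.s)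
    (U : Ult B) (hU : b ∈ U.s) : Meager (EU U) (cl U (oN B ω)) (R U) := by
  refine ⟨cl U (cloN F), ?_, ?_⟩
  · intro i hi
    refine ball_omega (R := fun U i => ClosedP (EU U) (cl U (oN B ω))
      (Rel (EU U) (cl U (cloN F)) i) ∧ ∀ n a, EU U n (cl U (oN B ω)) → Sub (EU U) a n →
      ∃ x, Sub (EU U) x (cl U (oN B ω)) ∧ Cut (EU U) x n a ∧
        ¬ Rel (EU U) (cl U (cloN F)) i x) ?_ ⊤ ?_ U U.top i hi
    · refine Df.and (Df.ClosedP _ (Df.Rel _ _ _)) ?_
      exact Df.all (Df.all (Df.imp (Df.mem _ _) (Df.imp (Df.Sub _ _) (Df.ex (Df.and (Df.Sub _ _)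
        (Df.and (Df.Cut _ _ _) (Df.not (Df.Rel _ _ _))))))))
    · intro U _ i
      refine ⟨closed_cloN F U i, ?_⟩
      intro n a hn
      refine ball_omega (R := fun U n => ∀ a, Sub (EU U) a n →
        ∃ x, Sub (EU U) x (cl U (oN B ω)) ∧ Cut (EU U) x n a ∧
        ¬ Rel (EU U) (cl U (cloN F)) (cl U (oN B i)) x) ?_ ⊤ ?_ U U.top n hn a
      · exact Df.all (Df.imp (Df.Sub _ _) (Df.ex (Df.and (Df.Sub _ _)
          (Df.and (Df.Cut _ _ _) (Df.not (Df.Rel _ _ _))))))
      · intro U _ n a ha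
        obtain ⟨a, ha', rfl⟩ := exists_fN U n a ha
        clear ha
        obtain ⟨P, hP⟩ : Df (B := B) (G := Unit) (fun U _ =>
          ∃ x, Sub (EU U) x (cl U (oN B ω)) ∧ Cut (EU U) x (cl U (oN B n)) (cl U (fN B a)) ∧
          ¬ Rel (EU U) (cl U (cloN F)) (cl U (oN B i)) x) :=
          Df.ex (Df.and (Df.Sub _ _) (Df.and (Df.Cut _ _ _) (Df.not (Df.Rel _ _ _))))
        refine (hP U ()).2 (U.mono ?_ U.top)
        rw [← hF i n a ha']
        refine iSup_le fun m => iSup_le fun c => iSup_le fun hc => ?_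
        obtain ⟨hc1, hc2, hc3⟩ := hc
        rw [le_iff_ult]
        intro V hV
        rw [V.compl] at hV
        apply (hP V ()).1
        refine ⟨cl V (fN B c), rN_sub V _, ?_, ?_⟩
        · rw [fN, cut_iff V _ n a ha', cutV_mem]
          intro j hj
          have : j ∈ a ↔ j ∈ c := by
            rw [← hc3, Finset.mem_inter, Finset.mem_range]
            exact ⟨fun h => h.1, fun h => ⟨h, hj⟩⟩
          rw [this]
          by_cases hjc : j ∈ c
          · simp [hjc, V.top]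
          · simp [hjc, V.bot]
        · rw [fN, rel_cloN]
          intro hmem
          have := (F i).mem_level V _ m hmem
          rw [tr_fin V c m hc1] at this
          exact hV this
  · intro x hx hRx
    obtain ⟨x, rfl⟩ := exists_rN U x hx
    have h1 := h U hU x hRx
    obtain ⟨P, hP⟩ : Df (B := B) (G := Unit) (fun U _ => ∃ i, EU U i (cl U (oN B ω)) ∧
      Rel (EU U) (cl U (cloN F)) i (cl U (rN x))) := Df.ex (Df.and (Df.mem _ _) (Df.Rel _ _ _))
    refine (hP U ()).2 (U.mono ?_ h1)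
    refine iSup_le fun n => ?_
    rw [le_iff_ult]
    intro V hV
    apply (hP V ()).1
    exact ⟨cl V (oN B n), nat_mem_omega V n, (rel_cloN F V n x).2 hV⟩

end CI
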