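import Pool.Agent.CI.T.Clo1

/-!
# Project CI: sets in the ideals E and M are covered by codes
-/

set_option autoImplicit false

namespace CI

universe u v

variable {B : Type u} [CompleteBooleanAlgebra B] {G : Type v}

open BSet Ordinal

/-- value of: at level `j` there is an element of the tree which extends `(m, a)` -/
def exV (T : ℕ → Finset ℕ → B) (j m : ℕ) (a : Finset ℕ) : B :=
  ((Finset.range j).powerset.filter (fun c => c ∩ Finset.range m = a)).sup (fun c => T j c)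

theorem exV_mem (U : Ult B) (T : ℕ → Finset ℕ → B) (j m : ℕ) (a : Finset ℕ) :
    exV T j m a ∈ U.s ↔ ∃ c, c ⊆ Finset.range j ∧ c ∩ Finset.range m = a ∧ T j c ∈ U.s := by
  rw [exV, U.finset_sup]
  simp only [Finset.mem_filter, Finset.mem_powerset, and_assoc]

/-- a Boolean valued tree with elements on all levels has a branch -/
theorem konig (T : ℕ → Finset ℕ → B)
    (hT : ∀ j c, c ⊆ Finset.range (j + 1) → T (j + 1) c ≤ T j (c ∩ Finset.range j)) (b : B)
    (h : ∀ U : Ult B, b ∈ U.s → ∀ j, ∃ c, c ⊆ Finset.range j ∧ T j c ∈ U.s) :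
    ∃ x : ℕ → B, ∀ U : Ult B, b ∈ U.s → ∀ m, T m (tr U x m) ∈ U.s := by
  have hanti : ∀ m a j, m ≤ j → exV T (j + 1) m a ≤ exV T j m a := by
    intro m a j hmj
    rw [le_iff_ult]
    intro U hU
    rw [exV_mem] at *
    obtain ⟨c, hc, h1, h2⟩ := hU
    refine ⟨c ∩ Finset.range j, Finset.inter_subset_right, ?_, U.mono (hT j c hc) h2⟩
    rw [Finset.inter_assoc, Finset.inter_eq_right.2 (Finset.range_mono hmj), h1]
  have hanti2 : ∀ m a, Antitone (fun i => exV T (m + i) m a) := by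
    intro m a
    apply antitone_nat_of_succ_le
    intro i
    exact hanti m a (m + i) (Nat.le_add_right m i)
  have hanti3 : ∀ m a, Antitone (fun i => exV T (m + 1 + i) (m + 1) a) := fun m a =>
    hanti2 (m + 1) a
  set S : ℕ → Finset ℕ → B := fun m a => ⨅ i : ℕ, exV T (m + i) m a with hS
  have hSs : ∀ m a, a ⊆ Finset.range m → S m a ≤ S (m + 1) a ⊔ S (m + 1) (insert m a) := by
    intro m a _
    have h1 : S m a ≤ ⨅ i : ℕ, (exV T (m + 1 + i) (m + 1) a ⊔
        exV T (m + 1 + i) (m + 1) (insert m a)) := by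
      refine le_iInf fun i => ?_
      refine (iInf_le _ (1 + i)).trans ?_
      rw [← add_assoc, le_iff_ult]
      intro U hU
      rw [U.sup, exV_mem, exV_mem]
      rw [exV_mem] at hU
      obtain ⟨c, hc, h1, h2⟩ := hU
      rcases inter_succ c m with h | h
      · left; exact ⟨c, hc, by rw [h, h1], h2⟩
      · right; exact ⟨c, hc, by rw [h, h1], h2⟩
    refine h1.trans (le_of_eq ?_)
    exact iInf_sup_of_antitone (hanti3 m a) (hanti3 m (insert m a))
  refine ⟨br S, fun U hU m => ?_⟩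
  have h0 : S 0 ∅ ∈ U.s := by
    have : b ≤ S 0 ∅ := by
      refine le_iInf fun i => ?_
      rw [le_iff_ult]
      intro V hV
      rw [exV_mem]
      obtain ⟨c, hc1, hc2⟩ := h V hV (0 + i)
      exact ⟨c, hc1, by simp, hc2⟩
    exact U.mono this hU
  have h1 := br_spec S hSs U h0 m
  have h2 : exV T (m + 0) m (tr U (br S) m) ∈ U.s := U.mono (iInf_le _ 0) h1
  rw [add_zero, exV_mem] at h2
  obtain ⟨c, hc, h3, h4⟩ := h2
  rw [← h3, Finset.inter_eq_left.2 hc]
  exact h4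

/-- the value of a definable property -/
theorem Df.get {P' : Ult B → Prop} (h : Df (G := Unit) (fun U _ => P' U)) :
    ∃ P : B, ∀ U : Ult B, P' U ↔ P ∈ U.s := by
  obtain ⟨P, hP⟩ := h
  exact ⟨P (), fun U => hP U ()⟩

theorem cut_sub (U : Ult B) (y : MU U) (hy : Sub (EU U) y (cl U (oN B ω))) (n : ℕ) :
    ∃ x : ℕ → B, y = cl U (rN x) ∧
      Cut (EU U) y (cl U (oN B n)) (cl U (fN B (tr U x n))) := by
  obtain ⟨x, rfl⟩ := exists_rN U y hy
  exact ⟨x, rfl, (cut_iff U x n _ (tr_sub U x n)).2 (cutV_tr U x n)⟩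

theorem cut_lower (U : Ult B) (y : MU U) (hy : Sub (EU U) y (cl U (oN B ω))) {m n : ℕ}
    (hmn : m ≤ n) (a : Finset ℕ) (ha : a ⊆ Finset.range n)
    (h : Cut (EU U) y (cl U (oN B n)) (cl U (fN B a))) :
    Cut (EU U) y (cl U (oN B m)) (cl U (fN B (a ∩ Finset.range m))) := by
  obtain ⟨x, rfl⟩ := exists_rN U y hy
  rw [cut_iff U x n a ha, cutV_mem] at h
  rw [cut_iff U x m _ Finset.inter_subset_right, cutV_mem]
  intro i hi
  rw [← h i (hi.trans_le hmn), Finset.mem_inter, Finset.mem_range]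
  exact ⟨fun h => h.1, fun h => ⟨h, hi⟩⟩

theorem tr_inter (U : Ult B) (x : ℕ → B) {m n : ℕ} (h : m ≤ n) :
    tr U x n ∩ Finset.range m = tr U x m := by
  classical
  ext i
  simp only [tr, Finset.mem_inter, Finset.mem_filter, Finset.mem_range]
  constructor
  · rintro ⟨⟨_, h2⟩, h3⟩; exact ⟨h3, h2⟩
  · rintro ⟨h1, h2⟩; exact ⟨⟨h1.trans_le h, h2⟩, h1⟩

/-- the code of the closed set `{x | R x}` below `b` -/
theorem exists_cloC (b : B) {R : ∀ U : Ult B, MU U → Prop}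
    (hR : Df (G := BSet B) (fun U x => R U (cl U x))) :
    ∃ F : CloC B, ∀ (U : Ult B) (n : ℕ) (a : Finset ℕ), a ⊆ Finset.range n →
      (F.T n a ∈ U.s ↔ b ∈ U.s ∧ ∃ y, Sub (EU U) y (cl U (oN B ω)) ∧
        Cut (EU U) y (cl U (oN B n)) (cl U (fN B a)) ∧ R U y) := by
  have h1 : ∀ (n : ℕ) (a : Finset ℕ), ∃ P : B, ∀ U : Ult B, (b ∈ U.s ∧
      ∃ y, Sub (EU U) y (cl U (oN B ω)) ∧
        Cut (EU U) y (cl U (oN B n)) (cl U (fN B a)) ∧ R U y) ↔ P ∈ U.s := by
    intro n a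
    apply Df.get
    refine Df.and (Df.val (fun _ : Unit => b)) (Df.ex (Df.and (Df.Sub _ _)
      (Df.and (Df.Cut _ _ _) ?_)))
    exact hR.comp (fun z : Unit × BSet B => z.2)
  choose P hP using h1
  refine ⟨⟨P, ?_⟩, fun U n a _ => (hP n a U).symm⟩
  intro n a ha
  apply le_antisymm
  · rw [le_iff_ult]
    intro U hU
    rw [U.sup, ← hP, ← hP]
    rw [← hP] at hU
    obtain ⟨hb, y, hy, hyc, hyR⟩ := hU
    obtain ⟨x, rfl, hx⟩ := cut_sub U y hy (n + 1)
    rw [cut_iff U x n a ha, cutV_iff_tr U x n a ha] at hyc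
    have h2 := tr_inter U x (Nat.le_succ n)
    rcases inter_succ (tr U x (n + 1)) n with h | h
    · rw [Finset.inter_eq_left.2 (tr_sub U x (n + 1)), tr_inter U x (Nat.le_succ n), ← hyc] at h
      left
      rw [h] at hx
      exact ⟨hb, _, hy, hx, hyR⟩
    · rw [Finset.inter_eq_left.2 (tr_sub U x (n + 1)), tr_inter U x (Nat.le_succ n), ← hyc] at h
      right
      rw [h] at hx
      exact ⟨hb, _, hy, hx, hyR⟩
  · rw [le_iff_ult]
    intro U hU
    rw [U.sup, ← hP, ← hP] at hU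
    rw [← hP]
    have hn : n ∉ a := fun h => by
      have := Finset.mem_range.1 (ha h); omega
    rcases hU with ⟨hb, y, hy, hyc, hyR⟩ | ⟨hb, y, hy, hyc, hyR⟩
    · have := cut_lower U y hy (Nat.le_succ n) a
        (ha.trans (Finset.range_mono (Nat.le_succ n))) hyc
      rw [Finset.inter_eq_left.2 ha] at this
      exact ⟨hb, y, hy, this, hyR⟩
    · have hins : insert n a ⊆ Finset.range (n + 1) := by
        intro i hi
        rcases Finset.mem_insert.1 hi with rfl | hi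
        · exact Finset.self_mem_range_succ _
        · exact Finset.range_mono (Nat.le_succ n) (ha hi)
      have := cut_lower U y hy (Nat.le_succ n) _ hins hyc
      have h3 : insert n a ∩ Finset.range n = a := by
        rw [Finset.insert_inter_of_notMem (by simp), Finset.inter_eq_left.2 ha]
      rw [h3] at this
      exact ⟨hb, y, hy, this, hyR⟩

theorem clo_mem (F : CloC B) (b : B) {R : ∀ U : Ult B, MU U → Prop}
    (hR : Df (G := BSet B) (fun U x => R U (cl U x)))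
    (hF : ∀ (U : Ult B) (n : ℕ) (a : Finset ℕ), a ⊆ Finset.range n →
      (F.T n a ∈ U.s ↔ b ∈ U.s ∧ ∃ y, Sub (EU U) y (cl U (oN B ω)) ∧
        Cut (EU U) y (cl U (oN B n)) (cl U (fN B a)) ∧ R U y))
    (U : Ult B) (hU : b ∈ U.s) (x : ℕ → B) (hx : R U (cl U (rN x))) : F.mem x ∈ U.s := by
  obtain ⟨Q, hQ⟩ := hR
  have hle : b ⊓ Q (rN x) ≤ F.mem x := by
    refine le_iInf fun n => ?_
    rw [le_iff_ult]
    intro V hV
    rw [V.inf] at hV
    refine V.mono ?_ ((V.inf _ _).2 ⟨(hF V n (tr V x n) (tr_sub V x n)).2 ⟨hV.1, cl V (rN x),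
      rN_sub V x, (cut_iff V x n _ (tr_sub V x n)).2 (cutV_tr V x n), (hQ V _).2 hV.2⟩,
      cutV_tr V x n⟩)
    exact le_iSup_of_le _ (le_iSup_of_le (tr_sub V x n) le_rfl)
  exact U.mono hle ((U.inf _ _).2 ⟨hU, (hQ U _).1 hx⟩)

/-- the code of a closed set of measure zero -/
theorem clo_nul (F : CloC B) (b : B) {R : ∀ U : Ult B, MU U → Prop}
    (hR : Df (G := BSet B) (fun U x => R U (cl U x)))
    (hF : ∀ (U : Ult B) (n : ℕ) (a : Finset ℕ), a ⊆ Finset.range n →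
      (F.T n a ∈ U.s ↔ b ∈ U.s ∧ ∃ y, Sub (EU U) y (cl U (oN B ω)) ∧
        Cut (EU U) y (cl U (oN B n)) (cl U (fN B a)) ∧ R U y))
    (hc : ∀ U : Ult B, b ∈ U.s → ClosedP (EU U) (cl U (oN B ω)) (R U))
    (hn : ∀ U : Ult B, b ∈ U.s → Null (EU U) (cl U (oN B ω)) (R U)) : F.Nul := by
  classical
  intro k
  change ⨆ n, fewV F k n = ⊤
  by_contra hne
  set e := (⨆ n, fewV F k n)ᶜ with he
  have hene : e ≠ ⊥ := by
    intro h
    apply hne
    rwa [he, compl_eq_bot] at h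
  obtain ⟨U, hU⟩ := exists_ult hene
  have heb : ∀ V : Ult B, e ∈ V.s → b ∈ V.s := by
    intro V hV
    by_contra hb
    rw [he, V.compl] at hV
    apply hV
    refine V.mono (le_iSup _ 0) ?_
    rw [fewV_mem]
    intro A hA hT
    have : A = ∅ := by
      rw [Finset.eq_empty_iff_forall_notMem]
      intro a ha
      exact hb ((hF V 0 a (hA a ha)).1 (hT a ha)).1
    rw [this]; simp
  -- the name of an open set
  obtain ⟨y, hy⟩ := exists_name (R := fun U y => IsOpn (EU U) (cl U (oN B ω)) y ∧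
      MeasLe (EU U) (cl U (oN B ω)) y (cl U (oN B k)) ∧
      ∀ x, Sub (EU U) x (cl U (oN B ω)) → R U x → EU U x y)
    (Df.and (Df.IsOpn _ _) (Df.and (Df.MeasLe _ _ _)
        (Df.all (Df.imp (Df.Sub _ _) (Df.imp (hR.comp (fun z : BSet B × BSet B => z.2))
          (Df.mem _ _)))))) b (fun U hU => hn U hU _ (nat_mem_omega U k))
  have h1 : ∀ (n : ℕ) (a : Finset ℕ), ∃ P : B, ∀ U : Ult B,
      (F.T n a ∈ U.s ∧ ¬ CylIn (EU U) (cl U (oN B ω)) (cl U (oN B (n : ℕ))) (cl U (fN B a))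
        (cl U y)) ↔ P ∈ U.s := by
    intro n a
    apply Df.get
    exact Df.and (Df.val (fun _ : Unit => F.T n a)) (Df.not (Df.CylIn _ _ _ _))
  choose T hT using h1
  obtain ⟨x, hx⟩ := konig T (by
    intro j c hc
    rw [le_iff_ult]
    intro V hV
    rw [← hT] at hV ⊢
    have hci : c ∩ Finset.range j ⊆ Finset.range j := Finset.inter_subset_right
    have hcase : c = c ∩ Finset.range j ∨ c = insert j (c ∩ Finset.range j) := by
      rcases inter_succ c j with h | h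
      · left; rw [Finset.inter_eq_left.2 hc] at h; exact h
      · right; rw [Finset.inter_eq_left.2 hc] at h; exact h
    constructor
    · rw [F.zero j _ hci, V.sup]
      rcases hcase with h | h
      · left; rw [← h]; exact hV.1
      · right; rw [← h]; exact hV.1
    · intro hcyl
      apply hV.2
      exact cylIn_mono V j _ hci _ hcyl c hcase) e (by
    intro V hV j
    have hVb := heb V hV
    have h2 : fewV F k j ∉ V.s := by
      intro h
      rw [he, V.compl] at hV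
      exact hV (V.mono (le_iSup (fewV F k) j) h)
    rw [fewV_mem] at h2
    push Not at h2
    obtain ⟨A, hA, hAT, hlt⟩ := h2
    by_contra hcon
    push Not at hcon
    have h3 := card_of_measLe V (cl V y) k j (hy V hVb).2.1 A hA (by
      intro a ha
      by_contra hcyl
      exact hcon a (hA a ha) ((hT j a V).1 ⟨hAT a ha, hcyl⟩))
    omega)
  have hUb := heb U hU
  -- the branch is in the closed set
  have hRx : R U (cl U (rN x)) := by
    by_contra hRx
    obtain ⟨n, a, hn', ha, hall⟩ := hc U hUb _ (rN_sub U x) hRx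
    refine ball_omega (R := fun U n => ∀ a, ¬ (Cut (EU U) (cl U (rN x)) n a ∧
      ∀ y, Sub (EU U) y (cl U (oN B ω)) → Cut (EU U) y n a → ¬ R U y)) ?_ e ?_ U hU n hn' a
      ⟨ha, hall⟩
    · refine Df.all (Df.not (Df.and (Df.Cut _ _ _) (Df.all (Df.imp (Df.Sub _ _)
        (Df.imp (Df.Cut _ _ _) (Df.not ?_))))))
      exact hR.comp (fun z : (BSet B × BSet B) × BSet B => z.2)
    · rintro V hV n a ⟨ha, hall⟩
      obtain ⟨a, ha', rfl⟩ := cut_exists V _ n a ha
      rw [cut_iff V x n a ha', cutV_iff_tr V x n a ha'] at ha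
      subst ha
      have h4 := ((hT n _ V).2 (hx V hV n)).1
      rw [hF V n _ (tr_sub V x n)] at h4
      obtain ⟨-, z, hz1, hz2, hz3⟩ := h4
      exact hall z hz1 hz2 hz3
  -- hence in the open set
  obtain ⟨n, a, hn', ha, hcyl⟩ := (hy U hUb).1.2 _ ((hy U hUb).2.2 _ (rN_sub U x) hRx)
  refine ball_omega (R := fun U n => ∀ a, ¬ (Cut (EU U) (cl U (rN x)) n a ∧
    CylIn (EU U) (cl U (oN B ω)) n a (cl U y))) ?_ e ?_ U hU n hn' a ⟨ha, hcyl⟩
  · exact Df.all (Df.not (Df.and (Df.Cut _ _ _) (Df.CylIn _ _ _ _)))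
  · rintro V hV n a ⟨ha, hcyl⟩
    obtain ⟨a, ha', rfl⟩ := cut_exists V _ n a ha
    rw [cut_iff V x n a ha', cutV_iff_tr V x n a ha'] at ha
    subst ha
    exact ((hT n _ V).2 (hx V hV n)).2 hcyl

/-- the code of a closed set without interior points -/
theorem clo_nwd (F : CloC B) (b : B) {R : ∀ U : Ult B, MU U → Prop}
    (hR : Df (G := BSet B) (fun U x => R U (cl U x)))
    (hF : ∀ (U : Ult B) (n : ℕ) (a : Finset ℕ), a ⊆ Finset.range n →
      (F.T n a ∈ U.s ↔ b ∈ U.s ∧ ∃ y, Sub (EU U) y (cl U (oN B ω)) ∧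
        Cut (EU U) y (cl U (oN B n)) (cl U (fN B a)) ∧ R U y))
    (hc : ∀ U : Ult B, b ∈ U.s → ClosedP (EU U) (cl U (oN B ω)) (R U))
    (hn : ∀ U : Ult B, b ∈ U.s → ∀ n a, EU U n (cl U (oN B ω)) → Sub (EU U) a n →
      ∃ x, Sub (EU U) x (cl U (oN B ω)) ∧ Cut (EU U) x n a ∧ ¬ R U x) : F.Nwd := by
  classical
  intro n a ha
  by_contra hne
  set e := (⨆ m : ℕ, ⨆ c : Finset ℕ, ⨆ _ : c ⊆ Finset.range m ∧ n ≤ m ∧
    c ∩ Finset.range n = a, (F.T m c)ᶜ)ᶜ with he
  have hene : e ≠ ⊥ := by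
    intro h
    apply hne
    rwa [he, compl_eq_bot] at h
  have hall : ∀ V : Ult B, e ∈ V.s → ∀ m c, c ⊆ Finset.range m → n ≤ m →
      c ∩ Finset.range n = a → F.T m c ∈ V.s := by
    intro V hV m c h1 h2 h3
    by_contra h4
    rw [he, V.compl] at hV
    apply hV
    refine V.mono ?_ ((V.compl _).2 h4)
    exact le_iSup_of_le m (le_iSup_of_le c (le_iSup_of_le ⟨h1, h2, h3⟩ le_rfl))
  have heb : ∀ V : Ult B, e ∈ V.s → b ∈ V.s := by
    intro V hV
    have := hall V hV n a ha le_rfl (Finset.inter_eq_left.2 ha)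
    exact ((hF V n a ha).1 this).1
  obtain ⟨U, hU⟩ := exists_ult hene
  -- a point of the cylinder not in the set
  obtain ⟨x', hx'⟩ := exists_name (R := fun U x => Sub (EU U) x (cl U (oN B ω)) ∧
      Cut (EU U) x (cl U (oN B n)) (cl U (fN B a)) ∧ ¬ R U x)
    (Df.and (Df.Sub _ _) (Df.and (Df.Cut _ _ _) (Df.not hR))) b
    (fun U hU => hn U hU _ _ (nat_mem_omega U n) ((fN_sub U a n).2 ha))
  have hUb := heb U hU
  obtain ⟨h1, h2, h3⟩ := hx' U hUb
  obtain ⟨m, c, hm, hmc, hall2⟩ := hc U hUb _ h1 h3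
  refine ball_omega (R := fun U m => ∀ c, ¬ (Cut (EU U) (cl U x') m c ∧
      ∀ y, Sub (EU U) y (cl U (oN B ω)) → Cut (EU U) y m c → ¬ R U y)) ?_ e ?_ U hU m hm c
      ⟨hmc, hall2⟩
  · refine Df.all (Df.not (Df.and (Df.Cut _ _ _) (Df.all (Df.imp (Df.Sub _ _)
      (Df.imp (Df.Cut _ _ _) (Df.not ?_))))))
    exact hR.comp (fun z : (BSet B × BSet B) × BSet B => z.2)
  · rintro V hV m c ⟨hmc, hall2⟩
    obtain ⟨h1, h2, h3⟩ := hx' V (heb V hV)
    obtain ⟨c, hc', rfl⟩ := cut_exists V _ m c hmc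
    obtain ⟨x, hxx⟩ := exists_rN V _ h1
    rw [hxx] at hmc h2
    rw [cut_iff V x m c hc', cutV_iff_tr V x m c hc'] at hmc
    rw [cut_iff V x n a ha, cutV_iff_tr V x n a ha] at h2
    subst hmc
    by_cases hmn : n ≤ m
    · have h4 := hall V hV m (tr V x m) hc' hmn (by rw [tr_inter V x hmn, h2])
      rw [hF V m _ hc'] at h4
      obtain ⟨-, z, hz1, hz2, hz3⟩ := h4
      exact hall2 z hz1 hz2 hz3
    · have h4 := hall V hV n a ha le_rfl (Finset.inter_eq_left.2 ha)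
      rw [hF V n _ ha] at h4
      obtain ⟨-, z, hz1, hz2, hz3⟩ := h4
      apply hall2 z hz1 _ hz3
      have := cut_lower V z hz1 (not_le.1 hmn).le a ha hz2
      rwa [h2, tr_inter V x (not_le.1 hmn).le] at this

/-- sets in the ideal E are covered by codes -/
theorem exists_cloE (b : B) {R : ∀ U : Ult B, MU U → Prop}
    (hR : Df (G := BSet B) (fun U x => R U (cl U x)))
    (h : ∀ U : Ult B, b ∈ U.s → NullE (EU U) (cl U (oN B ω)) (R U)) :
    ∃ F : ℕ → CloC B, (∀ n, (F n).Nul) ∧ ∀ U : Ult B, b ∈ U.s → ∀ x : ℕ → B,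
      R U (cl U (rN x)) → (⨆ n, (F n).mem x) ∈ U.s := by
  obtain ⟨r, hr⟩ := exists_name (R := fun U r => (∀ i, EU U i (cl U (oN B ω)) →
      ClosedP (EU U) (cl U (oN B ω)) (Rel (EU U) r i) ∧
      Null (EU U) (cl U (oN B ω)) (Rel (EU U) r i)) ∧
      ∀ x, Sub (EU U) x (cl U (oN B ω)) → R U x → ∃ i, EU U i (cl U (oN B ω)) ∧
        Rel (EU U) r i x)
    (Df.and (Df.all (Df.imp (Df.mem _ _) (Df.and (Df.ClosedP _ (Df.Rel _ _ _))
      (Df.Null _ (Df.Rel _ _ _))))) (Df.all (Df.imp (Df.Sub _ _)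
      (Df.imp (hR.comp (fun z : BSet B × BSet B => z.2))
        (Df.ex (Df.and (Df.mem _ _) (Df.Rel _ _ _))))))) b h
  have h1 := fun i : ℕ => exists_cloC b (R := fun U x => Rel (EU U) (cl U r) (cl U (oN B i)) x)
    (Df.Rel _ _ _)
  choose F hF using h1
  refine ⟨F, fun i => ?_, ?_⟩
  · exact clo_nul (F i) b (R := fun U x => Rel (EU U) (cl U r) (cl U (oN B i)) x)
      (Df.Rel _ _ _) (hF i) (fun U hU => ((hr U hU).1 _ (nat_mem_omega U i)).1)
      (fun U hU => ((hr U hU).1 _ (nat_mem_omega U i)).2)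
  · intro U hU x hx
    by_contra hne
    obtain ⟨i, hi, hix⟩ := (hr U hU).2 _ (rN_sub U x) hx
    refine ball_omega (R := fun U i => ¬ Rel (EU U) (cl U r) i (cl U (rN x)))
      (Df.not (Df.Rel _ _ _)) (b ⊓ (⨆ n, (F n).mem x)ᶜ) ?_ U
      ((U.inf _ _).2 ⟨hU, (U.compl _).2 hne⟩) i hi hix
    intro V hV n hn
    rw [V.inf, V.compl] at hV
    apply hV.2
    refine V.mono (le_iSup _ n) ?_
    exact clo_mem (F n) b (R := fun U x => Rel (EU U) (cl U r) (cl U (oN B n)) x)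
      (Df.Rel _ _ _) (hF n) V hV.1 x hn

/-- meager sets are covered by codes -/
theorem exists_cloM (b : B) {R : ∀ U : Ult B, MU U → Prop}
    (hR : Df (G := BSet B) (fun U x => R U (cl U x)))
    (h : ∀ U : Ult B, b ∈ U.s → Meager (EU U) (cl U (oN B ω)) (R U)) :
    ∃ F : ℕ → CloC B, (∀ n, (F n).Nwd) ∧ ∀ U : Ult B, b ∈ U.s → ∀ x : ℕ → B,
      R U (cl U (rN x)) → (⨆ n, (F n).mem x) ∈ U.s := by
  obtain ⟨r, hr⟩ := exists_name (R := fun U r => (∀ i, EU U i (cl U (oN B ω)) →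
      ClosedP (EU U) (cl U (oN B ω)) (Rel (EU U) r i) ∧
      ∀ n a, EU U n (cl U (oN B ω)) → Sub (EU U) a n →
        ∃ x, Sub (EU U) x (cl U (oN B ω)) ∧ Cut (EU U) x n a ∧ ¬ Rel (EU U) r i x) ∧
      ∀ x, Sub (EU U) x (cl U (oN B ω)) → R U x → ∃ i, EU U i (cl U (oN B ω)) ∧
        Rel (EU U) r i x)
    (Df.and (Df.all (Df.imp (Df.mem _ _) (Df.and (Df.ClosedP _ (Df.Rel _ _ _))
      (Df.all (Df.all (Df.imp (Df.mem _ _) (Df.imp (Df.Sub _ _) (Df.ex (Df.and (Df.Sub _ _)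
      (Df.and (Df.Cut _ _ _) (Df.not (Df.Rel _ _ _)))))))))))) (Df.all (Df.imp (Df.Sub _ _)
      (Df.imp (hR.comp (fun z : BSet B × BSet B => z.2))
        (Df.ex (Df.and (Df.mem _ _) (Df.Rel _ _ _))))))) b h
  have h1 := fun i : ℕ => exists_cloC b (R := fun U x => Rel (EU U) (cl U r) (cl U (oN B i)) x)
    (Df.Rel _ _ _)
  choose F hF using h1
  refine ⟨F, fun i => ?_, ?_⟩
  · exact clo_nwd (F i) b (R := fun U x => Rel (EU U) (cl U r) (cl U (oN B i)) x)
      (Df.Rel _ _ _) (hF i) (fun U hU => ((hr U hU).1 _ (nat_mem_omega U i)).1)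
      (fun U hU => ((hr U hU).1 _ (nat_mem_omega U i)).2)
  · intro U hU x hx
    by_contra hne
    obtain ⟨i, hi, hix⟩ := (hr U hU).2 _ (rN_sub U x) hx
    refine ball_omega (R := fun U i => ¬ Rel (EU U) (cl U r) i (cl U (rN x)))
      (Df.not (Df.Rel _ _ _)) (b ⊓ (⨆ n, (F n).mem x)ᶜ) ?_ U
      ((U.inf _ _).2 ⟨hU, (U.compl _).2 hne⟩) i hi hix
    intro V hV n hn
    rw [V.inf, V.compl] at hV
    apply hV.2
    refine V.mono (le_iSup _ n) ?_
    exact clo_mem (F n) b (R := fun U x => Rel (EU U) (cl U r) (cl U (oN B n)) x)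
      (Df.Rel _ _ _) (hF n) V hV.1 x hn

end CI
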