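import Pool.Agent.CI.T.Real

/-!
# Project CI: names of sets of reals, open sets, branches of Boolean valued trees
-/

set_option autoImplicit false

namespace CI

universe u v

variable {B : Type u} [CompleteBooleanAlgebra B] {G : Type v}

open BSet Ordinal

/-- a property of names of reals which respects equality -/
def RExt (P : (ℕ → B) → B) : Prop := ∀ x y, beq (rN x) (rN y) ⊓ P x ≤ P y

/-- the name of a set of reals -/
noncomputable def setN (P : (ℕ → B) → B) : BSet B := mk (ℕ → B) rN P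

theorem bmem_setN (P : (ℕ → B) → B) (z : BSet B) :
    bmem z (setN P) = ⨆ x : ℕ → B, P x ⊓ beq z (rN x) := rfl

theorem mem_setN {P : (ℕ → B) → B} (hP : RExt P) (U : Ult B) (x : ℕ → B) :
    EU U (cl U (rN x)) (cl U (setN P)) ↔ P x ∈ U.s := by
  rw [EU_cl, bmem_setN]
  have : (⨆ y : ℕ → B, P y ⊓ beq (rN x) (rN y)) = P x := by
    apply le_antisymm
    · refine iSup_le fun y => ?_
      rw [inf_comm, beq_symm]
      exact hP y x
    · refine le_iSup_of_le x ?_
      rw [beq_refl, inf_top_eq]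
  rw [this]

theorem setN_sub (P : (ℕ → B) → B) (U : Ult B) (z : MU U) (hz : EU U z (cl U (setN P))) :
    Sub (EU U) z (cl U (oN B ω)) := by
  obtain ⟨z, rfl⟩ := cl_surj U z
  obtain ⟨Q, hQ⟩ := Df.Sub (B := B) (G := BSet B) (fun z => z) (fun _ => oN B ω)
  refine (hQ U z).2 (U.mono ?_ hz)
  rw [bmem_setN]
  refine iSup_le fun x => ?_
  rw [le_iff_ult]
  intro V hV
  rw [V.inf, ← cl_eq] at hV
  apply (hQ V z).1
  rw [hV.2]
  exact rN_sub V x

theorem setN_cases (P : (ℕ → B) → B) (U : Ult B) (z : MU U) (hz : EU U z (cl U (setN P))) :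
    ∃ x : ℕ → B, z = cl U (rN x) := exists_rN U z (setN_sub P U z hz)

theorem cutV_ext (x y : ℕ → B) (n : ℕ) (a : Finset ℕ) :
    beq (rN x) (rN y) ⊓ cutV x n a ≤ cutV y n a := by
  rw [le_iff_ult]
  intro U hU
  rw [U.inf, ← cl_eq, cutV_mem] at hU
  rw [cutV_mem]
  intro i hi
  rw [hU.2 i hi, ← mem_rN, ← mem_rN, hU.1]

theorem OpnC.rext (O : OpnC B) : RExt O.mem := by
  intro x y
  rw [OpnC.mem, inf_iSup_eq]
  refine iSup_mono fun n => ?_
  rw [inf_iSup_eq]
  refine iSup_mono fun a => ?_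
  rw [inf_iSup_eq]
  refine iSup_mono fun _ => ?_
  refine le_inf (inf_le_right.trans inf_le_left) ?_
  refine le_trans (inf_le_inf_left _ inf_le_right) (cutV_ext x y n a)

theorem CloC.rext (F : CloC B) : RExt F.mem := by
  intro x y
  rw [CloC.mem, CloC.mem]
  refine le_iInf fun n => ?_
  refine (inf_le_inf_left _ (iInf_le _ n)).trans ?_
  rw [inf_iSup_eq]
  refine iSup_mono fun a => ?_
  rw [inf_iSup_eq]
  refine iSup_mono fun _ => ?_
  refine le_inf (inf_le_right.trans inf_le_left) ?_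
  refine le_trans (inf_le_inf_left _ inf_le_right) (cutV_ext x y n a)

/-- trace of a name of a real, in one ultrafilter -/
noncomputable def tr (U : Ult B) (x : ℕ → B) (n : ℕ) : Finset ℕ := by
  classical exact (Finset.range n).filter (fun i => x i ∈ U.s)

theorem tr_sub (U : Ult B) (x : ℕ → B) (n : ℕ) : tr U x n ⊆ Finset.range n := by
  classical exact Finset.filter_subset _ _

theorem cutV_iff_tr (U : Ult B) (x : ℕ → B) (n : ℕ) (a : Finset ℕ) (ha : a ⊆ Finset.range n) :
    cutV x n a ∈ U.s ↔ a = tr U x n := by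
  classical
  rw [cutV_mem]
  constructor
  · intro h
    ext i
    rw [tr, Finset.mem_filter, Finset.mem_range]
    constructor
    · intro hi
      have hin := Finset.mem_range.1 (ha hi)
      exact ⟨hin, (h i hin).1 hi⟩
    · rintro ⟨hin, hx⟩
      exact (h i hin).2 hx
  · rintro rfl i hi
    rw [tr, Finset.mem_filter, Finset.mem_range]
    exact ⟨fun h => h.2, fun h => ⟨hi, h⟩⟩

theorem cutV_tr (U : Ult B) (x : ℕ → B) (n : ℕ) : cutV x n (tr U x n) ∈ U.s :=
  (cutV_iff_tr U x n _ (tr_sub U x n)).2 rfl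

theorem OpnC.mem_of (O : OpnC B) (x : ℕ → B) (n : ℕ) (a : Finset ℕ) (ha : a ⊆ Finset.range n) :
    O.O n a ⊓ cutV x n a ≤ O.mem x :=
  le_iSup_of_le n (le_iSup_of_le a (le_iSup_of_le ha le_rfl))

/-- an open code gives an open set -/
theorem isOpn_setN (O : OpnC B) (U : Ult B) :
    IsOpn (EU U) (cl U (oN B ω)) (cl U (setN O.mem)) := by
  refine ⟨fun z hz => setN_sub _ U z hz, fun z hz => ?_⟩
  obtain ⟨x, rfl⟩ := setN_cases _ U z hz
  rw [mem_setN O.rext] at hz
  have hD : Df (B := B) (G := Unit) (fun U _ => ∃ n a, EU U n (cl U (oN B ω)) ∧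
      Cut (EU U) (cl U (rN x)) n a ∧ CylIn (EU U) (cl U (oN B ω)) n a (cl U (setN O.mem))) :=
    Df.ex (Df.ex (Df.and (Df.mem _ _) (Df.and (Df.Cut _ _ _) (Df.CylIn _ _ _ _))))
  obtain ⟨P, hP⟩ := hD
  refine (hP U ()).2 (U.mono ?_ hz)
  rw [OpnC.mem]
  refine iSup_le fun n => iSup_le fun a => iSup_le fun ha => ?_
  rw [le_iff_ult]
  intro V hV
  rw [V.inf] at hV
  apply (hP V ()).1
  refine ⟨cl V (oN B n), cl V (fN B a), nat_mem_omega V n, (cut_iff V x n a ha).2 hV.2, ?_⟩
  intro y hy hyc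
  obtain ⟨y, rfl⟩ := exists_rN V y hy
  rw [cut_iff V y n a ha] at hyc
  rw [mem_setN O.rext]
  exact V.mono (O.mem_of y n a ha) ((V.inf _ _).2 ⟨hV.1, hyc⟩)

/-- approximations of a branch -/
noncomputable def brX (T : ℕ → Finset ℕ → B) : ℕ → ℕ → B
  | 0 => fun _ => ⊥
  | m + 1 => Function.update (brX T m) m
      (⨆ a : Finset ℕ, ⨆ _ : a ⊆ Finset.range m, cutV (brX T m) m a ⊓ (T (m + 1) a)ᶜ)

/-- the leftmost branch of a Boolean valued tree -/
noncomputable def br (T : ℕ → Finset ℕ → B) : ℕ → B := fun m => brX T (m + 1) m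

theorem brX_eq (T : ℕ → Finset ℕ → B) (m i : ℕ) (h : i < m) : brX T m i = br T i := by
  induction m with
  | zero => exact absurd h (Nat.not_lt_zero i)
  | succ m ih =>
    rcases (Nat.lt_succ_iff.1 h).lt_or_eq with h' | h'
    · rw [brX, Function.update_of_ne h'.ne, ih h']
    · subst h'; rfl

theorem cutV_congr (x y : ℕ → B) (n : ℕ) (a : Finset ℕ) (h : ∀ i < n, x i = y i) :
    cutV x n a = cutV y n a := by
  rw [cutV, cutV]
  refine iInf_congr fun i => ?_
  rw [h i i.2]

/-- the branch stays in the tree -/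
theorem br_spec (T : ℕ → Finset ℕ → B)
    (hT : ∀ n a, a ⊆ Finset.range n → T n a ≤ T (n + 1) a ⊔ T (n + 1) (insert n a))
    (U : Ult B) (h0 : T 0 ∅ ∈ U.s) (m : ℕ) : T m (tr U (br T) m) ∈ U.s := by
  classical
  induction m with
  | zero =>
    have : tr U (br T) 0 = ∅ := by
      rw [← Finset.subset_empty]
      exact tr_sub U (br T) 0
    rw [this]; exact h0
  | succ m ih =>
    have h1 : br T m = ⨆ a : Finset ℕ, ⨆ _ : a ⊆ Finset.range m,
        cutV (br T) m a ⊓ (T (m + 1) a)ᶜ := by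
      rw [br, brX, Function.update_self]
      refine iSup_congr fun a => iSup_congr fun _ => ?_
      rw [cutV_congr _ (br T) m a (fun i hi => brX_eq T m i hi)]
    have h2 : br T m ∈ U.s ↔ (T (m + 1) (tr U (br T) m))ᶜ ∈ U.s := by
      rw [h1]
      constructor
      · intro h
        have h3 : (⨆ a : Finset ℕ, ⨆ _ : a ⊆ Finset.range m,
            cutV (br T) m a ⊓ (T (m + 1) a)ᶜ) =
            (Finset.range m).powerset.sup (fun a => cutV (br T) m a ⊓ (T (m + 1) a)ᶜ) := by
          rw [Finset.sup_eq_iSup]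
          simp only [Finset.mem_powerset]
        rw [h3, U.finset_sup] at h
        obtain ⟨a, ha, h⟩ := h
        rw [U.inf, cutV_iff_tr U _ _ _ (Finset.mem_powerset.1 ha)] at h
        rw [← h.1]; exact h.2
      · intro h
        refine U.mono ?_ ((U.inf _ _).2 ⟨cutV_tr U (br T) m, h⟩)
        exact le_iSup_of_le _ (le_iSup_of_le (tr_sub U (br T) m) le_rfl)
    have h4 := U.mono (hT m _ (tr_sub U (br T) m)) ih
    rw [U.sup] at h4
    by_cases hb : br T m ∈ U.s
    · have h5 : tr U (br T) (m + 1) = insert m (tr U (br T) m) := by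
        ext i
        simp only [tr, Finset.mem_insert, Finset.mem_filter, Finset.mem_range]
        constructor
        · rintro ⟨h6, h7⟩
          rcases (Nat.lt_succ_iff.1 h6).lt_or_eq with h8 | h8
          · exact Or.inr ⟨h8, h7⟩
          · exact Or.inl h8
        · rintro (h6 | ⟨h6, h7⟩)
          · subst h6; exact ⟨Nat.lt_succ_self _, hb⟩
          · exact ⟨h6.trans (Nat.lt_succ_self m), h7⟩
      rw [h5]
      rcases h4 with h4 | h4
      · rw [h2, U.compl] at hb
        exact absurd h4 hb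
      · exact h4
    · have h5 : tr U (br T) (m + 1) = tr U (br T) m := by
        ext i
        simp only [tr, Finset.mem_filter, Finset.mem_range]
        constructor
        · rintro ⟨h6, h7⟩
          rcases (Nat.lt_succ_iff.1 h6).lt_or_eq with h8 | h8
          · exact ⟨h8, h7⟩
          · subst h8; exact absurd h7 hb
        · rintro ⟨h6, h7⟩
          exact ⟨h6.trans (Nat.lt_succ_self m), h7⟩
      rw [h5]
      rw [h2, U.compl, not_not] at hb
      exact hb

end CI
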