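import Pool.Agent.CI.T.Chk

/-!
# Project CI: definable properties with parameters, and ZFC in the two-valued models
-/

set_option autoImplicit false

namespace CI

universe u v

variable {B : Type u} [CompleteBooleanAlgebra B]

open BSet Ordinal

/-- `P'` is a property of the elements of the two-valued models with truth values in `B`; the
parameters are in the type `G` -/
def Df {G : Type v} (P' : ∀ _ : Ult B, G → Prop) : Prop :=
  ∃ P : G → B, ∀ U g, P' U g ↔ P g ∈ U.s

namespace Df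

variable {G : Type v}

theorem mem (f g : G → BSet B) : Df (fun U x => EU U (cl U (f x)) (cl U (g x))) :=
  ⟨fun x => bmem (f x) (g x), fun _ _ => EU_cl⟩

theorem eq (f g : G → BSet B) : Df (fun U x => cl U (f x) = cl U (g x)) :=
  ⟨fun x => beq (f x) (g x), fun _ _ => cl_eq⟩

theorem val (f : G → B) : Df (fun U x => f x ∈ U.s) := ⟨f, fun _ _ => Iff.rfl⟩

theorem const (p : Prop) : Df (fun (_ : Ult B) (_ : G) => p) := by
  classical
  refine ⟨fun _ => if p then ⊤ else ⊥, fun U _ => ?_⟩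
  by_cases h : p
  · simp [h, U.top]
  · simp [h, U.bot]

variable {P' Q' : ∀ _ : Ult B, G → Prop}

theorem and (h : Df P') (h' : Df Q') : Df (fun U x => P' U x ∧ Q' U x) := by
  obtain ⟨P, hP⟩ := h
  obtain ⟨Q, hQ⟩ := h'
  exact ⟨fun x => P x ⊓ Q x, fun U x => by beta_reduce; rw [hP, hQ, U.inf]⟩

theorem or (h : Df P') (h' : Df Q') : Df (fun U x => P' U x ∨ Q' U x) := by
  obtain ⟨P, hP⟩ := h
  obtain ⟨Q, hQ⟩ := h'
  exact ⟨fun x => P x ⊔ Q x, fun U x => by beta_reduce; rw [hP, hQ, U.sup]⟩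

theorem imp (h : Df P') (h' : Df Q') : Df (fun U x => P' U x → Q' U x) := by
  obtain ⟨P, hP⟩ := h
  obtain ⟨Q, hQ⟩ := h'
  exact ⟨fun x => P x ⇨ Q x, fun U x => by beta_reduce; rw [hP, hQ, U.himp]⟩

theorem not (h : Df P') : Df (fun U x => ¬ P' U x) := by
  obtain ⟨P, hP⟩ := h
  exact ⟨fun x => (P x)ᶜ, fun U x => by beta_reduce; rw [hP, U.compl]⟩

theorem iff (h : Df P') (h' : Df Q') : Df (fun U x => P' U x ↔ Q' U x) := by
  obtain ⟨P, hP⟩ := h
  obtain ⟨Q, hQ⟩ := h'
  refine ⟨fun x => (P x ⇨ Q x) ⊓ (Q x ⇨ P x), fun U x => ?_⟩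
  beta_reduce
  rw [hP, hQ, U.inf, U.himp, U.himp]
  exact iff_def

theorem ex {R : ∀ U : Ult B, G → MU U → Prop}
    (h : Df (G := G × BSet B) (fun U x => R U x.1 (cl U x.2))) :
    Df (fun U x => ∃ y, R U x y) := by
  obtain ⟨P, hP⟩ := h
  refine ⟨fun x => ⨆ y, P (x, y), fun U x => ?_⟩
  exact Los.ex (P := fun y => P (x, y)) (P' := fun U y => R U x y) (fun U y => hP U (x, y)) U

theorem all {R : ∀ U : Ult B, G → MU U → Prop}
    (h : Df (G := G × BSet B) (fun U x => R U x.1 (cl U x.2))) :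
    Df (fun U x => ∀ y, R U x y) := by
  obtain ⟨P, hP⟩ := h
  refine ⟨fun x => ⨅ y, P (x, y), fun U x => ?_⟩
  exact Los.all (P := fun y => P (x, y)) (P' := fun U y => R U x y) (fun U y => hP U (x, y)) U

/-- substitution -/
theorem comp {H : Type*} {R : ∀ _ : Ult B, H → Prop} (h : Df R) (f : G → H) :
    Df (fun U x => R U (f x)) := by
  obtain ⟨P, hP⟩ := h
  exact ⟨fun x => P (f x), fun U x => hP U (f x)⟩

theorem los1 {R : ∀ U : Ult B, MU U → Prop} (h : Df (G := BSet B) (fun U x => R U (cl U x))) :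
    ∃ P, Los P R := h

end Df

/-- bounded quantifiers over a ground model ordinal -/
theorem ball_oN {R : ∀ U : Ult B, MU U → Prop} (h : Df (G := BSet B) (fun U x => R U (cl U x)))
    (o : Ordinal.{u}) (b : B) (hb : ∀ U : Ult B, b ∈ U.s → ∀ a, a < o → R U (cl U (oN B a)))
    (U : Ult B) (hU : b ∈ U.s) (x : MU U) (hx : EU U x (cl U (oN B o))) : R U x := by
  obtain ⟨P, hP⟩ := h
  exact Los.ball_oN (P := P) (P' := R) hP o b hb U hU x hx

/-- the two-valued models satisfy ZFC -/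
theorem zfc (U : Ult B) : ZFC (EU U) where
  ext := EU_ext U
  found := EU_found U
  pair := by
    intro x y
    obtain ⟨u, rfl⟩ := cl_surj U x
    obtain ⟨v, rfl⟩ := cl_surj U y
    exact ⟨cl U (pairN u v), EU_pairN U u v⟩
  union := EU_union U
  power := by
    intro x
    obtain ⟨u, rfl⟩ := cl_surj U x
    exact ⟨cl U (powN u), EU_powN U u⟩
  inf := by
    refine ⟨cl U (oN B ω), ⟨cl U (oN B 0), (EU_oN U _ _).2 omega0_pos, EU_zero U⟩, ?_⟩
    intro y hy
    refine ball_oN (R := fun U y => ∃ s, EU U s (cl U (oN B ω)) ∧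
      ∀ z, EU U z s ↔ EU U z y ∨ z = y) ?_ ω ⊤ ?_ U U.top y hy
    · apply Df.ex
      apply Df.and
      · exact Df.mem _ _
      · apply Df.all
        apply Df.iff
        · exact Df.mem _ _
        · apply Df.or
          · exact Df.mem _ _
          · exact Df.eq _ _
    · intro U _ a ha
      exact ⟨cl U (oN B (Order.succ a)),
        (EU_oN U _ _).2 (isSuccLimit_omega0.succ_lt ha), EU_succ U a⟩
  sep := EU_sep U
  repl := EU_repl U
  choice := EU_choice U

end CI
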