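import Pool.Agent.CI.T.Fun

/-!
# Project CI: families indexed by ground model ordinals, the first uncountable ordinal
-/

set_option autoImplicit false

namespace CI

universe u v

variable {B : Type u} [CompleteBooleanAlgebra B] {G : Type v}

open BSet Ordinal Cardinal

/-- the names of the elements of an ordinal -/
noncomputable def eN (B : Type u) [CompleteBooleanAlgebra B] (o : Ordinal.{u}) (a : o.ToType) :
    BSet B := oN B (ToType.toOrd a).1

theorem eN_ne (o : Ordinal.{u}) (a b : o.ToType) (h : a ≠ b) :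
    beq (eN B o a) (eN B o b) = ⊥ := by
  apply beq_oN_ne
  intro h'
  apply h
  exact (ToType.mk (o := o)).symm.injective (Subtype.ext h')

theorem eN_mk (o : Ordinal.{u}) (a : Ordinal.{u}) (h : a < o) :
    eN B o (ToType.mk ⟨a, h⟩) = oN B a := by
  rw [eN]
  simp

theorem eN_mem (U : Ult B) (o : Ordinal.{u}) (a : o.ToType) :
    EU U (cl U (eN B o a)) (cl U (oN B o)) := (EU_oN U _ _).2 (ToType.toOrd a).2

/-- bounded quantifiers, indexed form -/
theorem ball_eN {R : ∀ U : Ult B, MU U → Prop}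
    (h : Df (G := BSet B) (fun U x => R U (cl U x))) (o : Ordinal.{u}) (b : B)
    (hb : ∀ U : Ult B, b ∈ U.s → ∀ a : o.ToType, R U (cl U (eN B o a)))
    (U : Ult B) (hU : b ∈ U.s) (x : MU U) (hx : EU U x (cl U (oN B o))) : R U x := by
  refine ball_oN h o b ?_ U hU x hx
  intro U hU a ha
  rw [← eN_mk o a ha]
  exact hb U hU _

/-- the name of a function with domain `o` -/
noncomputable def fnN (o : Ordinal.{u}) (v : o.ToType → BSet B) : BSet B :=
  relN (I := o.ToType) (fun _ => ⊤) (eN B o) v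

theorem rel_fnN (o : Ordinal.{u}) (v : o.ToType → BSet B) (U : Ult B) (a : o.ToType) (y : MU U) :
    Rel (EU U) (cl U (fnN o v)) (cl U (eN B o a)) y ↔ y = cl U (v a) := by
  obtain ⟨y, rfl⟩ := cl_surj U y
  rw [fnN, rel_relN, cl_eq]
  have : (⨆ i : o.ToType, (⊤ : B) ⊓ (beq (eN B o a) (eN B o i) ⊓ beq y (v i))) =
      beq y (v a) := by
    apply le_antisymm
    · refine iSup_le fun i => ?_
      by_cases h : a = i
      · subst h
        exact inf_le_right.trans inf_le_right
      · rw [eN_ne o a i h]; simp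
    · refine le_iSup_of_le a ?_
      rw [beq_refl]; simp
  rw [this]

theorem isFn_fnN (o : Ordinal.{u}) (v : o.ToType → BSet B) (U : Ult B) :
    IsFn (EU U) (cl U (fnN o v)) (cl U (oN B o)) := by
  constructor
  · intro p hp
    obtain ⟨s, t, rfl, h⟩ := mem_relN U _ _ _ p hp
    refine ⟨cl U s, cl U t, ?_, isPair_opN U s t⟩
    rw [EU_cl]
    refine U.mono ?_ h
    refine iSup_le fun i => ?_
    rw [le_iff_ult]
    intro V hV
    rw [V.inf, V.inf, ← cl_eq] at hV
    rw [← EU_cl, hV.2.1]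
    exact eN_mem V o i
  · intro x hx
    refine ball_eN (R := fun U x => ∃! y, Rel (EU U) (cl U (fnN o v)) x y)
      (Df.exu (Df.Rel _ _ _)) o ⊤ ?_ U U.top x hx
    intro U _ a
    exact ⟨cl U (v a), (rel_fnN o v U a _).2 rfl, fun y hy => (rel_fnN o v U a y).1 hy⟩

/-- domain of a function -/
theorem IsFn.dom {M : Type*} {E : M → M → Prop} (hE : ZFC E) {f a x y : M} (hf : IsFn E f a)
    (h : Rel E f x y) : E x a := by
  obtain ⟨p, hp, hpf⟩ := h
  obtain ⟨x', y', hx', hp'⟩ := hf.1 p hpf
  rw [(hp.inj hE hp').1]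
  exact hx'

/-- a property of the values of a function with domain `o`, which holds at the standard
arguments -/
theorem fn_ball {R : ∀ U : Ult B, MU U → Prop}
    (h : Df (G := BSet B) (fun U x => R U (cl U x))) (o : Ordinal.{u}) (b : B) (f : BSet B)
    (hf : ∀ U : Ult B, b ∈ U.s → IsFn (EU U) (cl U f) (cl U (oN B o)))
    (hb : ∀ U : Ult B, b ∈ U.s → ∀ (a : o.ToType) (y : MU U),
      Rel (EU U) (cl U f) (cl U (eN B o a)) y → R U y)
    (U : Ult B) (hU : b ∈ U.s) (x y : MU U) (hx : Rel (EU U) (cl U f) x y) : R U y := by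
  refine ball_eN (R := fun U x => ∀ y, Rel (EU U) (cl U f) x y → R U y) ?_ o b ?_ U hU x
    ((hf U hU).dom (zfc U) hx) y hx
  · refine Df.all (Df.imp (Df.Rel _ _ _) ?_)
    exact h.comp (fun z : BSet B × BSet B => z.2)
  · intro U hU a y hy
    exact hb U hU a y hy

/-- names of the values -/
theorem exists_val (o : Ordinal.{u}) (b : B) (f : BSet B)
    (hf : ∀ U : Ult B, b ∈ U.s → IsFn (EU U) (cl U f) (cl U (oN B o))) (a : o.ToType) :
    ∃ y : BSet B, ∀ U : Ult B, b ∈ U.s → ∀ z : MU U,
      Rel (EU U) (cl U f) (cl U (eN B o a)) z ↔ z = cl U y := by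
  obtain ⟨y, hy⟩ := exists_name (R := fun U y => Rel (EU U) (cl U f) (cl U (eN B o a)) y)
    (Df.Rel _ _ _) b (fun U hU => ((hf U hU).2 _ (eN_mem U o a)).exists)
  refine ⟨y, fun U hU z => ?_⟩
  constructor
  · intro hz
    exact ((hf U hU).2 _ (eN_mem U o a)).unique hz (hy U hU)
  · rintro rfl
    exact hy U hU

theorem rN_of (y : BSet B) (U : Ult B) (h : Sub (EU U) (cl U y) (cl U (oN B ω))) :
    cl U y = cl U (rN fun n : ℕ => bmem (oN B n) y) := by
  apply EU_ext
  intro z
  have key : ∀ z, EU U z (cl U (oN B ω)) → (EU U z (cl U y) ↔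
      EU U z (cl U (rN fun n : ℕ => bmem (oN B n) y))) := by
    intro z hz
    refine ball_omega (R := fun U z => (EU U z (cl U y) ↔
      EU U z (cl U (rN fun n : ℕ => bmem (oN B n) y)))) (Df.iff (Df.mem _ _) (Df.mem _ _))
      ⊤ ?_ U U.top z hz
    intro U _ n
    rw [mem_rN]
    exact EU_cl
  constructor
  · intro hz
    exact (key z (h z hz)).1 hz
  · intro hz
    exact (key z (rN_sub U _ z hz)).2 hz

/-- the first uncountable ordinal -/
theorem aleph1 (hc : Ccc B) (U : Ult B) :
    IsAleph1 (EU U) (cl U (oN B ω)) (cl U (oN B (ℵ₁ : Cardinal.{u}).ord)) := by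
  set κ := (ℵ₁ : Cardinal.{u}).ord with hκ
  refine leastOrd_oN (R := fun U j => ¬ ∃ f, IsMap (EU U) f j (cl U (oN B ω)) ∧
    ∀ x y z, Rel (EU U) f x z → Rel (EU U) f y z → x = y) ?_ κ ?_ ?_ U
  · exact Df.not (Df.ex (Df.and (Df.IsMap _ _ _) (Df.all (Df.all (Df.all (Df.imp (Df.Rel _ _ _)
      (Df.imp (Df.Rel _ _ _) (Df.eq _ _))))))))
  · rintro U ⟨f, hf1, hf2⟩
    obtain ⟨f, rfl⟩ := cl_surj U f
    obtain ⟨b, hb⟩ := Df.get (B := B) (P' := fun U => IsMap (EU U) (cl U f) (cl U (oN B κ))
      (cl U (oN B ω)) ∧ ∀ x y z, Rel (EU U) (cl U f) x z → Rel (EU U) (cl U f) y z → x = y)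
      (Df.and (Df.IsMap _ _ _) (Df.all (Df.all (Df.all (Df.imp (Df.Rel _ _ _)
      (Df.imp (Df.Rel _ _ _) (Df.eq _ _)))))))
    have hbU := (hb U).1 ⟨hf1, hf2⟩
    have h1 : ∀ (a : κ.ToType) (n : ℕ), ∃ P : B, ∀ U : Ult B, (b ∈ U.s ∧
        Rel (EU U) (cl U f) (cl U (eN B κ a)) (cl U (oN B n))) ↔ P ∈ U.s := by
      intro a n
      apply Df.get
      exact Df.and (Df.val (fun _ => b)) (Df.Rel _ _ _)
    choose P hP using h1
    -- some value is possible
    have h2 : ∀ a : κ.ToType, ∃ n, P a n ≠ ⊥ := by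
      intro a
      by_contra hcon
      push Not at hcon
      obtain ⟨y, hy, -⟩ := hf1.1.2 _ (eN_mem U κ a)
      have hyo := hf1.2 _ _ hy
      refine ball_omega (R := fun U y => ¬ Rel (EU U) (cl U f) (cl U (eN B κ a)) y)
        (Df.not (Df.Rel _ _ _)) b ?_ U hbU y hyo hy
      intro V hV n hn
      have := (hP a n V).1 ⟨hV, hn⟩
      rw [hcon n] at this
      exact V.bot this
    choose n hn using h2
    -- uncountably many arguments with the same value
    have huncount : ¬ (Set.univ : Set κ.ToType).Countable := by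
      intro h
      rw [Set.countable_univ_iff] at h
      have h3 : #κ.ToType ≤ ℵ₀ := Cardinal.mk_le_aleph0_iff.2 h
      rw [hκ, Cardinal.mk_ord_toType] at h3
      exact absurd h3 (not_le.2 Cardinal.aleph0_lt_aleph_one)
    have h4 : ∃ m : ℕ, ¬ {a : κ.ToType | n a = m}.Countable := by
      by_contra hcon
      push Not at hcon
      apply huncount
      have : (Set.univ : Set κ.ToType) = ⋃ m : ℕ, {a : κ.ToType | n a = m} := by
        ext a; simp
      rw [this]
      exact Set.countable_iUnion hcon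
    obtain ⟨m, hm⟩ := h4
    apply hm
    -- the values are disjoint
    have hdis : ∀ a a' : κ.ToType, a ≠ a' → P a m ⊓ P a' m = ⊥ := by
      intro a a' hne
      by_contra hbot
      obtain ⟨V, hV⟩ := exists_ult hbot
      rw [V.inf, ← hP, ← hP] at hV
      obtain ⟨⟨hVb, h5⟩, -, h6⟩ := hV
      have h7 := ((hb V).2 hVb).2 _ _ _ h5 h6
      rw [cl_eq, eN_ne κ a a' hne] at h7
      exact V.bot h7
    have hinj : Set.InjOn (fun a => P a m) {a : κ.ToType | n a = m} := by
      intro a ha a' ha' heq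
      by_contra hne
      have h8 := hdis a a' hne
      change P a m = P a' m at heq
      rw [← heq, inf_idem] at h8
      have ha2 : n a = m := ha
      have h9 := hn a
      rw [ha2] at h9
      exact h9 h8
    have hcount : ((fun a => P a m) '' {a : κ.ToType | n a = m}).Countable := by
      apply hc
      · rintro _ ⟨a, ha, rfl⟩
        have ha2 : n a = m := ha
        have h9 := hn a
        rw [ha2] at h9
        exact h9
      · rintro _ ⟨a, ha, rfl⟩ _ ⟨a', ha', rfl⟩ hne
        apply hdis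
        rintro rfl
        exact hne rfl
    exact Set.countable_of_injective_of_countable_image hinj hcount
  · intro U a ha
    rw [not_not]
    -- a countable ordinal
    have h1 : #a.ToType ≤ ℵ₀ := by
      rw [Cardinal.mk_toType]
      have h2 : a.card < ℵ₁ := Cardinal.lt_ord.1 ha
      exact Cardinal.lt_aleph_one_iff.1 h2
    have h2 : Countable a.ToType := Cardinal.mk_le_aleph0_iff.1 h1
    obtain ⟨g, hg⟩ := h2.exists_injective_nat
    refine ⟨cl U (fnN a (fun i => oN B (g i : ℕ))), ⟨isFn_fnN a _ U, ?_⟩, ?_⟩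
    · intro x y hxy
      refine fn_ball (R := fun U y => EU U y (cl U (oN B ω))) (Df.mem _ _) a ⊤ _
        (fun U _ => isFn_fnN a _ U) ?_ U U.top x y hxy
      intro U _ i y hy
      rw [rel_fnN] at hy
      rw [hy]
      exact nat_mem_omega U _
    · intro x y z hx hy
      have hxd := (isFn_fnN a (fun i => oN B (g i : ℕ)) U).dom (zfc U) hx
      have hyd := (isFn_fnN a (fun i => oN B (g i : ℕ)) U).dom (zfc U) hy
      refine ball_eN (R := fun U x => ∀ y z, EU U y (cl U (oN B a)) →
        Rel (EU U) (cl U (fnN a (fun i => oN B (g i : ℕ)))) x z →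
        Rel (EU U) (cl U (fnN a (fun i => oN B (g i : ℕ)))) y z → x = y) ?_ a ⊤ ?_ U U.top x hxd
        y z hyd hx hy
      · exact Df.all (Df.all (Df.imp (Df.mem _ _) (Df.imp (Df.Rel _ _ _)
          (Df.imp (Df.Rel _ _ _) (Df.eq _ _)))))
      · intro U _ i y z hyd hx hy
        refine ball_eN (R := fun U y => ∀ z,
          Rel (EU U) (cl U (fnN a (fun i => oN B (g i : ℕ)))) (cl U (eN B a i)) z →
          Rel (EU U) (cl U (fnN a (fun i => oN B (g i : ℕ)))) y z → cl U (eN B a i) = y) ?_ a ⊤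
          ?_ U U.top y hyd z hx hy
        · exact Df.all (Df.imp (Df.Rel _ _ _) (Df.imp (Df.Rel _ _ _) (Df.eq _ _)))
        · intro U _ j z hx hy
          rw [rel_fnN] at hx hy
          rw [hx, nat_inj] at hy
          rw [hg hy]

end CI
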