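import Pool.Agent.CI.T.Base

/-!
# Project CI: mixing of names and the maximum principle
-/

set_option autoImplicit false

namespace CI

universe u

namespace BSet

variable {B : Type u} [CompleteBooleanAlgebra B]

/-- the mixture of the names `x i` with respect to the family `b` -/
def mix {I : Type u} (b : I → B) (x : I → BSet B) : BSet B :=
  mk (Σ i, (x i).Ty) (fun p => (x p.1).el p.2) (fun p => b p.1 ⊓ (x p.1).tv p.2)

theorem mix_spec {I : Type u} (b : I → B) (x : I → BSet B)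
    (h : ∀ i j, i ≠ j → b i ⊓ b j = ⊥) (i : I) : b i ≤ beq (mix b x) (x i) := by
  apply le_beq_of
  · intro w
    rw [bmem, inf_iSup_eq]
    refine iSup_le fun p => ?_
    obtain ⟨j, a⟩ := p
    by_cases hij : i = j
    · subst hij
      change b i ⊓ ((b i ⊓ (x i).tv a) ⊓ beq w ((x i).el a)) ≤ _
      refine le_iSup_of_le a ?_
      refine inf_le_right.trans ?_
      exact inf_le_inf_right _ inf_le_right
    · change b i ⊓ ((b j ⊓ (x j).tv a) ⊓ beq w ((x j).el a)) ≤ _
      have : b i ⊓ ((b j ⊓ (x j).tv a) ⊓ beq w ((x j).el a)) ≤ b i ⊓ b j := by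
        refine inf_le_inf_left _ ?_
        exact inf_le_left.trans inf_le_left
      rw [h i j hij] at this
      exact this.trans bot_le
  · intro w
    rw [bmem, inf_iSup_eq]
    refine iSup_le fun a => ?_
    refine le_iSup_of_le (⟨i, a⟩ : Σ i, (x i).Ty) ?_
    change b i ⊓ ((x i).tv a ⊓ beq w ((x i).el a)) ≤ (b i ⊓ (x i).tv a) ⊓ beq w ((x i).el a)
    rw [inf_assoc]

/-- mixing of two names -/
theorem exists_mix2 (b : B) (x y : BSet B) : ∃ z : BSet B, b ≤ beq z x ∧ bᶜ ≤ beq z y := by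
  let f : ULift.{u} Bool → B := fun i => if i.down then b else bᶜ
  let g : ULift.{u} Bool → BSet B := fun i => if i.down then x else y
  have h : ∀ i j, i ≠ j → f i ⊓ f j = ⊥ := by
    rintro ⟨i⟩ ⟨j⟩ hij
    cases i <;> cases j <;> simp_all [f]
  refine ⟨mix f g, ?_, ?_⟩
  · exact mix_spec f g h ⟨true⟩
  · exact mix_spec f g h ⟨false⟩

/-- the supremum over a small family of truth values is attained by a disjoint family -/
theorem exists_disj {I : Type u} (b : I → B) : ∃ c : I → B, (∀ i, c i ≤ b i) ∧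
    (∀ i j, i ≠ j → c i ⊓ c j = ⊥) ∧ ⨆ i, c i = ⨆ i, b i := by
  classical
  obtain ⟨r, hr⟩ : ∃ r : I → I → Prop, IsWellOrder I r := ⟨WellOrderingRel, inferInstance⟩
  refine ⟨fun i => b i ⊓ (⨆ j, ⨆ _ : r j i, b j)ᶜ, fun i => inf_le_left, ?_, ?_⟩
  · have key : ∀ i j, r i j → (b i ⊓ (⨆ k, ⨆ _ : r k i, b k)ᶜ) ⊓
        (b j ⊓ (⨆ k, ⨆ _ : r k j, b k)ᶜ) = ⊥ := by
      intro i j hij
      rw [eq_bot_iff]
      have h1 : b i ≤ ⨆ k, ⨆ _ : r k j, b k := le_iSup₂_of_le i hij le_rfl
      calc _ ≤ b i ⊓ (⨆ k, ⨆ _ : r k j, b k)ᶜ :=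
            inf_le_inf inf_le_left inf_le_right
        _ ≤ (⨆ k, ⨆ _ : r k j, b k) ⊓ (⨆ k, ⨆ _ : r k j, b k)ᶜ := inf_le_inf_right _ h1
        _ = ⊥ := inf_compl_eq_bot
    intro i j hij
    rcases trichotomous_of r i j with h | h | h
    · exact key i j h
    · exact absurd h hij
    · rw [inf_comm]; exact key j i h
  · apply le_antisymm
    · exact iSup_mono fun i => inf_le_left
    · refine iSup_le fun i => ?_
      induction i using hr.toIsWellFounded.wf.induction with
      | _ i ih =>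
        have h1 : (⨆ j, ⨆ _ : r j i, b j) ≤ ⨆ i, b i ⊓ (⨆ j, ⨆ _ : r j i, b j)ᶜ :=
          iSup₂_le fun j hj => ih j hj
        calc b i = (b i ⊓ (⨆ j, ⨆ _ : r j i, b j)) ⊔ (b i ⊓ (⨆ j, ⨆ _ : r j i, b j)ᶜ) := by
              rw [← inf_sup_left, sup_compl_eq_top, inf_top_eq]
          _ ≤ _ := by
              refine sup_le (inf_le_right.trans h1) ?_
              exact le_iSup (fun i => b i ⊓ (⨆ j, ⨆ _ : r j i, b j)ᶜ) i

/-- the maximum principle -/
theorem exists_max {P : BSet B → B} (hP : Ext P) : ∃ u, P u = ⨆ v, P v := by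
  classical
  -- a small family of names which represents all values
  let I : Type u := Set.range P
  have hI : ∀ i : I, ∃ v, P v = i.1 := fun i => i.2
  choose x hx using hI
  obtain ⟨c, hc1, hc2, hc3⟩ := exists_disj (fun i : I => (i.1 : B))
  refine ⟨mix c x, le_antisymm (le_iSup P _) ?_⟩
  have h1 : ⨆ v, P v ≤ ⨆ i : I, (i.1 : B) := by
    refine iSup_le fun v => ?_
    exact le_iSup (fun i : I => (i.1 : B)) ⟨P v, ⟨v, rfl⟩⟩
  refine h1.trans ?_
  rw [← hc3]
  refine iSup_le fun i => ?_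
  have h2 := mix_spec c x hc2 i
  calc c i ≤ beq (mix c x) (x i) ⊓ P (x i) := le_inf h2 (by rw [hx i]; exact hc1 i)
    _ = beq (x i) (mix c x) ⊓ P (x i) := by rw [beq_symm]
    _ ≤ P (mix c x) := hP _ _

end BSet

/-! ### ultrafilters -/

/-- an ultrafilter on `B` -/
structure Ult (B : Type u) [CompleteBooleanAlgebra B] where
  s : Set B
  top : ⊤ ∈ s
  inf : ∀ a b, a ⊓ b ∈ s ↔ a ∈ s ∧ b ∈ s
  compl : ∀ a, aᶜ ∈ s ↔ a ∉ s

namespace Ult

variable {B : Type u} [CompleteBooleanAlgebra B] (U : Ult B)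

theorem mono {a b : B} (h : a ≤ b) (ha : a ∈ U.s) : b ∈ U.s := by
  have : a ⊓ b ∈ U.s := by rwa [inf_eq_left.2 h]
  exact ((U.inf a b).1 this).2

theorem bot : (⊥ : B) ∉ U.s := by
  have := U.compl ⊥
  rw [compl_bot] at this
  exact this.1 U.top

theorem sup (a b : B) : a ⊔ b ∈ U.s ↔ a ∈ U.s ∨ b ∈ U.s := by
  have h : a ⊔ b = (aᶜ ⊓ bᶜ)ᶜ := by rw [compl_inf, compl_compl, compl_compl]
  rw [h, U.compl, U.inf, U.compl, U.compl]
  tauto

theorem himp (a b : B) : a ⇨ b ∈ U.s ↔ (a ∈ U.s → b ∈ U.s) := by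
  rw [himp_eq, U.sup, U.compl]
  tauto

end Ult

theorem exists_ult {B : Type u} [CompleteBooleanAlgebra B] {a : B} (ha : a ≠ ⊥) :
    ∃ U : Ult B, a ∈ U.s := by
  classical
  have hd : Disjoint ((Order.PFilter.principal a : Order.PFilter B) : Set B)
      ((Order.Ideal.principal ⊥ : Order.Ideal B) : Set B) := by
    rw [Set.disjoint_left]
    intro x hx hx'
    have h1 : a ≤ x := by simpa using hx
    have h2 : x ≤ ⊥ := Order.Ideal.mem_principal.1 hx'
    exact ha (le_bot_iff.1 (h1.trans h2))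
  obtain ⟨J, hJ, -, hJd⟩ := DistribLattice.prime_ideal_of_disjoint_filter_ideal hd
  have htop : ⊤ ∉ J := fun h => hJ.toIsProper.ne_top (by
    ext x
    exact ⟨fun _ => trivial, fun _ => J.lower le_top h⟩)
  have hinf : ∀ x y : B, x ⊓ y ∈ J → x ∈ J ∨ y ∈ J := fun x y h => hJ.mem_or_mem h
  refine ⟨⟨{x | x ∉ J}, htop, ?_, ?_⟩, ?_⟩
  · intro x y
    simp only [Set.mem_ofPred_eq]
    constructor
    · intro h
      exact ⟨fun h' => h (J.lower inf_le_left h'), fun h' => h (J.lower inf_le_right h')⟩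
    · rintro ⟨h1, h2⟩ h
      rcases hinf x y h with h | h
      · exact h1 h
      · exact h2 h
  · intro x
    simp only [Set.mem_ofPred_eq, not_not]
    constructor
    · intro h
      have : x ⊓ xᶜ ∈ J := by rw [inf_compl_eq_bot]; exact J.bot_mem
      rcases hinf _ _ this with h' | h'
      · exact h'
      · exact absurd h' h
    · intro h h'
      apply htop
      have := J.sup_mem h h'
      rwa [sup_compl_eq_top] at this
  · intro h
    have h1 : a ∈ ((Order.PFilter.principal a : Order.PFilter B) : Set B) := by simp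
    exact Set.disjoint_left.1 hJd h1 h

theorem le_iff_ult {B : Type u} [CompleteBooleanAlgebra B] {a b : B} :
    a ≤ b ↔ ∀ U : Ult B, a ∈ U.s → b ∈ U.s := by
  constructor
  · intro h U ha
    exact U.mono h ha
  · intro h
    by_contra hab
    have h1 : a ⊓ bᶜ ≠ ⊥ := by
      intro h2
      apply hab
      rwa [← disjoint_iff, disjoint_compl_right_iff] at h2
    obtain ⟨U, hU⟩ := exists_ult h1
    rw [U.inf, U.compl] at hU
    exact hU.2 (h U hU.1)

theorem eq_top_iff_ult {B : Type u} [CompleteBooleanAlgebra B] {a : B} :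
    a = ⊤ ↔ ∀ U : Ult B, a ∈ U.s := by
  rw [← top_le_iff, le_iff_ult]
  constructor
  · intro h U; exact h U U.top
  · intro h U _; exact h U

end CI
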