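import Pool.Agent.CI.T.Clo2

/-!
# Project CI: functions from `ω` to `ω` and eventual domination
-/

set_option autoImplicit false

namespace CI

universe u v

variable {B : Type u} [CompleteBooleanAlgebra B] {G : Type v}

open BSet Ordinal

/-- the name of a function from `ω` to `ω` -/
noncomputable def fuN (f : Fu B) : BSet B :=
  relN (I := ULift.{u} (ℕ × ℕ)) (fun p => f.f p.down.1 p.down.2) (fun p => oN B p.down.1)
    (fun p => oN B p.down.2)

theorem beq_nat_ne {m n : ℕ} (h : m ≠ n) : beq (oN B m) (oN B n) = ⊥ :=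
  beq_oN_ne (by rwa [Ne, Nat.cast_inj])

theorem rel_fuN' (f : Fu B) (U : Ult B) (n : ℕ) (y : BSet B) :
    Rel (EU U) (cl U (fuN f)) (cl U (oN B n)) (cl U y) ↔
      (⨆ k, f.f n k ⊓ beq y (oN B k)) ∈ U.s := by
  rw [fuN, rel_relN]
  have : (⨆ p : ULift.{u} (ℕ × ℕ), f.f p.down.1 p.down.2 ⊓
      (beq (oN B n) (oN B p.down.1) ⊓ beq y (oN B p.down.2))) =
      ⨆ k, f.f n k ⊓ beq y (oN B k) := by
    apply le_antisymm
    · refine iSup_le fun p => ?_
      obtain ⟨m, k⟩ := p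
      change f.f m k ⊓ (beq (oN B n) (oN B m) ⊓ beq y (oN B k)) ≤ _
      by_cases h : n = m
      · subst h
        refine le_iSup_of_le k ?_
        exact inf_le_inf_left _ inf_le_right
      · rw [beq_nat_ne h]; simp
    · refine iSup_le fun k => ?_
      refine le_iSup_of_le ⟨(n, k)⟩ ?_
      change f.f n k ⊓ beq y (oN B k) ≤ f.f n k ⊓ (beq (oN B n) (oN B n) ⊓ beq y (oN B k))
      rw [beq_refl, top_inf_eq]
  rw [this]

theorem rel_fuN (f : Fu B) (U : Ult B) (n k : ℕ) :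
    Rel (EU U) (cl U (fuN f)) (cl U (oN B n)) (cl U (oN B k)) ↔ f.f n k ∈ U.s := by
  rw [rel_fuN']
  have : (⨆ j, f.f n j ⊓ beq (oN B k) (oN B j)) = f.f n k := by
    apply le_antisymm
    · refine iSup_le fun j => ?_
      by_cases h : k = j
      · subst h; exact inf_le_left
      · rw [beq_nat_ne h]; simp
    · refine le_iSup_of_le k ?_
      rw [beq_refl, inf_top_eq]
  rw [this]

theorem isMap_fuN (f : Fu B) (U : Ult B) :
    IsMap (EU U) (cl U (fuN f)) (cl U (oN B ω)) (cl U (oN B ω)) := by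
  have hval : ∀ (U : Ult B) (s t : BSet B), (⨆ p : ULift.{u} (ℕ × ℕ),
      f.f p.down.1 p.down.2 ⊓ (beq s (oN B p.down.1) ⊓ beq t (oN B p.down.2))) ∈ U.s →
      EU U (cl U s) (cl U (oN B ω)) ∧ EU U (cl U t) (cl U (oN B ω)) := by
    intro U s t h
    rw [EU_cl, EU_cl, ← U.inf]
    refine U.mono ?_ h
    refine iSup_le fun p => ?_
    rw [le_iff_ult]
    intro V hV
    rw [V.inf, V.inf, ← cl_eq, ← cl_eq] at hV
    rw [V.inf, ← EU_cl, ← EU_cl, hV.2.1, hV.2.2]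
    exact ⟨nat_mem_omega V _, nat_mem_omega V _⟩
  refine ⟨⟨?_, ?_⟩, ?_⟩
  · intro p hp
    obtain ⟨s, t, rfl, h⟩ := mem_relN U _ _ _ p hp
    exact ⟨cl U s, cl U t, (hval U s t h).1, isPair_opN U s t⟩
  · intro x hx
    refine ball_omega (R := fun U x => ∃! y, Rel (EU U) (cl U (fuN f)) x y)
      (Df.exu (Df.Rel _ _ _)) ⊤ ?_ U U.top x hx
    intro U _ n
    have hex : ∃ y, Rel (EU U) (cl U (fuN f)) (cl U (oN B n)) y := by
      obtain ⟨P, hP⟩ := Df.get (B := B)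
        (P' := fun U => ∃ y, Rel (EU U) (cl U (fuN f)) (cl U (oN B n)) y) (Df.ex (Df.Rel _ _ _))
      refine (hP U).2 (U.mono ?_ U.top)
      rw [← f.top n]
      refine iSup_le fun k => ?_
      rw [le_iff_ult]
      intro V hV
      exact (hP V).1 ⟨cl V (oN B k), (rel_fuN f V n k).2 hV⟩
    obtain ⟨y, hy⟩ := hex
    refine ⟨y, hy, ?_⟩
    intro z hz
    obtain ⟨y, rfl⟩ := cl_surj U y
    obtain ⟨z, rfl⟩ := cl_surj U z
    rw [rel_fuN'] at hy hz
    rw [cl_eq]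
    refine U.mono ?_ ((U.inf _ _).2 ⟨hy, hz⟩)
    rw [iSup_inf_iSup]
    refine iSup_le fun p => ?_
    obtain ⟨k, l⟩ := p
    rw [le_iff_ult]
    intro V hV
    simp only [V.inf] at hV
    obtain ⟨⟨h1, h2⟩, h3, h4⟩ := hV
    have hkl : k = l := by
      by_contra hne
      have : f.f n k ⊓ f.f n l ∈ V.s := (V.inf _ _).2 ⟨h1, h3⟩
      rw [f.disj n k l hne] at this
      exact V.bot this
    subst hkl
    rw [← cl_eq] at h2 h4 ⊢
    rw [h2, h4]
  · intro x y hxy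
    obtain ⟨x, rfl⟩ := cl_surj U x
    obtain ⟨y, rfl⟩ := cl_surj U y
    rw [fuN, rel_relN] at hxy
    exact (hval U x y hxy).2

/-- every function from `ω` to `ω` of the two-valued models has a code -/
theorem exists_fu (b : B) (g : BSet B)
    (hg : ∀ U : Ult B, b ∈ U.s → IsMap (EU U) (cl U g) (cl U (oN B ω)) (cl U (oN B ω))) :
    ∃ f : Fu B, ∀ U : Ult B, b ∈ U.s → ∀ n k : ℕ,
      (Rel (EU U) (cl U g) (cl U (oN B n)) (cl U (oN B k)) ↔ f.f n k ∈ U.s) := by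
  have h1 : ∀ n k : ℕ, ∃ P : B, ∀ U : Ult B, ((b ∈ U.s ∧ Rel (EU U) (cl U g) (cl U (oN B n))
      (cl U (oN B k))) ∨ (¬ b ∈ U.s ∧ k = 0)) ↔ P ∈ U.s := by
    intro n k
    apply Df.get
    exact Df.or (Df.and (Df.val (fun _ => b)) (Df.Rel _ _ _))
      (Df.and (Df.not (Df.val (fun _ => b))) (Df.const _))
  choose P hP using h1
  refine ⟨⟨P, ?_, ?_⟩, ?_⟩
  · intro n k k' hne
    by_contra hbot
    obtain ⟨U, hU⟩ := exists_ult hbot
    rw [U.inf, ← hP, ← hP] at hU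
    rcases hU with ⟨⟨hb, h1⟩ | ⟨hb, h1⟩, ⟨hb', h2⟩ | ⟨hb', h2⟩⟩
    · have := ((hg U hb).1.2 _ (nat_mem_omega U n)).unique h1 h2
      rw [nat_inj] at this
      exact hne this
    · exact hb' hb
    · exact hb hb'
    · exact hne (h1.trans h2.symm)
  · intro n
    by_contra hne
    have hene : (⨆ k, P n k)ᶜ ≠ ⊥ := by
      intro h
      rw [compl_eq_bot] at h
      exact hne h
    obtain ⟨U, hU⟩ := exists_ult hene
    have hall : ∀ V : Ult B, (⨆ k, P n k)ᶜ ∈ V.s → ∀ k, P n k ∉ V.s := by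
      intro V hV k hk
      rw [V.compl] at hV
      exact hV (V.mono (le_iSup (P n) k) hk)
    have hb : b ∈ U.s := by
      by_contra hb
      exact hall U hU 0 ((hP n 0 U).1 (Or.inr ⟨hb, rfl⟩))
    obtain ⟨y, hy, -⟩ := (hg U hb).1.2 _ (nat_mem_omega U n)
    have hy2 := (hg U hb).2 _ _ hy
    refine ball_omega (R := fun U y => ¬ Rel (EU U) (cl U g) (cl U (oN B n)) y)
      (Df.not (Df.Rel _ _ _)) (b ⊓ (⨆ k, P n k)ᶜ) ?_ U ((U.inf _ _).2 ⟨hb, hU⟩) y hy2 hy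
    intro V hV k hk
    rw [V.inf] at hV
    exact hall V hV.2 k ((hP n k V).1 (Or.inl ⟨hV.1, hk⟩))
  · intro U hU n k
    change _ ↔ P n k ∈ U.s
    rw [← hP n k U]
    constructor
    · exact fun h => Or.inl ⟨hU, h⟩
    · rintro (h | h)
      · exact h.2
      · exact absurd hU h.1

/-- the value of eventual domination at level `m` -/
theorem le_of_leStar (f g : Fu B) (h k : BSet B) (b : B)
    (hf : ∀ U : Ult B, b ∈ U.s → ∀ n i : ℕ,
      (Rel (EU U) (cl U h) (cl U (oN B n)) (cl U (oN B i)) ↔ f.f n i ∈ U.s))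
    (hg : ∀ U : Ult B, b ∈ U.s → ∀ n i : ℕ,
      (Rel (EU U) (cl U k) (cl U (oN B n)) (cl U (oN B i)) ↔ g.f n i ∈ U.s))
    (U : Ult B) (hU : b ∈ U.s)
    (hle : LeStar (EU U) (cl U (oN B ω)) (cl U h) (cl U k)) : f.le g ∈ U.s := by
  by_contra hne
  obtain ⟨m, hm, hm2⟩ := hle
  refine ball_omega (R := fun U m => ¬ ∀ n y z, EU U n (cl U (oN B ω)) → ¬ EU U n m →
    Rel (EU U) (cl U h) n y → Rel (EU U) (cl U k) n z → y = z ∨ EU U y z) ?_
    (b ⊓ (f.le g)ᶜ) ?_ U ((U.inf _ _).2 ⟨hU, (U.compl _).2 hne⟩) m hm hm2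
  · exact Df.not (Df.all (Df.all (Df.all (Df.imp (Df.mem _ _)
      (Df.imp (Df.not (Df.mem _ _)) (Df.imp (Df.Rel _ _ _) (Df.imp (Df.Rel _ _ _)
        (Df.or (Df.eq _ _) (Df.mem _ _)))))))))
  · intro V hV m hall
    rw [V.inf, V.compl] at hV
    obtain ⟨Q, hQ⟩ := Df.get (B := B) (P' := fun U => b ∈ U.s ∧
      ∀ n y z, EU U n (cl U (oN B ω)) → ¬ EU U n (cl U (oN B m)) →
      Rel (EU U) (cl U h) n y → Rel (EU U) (cl U k) n z → y = z ∨ EU U y z)
      (Df.and (Df.val (fun _ => b)) (Df.all (Df.all (Df.all (Df.imp (Df.mem _ _)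
      (Df.imp (Df.not (Df.mem _ _)) (Df.imp (Df.Rel _ _ _) (Df.imp (Df.Rel _ _ _)
        (Df.or (Df.eq _ _) (Df.mem _ _))))))))))
    apply hV.2
    refine V.mono ?_ ((hQ V).1 ⟨hV.1, hall⟩)
    refine le_iSup_of_le m (le_iInf fun n => le_iInf fun hmn => ?_)
    calc Q = ((⨆ i, f.f n i) ⊓ ⨆ j, g.f n j) ⊓ Q := by
          rw [f.top, g.top]; simp
      _ ≤ _ := by
          rw [iSup_inf_iSup, iSup_inf_eq]
          refine iSup_le fun p => ?_
          obtain ⟨i, j⟩ := p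
          change f.f n i ⊓ g.f n j ⊓ Q ≤ _
          by_cases hij : i ≤ j
          · refine le_iSup_of_le i (le_iSup_of_le j (le_iSup_of_le hij ?_))
            exact inf_le_left
          · refine le_trans ?_ bot_le
            rw [le_iff_ult]
            intro W hW
            exfalso
            rw [W.inf, W.inf, ← hQ W] at hW
            obtain ⟨⟨h1, h2⟩, h3, h4⟩ := hW
            have h5 := h4 (cl W (oN B n)) (cl W (oN B i)) (cl W (oN B j)) (nat_mem_omega W n)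
              (by rw [EU_oN, Nat.cast_lt]; omega) ((hf W h3 n i).2 h1) ((hg W h3 n j).2 h2)
            rw [nat_inj, EU_oN, Nat.cast_lt] at h5
            omega

/-- the converse -/
theorem leStar_of_le (f g : Fu B) (h k : BSet B) (b : B)
    (hh : ∀ U : Ult B, b ∈ U.s → IsMap (EU U) (cl U h) (cl U (oN B ω)) (cl U (oN B ω)))
    (hk : ∀ U : Ult B, b ∈ U.s → IsMap (EU U) (cl U k) (cl U (oN B ω)) (cl U (oN B ω)))
    (hf : ∀ U : Ult B, b ∈ U.s → ∀ n i : ℕ,
      (Rel (EU U) (cl U h) (cl U (oN B n)) (cl U (oN B i)) ↔ f.f n i ∈ U.s))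
    (hg : ∀ U : Ult B, b ∈ U.s → ∀ n i : ℕ,
      (Rel (EU U) (cl U k) (cl U (oN B n)) (cl U (oN B i)) ↔ g.f n i ∈ U.s))
    (U : Ult B) (hU : b ∈ U.s) (hle : f.le g ∈ U.s) :
    LeStar (EU U) (cl U (oN B ω)) (cl U h) (cl U k) := by
  obtain ⟨P, hP⟩ := Df.get (B := B) (P' := fun U => LeStar (EU U) (cl U (oN B ω)) (cl U h)
    (cl U k)) (Df.LeStar _ _ _)
  refine (hP U).2 (U.mono ?_ ((U.inf _ _).2 ⟨hle, hU⟩))
  rw [Fu.le, iSup_inf_eq]
  refine iSup_le fun m => ?_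
  rw [le_iff_ult]
  intro V hV
  apply (hP V).1
  refine ⟨cl V (oN B m), nat_mem_omega V m, ?_⟩
  intro n y z hn
  refine ball_omega (R := fun U n => ∀ y z, ¬ EU U n (cl U (oN B m)) →
    Rel (EU U) (cl U h) n y → Rel (EU U) (cl U k) n z → y = z ∨ EU U y z) ?_ _ ?_ V hV n hn y z
  · exact Df.all (Df.all (Df.imp (Df.not (Df.mem _ _)) (Df.imp (Df.Rel _ _ _)
      (Df.imp (Df.Rel _ _ _) (Df.or (Df.eq _ _) (Df.mem _ _))))))
  · intro W hW n y z hnm hy hz
    rw [W.inf] at hW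
    have hmn : m ≤ n := by
      by_contra hlt
      apply hnm
      rw [EU_oN, Nat.cast_lt]
      omega
    have hyo := (hh W hW.2).2 _ _ hy
    have hzo := (hk W hW.2).2 _ _ hz
    have ht : (⨆ i : ℕ, ⨆ j : ℕ, ⨆ _ : i ≤ j, f.f n i ⊓ g.f n j) ∈ W.s :=
      W.mono ((iInf_le _ n).trans (iInf_le _ hmn)) hW.1
    -- reduce to standard values
    refine ball_omega (R := fun U y => ∀ z, EU U z (cl U (oN B ω)) →
      Rel (EU U) (cl U h) (cl U (oN B n)) y → Rel (EU U) (cl U k) (cl U (oN B n)) z →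
      y = z ∨ EU U y z) ?_ ((⨆ i : ℕ, ⨆ j : ℕ, ⨆ _ : i ≤ j, f.f n i ⊓ g.f n j) ⊓ b) ?_ W
      ((W.inf _ _).2 ⟨ht, hW.2⟩) y hyo z hzo hy hz
    · exact Df.all (Df.imp (Df.mem _ _) (Df.imp (Df.Rel _ _ _)
        (Df.imp (Df.Rel _ _ _) (Df.or (Df.eq _ _) (Df.mem _ _)))))
    · intro X hX i z hzo hy hz
      refine ball_omega (R := fun U z => Rel (EU U) (cl U h) (cl U (oN B n)) (cl U (oN B i)) →
        Rel (EU U) (cl U k) (cl U (oN B n)) z →
        cl U (oN B i) = z ∨ EU U (cl U (oN B i)) z) ?_ _ ?_ X hX z hzo hy hz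
      · exact Df.imp (Df.Rel _ _ _) (Df.imp (Df.Rel _ _ _) (Df.or (Df.eq _ _) (Df.mem _ _)))
      · intro Y hY j hy hz
        rw [Y.inf] at hY
        rw [hf Y hY.2] at hy
        rw [hg Y hY.2] at hz
        rw [nat_inj, EU_oN, Nat.cast_lt]
        by_contra hcon
        have hji : j < i := by omega
        have hbot : (⨆ i : ℕ, ⨆ j : ℕ, ⨆ _ : i ≤ j, f.f n i ⊓ g.f n j) ⊓
            (f.f n i ⊓ g.f n j) ≤ ⊥ := by
          rw [iSup_inf_eq]
          refine iSup_le fun i' => ?_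
          rw [iSup_inf_eq]
          refine iSup_le fun j' => ?_
          rw [iSup_inf_eq]
          refine iSup_le fun hij' => ?_
          by_cases h1 : i' = i
          · subst h1
            have h2 : j' ≠ j := by omega
            rw [← g.disj n j' j h2]
            refine le_inf (inf_le_left.trans inf_le_right) (inf_le_right.trans inf_le_right)
          · rw [← f.disj n i' i h1]
            refine le_inf (inf_le_left.trans inf_le_left) (inf_le_right.trans inf_le_left)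
        exact Y.bot (Y.mono hbot ((Y.inf _ _).2 ⟨hY.1, (Y.inf _ _).2 ⟨hy, hz⟩⟩))

end CI
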