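import Pool.Agent.CI.T.Fam

/-!
# Project CI: the cardinal invariants of the ideals in the two-valued models
-/

set_option autoImplicit false

namespace CI

universe u v

variable {B : Type u} [CompleteBooleanAlgebra B]

open BSet Ordinal Cardinal

theorem NulC.rext (c : NulC B) : RExt c.mem := by
  intro x y
  refine le_iInf fun k => ?_
  exact (inf_le_inf_left _ (iInf_le _ k)).trans ((c.U k).rext x y)

theorem rext_iSup {ι : Type*} (P : ι → (ℕ → B) → B) (h : ∀ i, RExt (P i)) :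
    RExt (fun x => ⨆ i, P i x) := by
  intro x y
  beta_reduce
  rw [inf_iSup_eq]
  exact iSup_mono fun i => h i x y

/-- an ideal described by codes -/
structure Idl (B : Type u) [CompleteBooleanAlgebra B] where
  I : ∀ U : Ult B, (MU U → Prop) → Prop
  C : Type u
  m : C → (ℕ → B) → B
  ext : ∀ c, RExt (m c)
  of : ∀ (c : C) (b : B) (R : ∀ U : Ult B, MU U → Prop),
    Df (G := BSet B) (fun U x => R U (cl U x)) →
    (∀ U : Ult B, b ∈ U.s → ∀ x : ℕ → B, R U (cl U (rN x)) → m c x ∈ U.s) →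
    ∀ U : Ult B, b ∈ U.s → I U (R U)
  ex : ∀ (b : B) (R : ∀ U : Ult B, MU U → Prop),
    Df (G := BSet B) (fun U x => R U (cl U x)) →
    (∀ U : Ult B, b ∈ U.s → I U (R U)) →
    ∃ c : C, ∀ U : Ult B, b ∈ U.s → ∀ x : ℕ → B, R U (cl U (rN x)) → m c x ∈ U.s
  df : ∀ (G : Type (u + 1)) (R : ∀ U : Ult B, G → MU U → Prop),
    Df (G := G × BSet B) (fun U x => R U x.1 (cl U x.2)) → Df (fun U g => I U (R U g))

/-- the ideal of null sets -/
def idN (B : Type u) [CompleteBooleanAlgebra B] : Idl B where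
  I U := Null (EU U) (cl U (oN B ω))
  C := NulC B
  m := NulC.mem
  ext := NulC.rext
  of c b _ hR h := null_of c b hR h
  ex b _ hR h := exists_nulC b hR h
  df _ _ h := Df.Null _ h

/-- the ideal E -/
def idE (B : Type u) [CompleteBooleanAlgebra B] : Idl B where
  I U := NullE (EU U) (cl U (oN B ω))
  C := {F : ℕ → CloC B // ∀ n, (F n).Nul}
  m F x := ⨆ n, (F.1 n).mem x
  ext F := rext_iSup _ fun n => (F.1 n).rext
  of F b _ _ h := nullE_of F.1 F.2 b h
  ex b R hR h := by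
    obtain ⟨F, hF, h⟩ := exists_cloE b hR h
    exact ⟨⟨F, hF⟩, h⟩
  df _ _ h := Df.NullE _ h

/-- the ideal of meager sets -/
def idM (B : Type u) [CompleteBooleanAlgebra B] : Idl B where
  I U := Meager (EU U) (cl U (oN B ω))
  C := {F : ℕ → CloC B // ∀ n, (F n).Nwd}
  m F x := ⨆ n, (F.1 n).mem x
  ext F := rext_iSup _ fun n => (F.1 n).rext
  of F b _ _ h := meager_of F.1 F.2 b h
  ex b R hR h := by
    obtain ⟨F, hF, h⟩ := exists_cloM b hR h
    exact ⟨⟨F, hF⟩, h⟩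
  df _ _ h := Df.Meager _ h

theorem card_lt_of_lt_ord {κ : Cardinal.{u}} {a : Ordinal.{u}} (h : a < κ.ord) :
    #a.ToType < κ := by
  rw [Cardinal.mk_toType]
  exact Cardinal.lt_ord.1 h

theorem fam_equiv {I : Type u} {κ : Cardinal.{u}} (h : #I = κ) : Nonempty (κ.ord.ToType ≃ I) :=
  Cardinal.eq.1 (by rw [Cardinal.mk_ord_toType, h])

/-- the covering number -/
theorem cov_gen (J : Idl B) (κ : Cardinal.{u})
    (hge : ∀ (I : Type u), #I < κ → ∀ c : I → J.C, ∃ x : ℕ → B, ∀ i, J.m (c i) x = ⊥)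
    (hle : ∃ c : κ.ord.ToType → J.C, ∀ x : ℕ → B, ⨆ i, J.m (c i) x = ⊤) (U : Ult B) :
    IsCov (EU U) (cl U (oN B ω)) (J.I U) (cl U (oN B κ.ord)) := by
  have hD : Df (G := BSet B) (fun U x => ∃ r, (∀ i, EU U i (cl U x) → J.I U (Rel (EU U) r i)) ∧
      ∀ y, Sub (EU U) y (cl U (oN B ω)) → ∃ i, EU U i (cl U x) ∧ Rel (EU U) r i y) := by
    refine Df.ex (Df.and (Df.all (Df.imp (Df.mem _ _) ?_)) (Df.all (Df.imp (Df.Sub _ _)
      (Df.ex (Df.and (Df.mem _ _) (Df.Rel _ _ _))))))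
    exact J.df _ (fun U (g : (BSet B × BSet B) × BSet B) => Rel (EU U) (cl U g.1.2) (cl U g.2))
      (Df.Rel _ _ _)
  refine leastOrd_oN (R := fun U j => ∃ r, (∀ i, EU U i j → J.I U (Rel (EU U) r i)) ∧
    ∀ x, Sub (EU U) x (cl U (oN B ω)) → ∃ i, EU U i j ∧ Rel (EU U) r i x) hD κ.ord ?_ ?_ U
  · intro U
    obtain ⟨c, hc⟩ := hle
    set r := famN (eN B κ.ord) (fun i x => J.m (c i) x) with hr
    have hrel : ∀ (U : Ult B) (i : κ.ord.ToType) (x : ℕ → B),
        Rel (EU U) (cl U r) (cl U (eN B κ.ord i)) (cl U (rN x)) ↔ J.m (c i) x ∈ U.s :=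
      fun U i x => rel_famN _ _ (fun i => J.ext (c i)) (fun i j h => eN_ne _ i j h) U i x
    refine ⟨cl U r, ?_, ?_⟩
    · intro i hi
      refine ball_eN (R := fun U i => J.I U (Rel (EU U) (cl U r) i)) ?_ κ.ord ⊤ ?_ U U.top i hi
      · exact J.df _ (fun U (g : BSet B) => Rel (EU U) (cl U r) (cl U g)) (Df.Rel _ _ _)
      · intro U _ i
        refine J.of (c i) ⊤ (fun U x => Rel (EU U) (cl U r) (cl U (eN B κ.ord i)) x)
          (Df.Rel _ _ _) ?_ U U.top
        intro U _ x hx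
        exact (hrel U i x).1 hx
    · intro x hx
      obtain ⟨x, rfl⟩ := exists_rN U x hx
      obtain ⟨P, hP⟩ := Df.get (B := B) (P' := fun U => ∃ i, EU U i (cl U (oN B κ.ord)) ∧
        Rel (EU U) (cl U r) i (cl U (rN x))) (Df.ex (Df.and (Df.mem _ _) (Df.Rel _ _ _)))
      refine (hP U).2 (U.mono ?_ U.top)
      rw [← hc x]
      refine iSup_le fun i => ?_
      rw [le_iff_ult]
      intro V hV
      exact (hP V).1 ⟨cl V (eN B κ.ord i), eN_mem V _ i, (hrel V i x).2 hV⟩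
  · rintro U a ha ⟨r, hr⟩
    obtain ⟨r, rfl⟩ := cl_surj U r
    obtain ⟨b, hb⟩ := Df.get (B := B) (P' := fun U =>
      (∀ i, EU U i (cl U (oN B a)) → J.I U (Rel (EU U) (cl U r) i)) ∧
      ∀ x, Sub (EU U) x (cl U (oN B ω)) → ∃ i, EU U i (cl U (oN B a)) ∧
        Rel (EU U) (cl U r) i x) (by
      refine Df.and (Df.all (Df.imp (Df.mem _ _) ?_)) (Df.all (Df.imp (Df.Sub _ _)
        (Df.ex (Df.and (Df.mem _ _) (Df.Rel _ _ _)))))
      exact (J.df _ (fun U (g : BSet B) => Rel (EU U) (cl U r) (cl U g)) (Df.Rel _ _ _)).comp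
        (fun z : Unit × BSet B => z.2))
    have hbU := (hb U).1 hr
    have h1 : ∀ i : a.ToType, ∃ c : J.C, ∀ V : Ult B, b ∈ V.s → ∀ x : ℕ → B,
        Rel (EU V) (cl V r) (cl V (eN B a i)) (cl V (rN x)) → J.m c x ∈ V.s := by
      intro i
      exact J.ex b (fun U x => Rel (EU U) (cl U r) (cl U (eN B a i)) x) (Df.Rel _ _ _)
        (fun V hV => ((hb V).2 hV).1 _ (eN_mem V a i))
    choose c hc using h1
    obtain ⟨x, hx⟩ := hge a.ToType (card_lt_of_lt_ord ha) c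
    obtain ⟨i, hi, hix⟩ := hr.2 _ (rN_sub U x)
    refine ball_eN (R := fun U i => ¬ Rel (EU U) (cl U r) i (cl U (rN x)))
      (Df.not (Df.Rel _ _ _)) a b ?_ U hbU i hi hix
    intro V hV i hi
    have := hc i V hV x hi
    rw [hx i] at this
    exact V.bot this

/-- the uniformity number -/
theorem non_gen (J : Idl B) (κ : Cardinal.{u})
    (hge : ∀ (I : Type u), #I < κ → ∀ x : I → ℕ → B, ∃ c : J.C, ∀ i, J.m c (x i) = ⊤)
    (hle : ∃ x : κ.ord.ToType → ℕ → B, ∀ c : J.C, ⨅ i, J.m c (x i) = ⊥) (U : Ult B) :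
    IsNon (EU U) (cl U (oN B ω)) (J.I U) (cl U (oN B κ.ord)) := by
  have hD : Df (G := BSet B) (fun U g => ∃ f, IsFn (EU U) f (cl U g) ∧
      (∀ i x, Rel (EU U) f i x → Sub (EU U) x (cl U (oN B ω))) ∧
      ¬ J.I U (fun x => ∃ i, Rel (EU U) f i x)) := by
    refine Df.ex (Df.and (Df.IsFn _ _) (Df.and (Df.all (Df.all (Df.imp (Df.Rel _ _ _)
      (Df.Sub _ _)))) (Df.not ?_)))
    exact J.df _ (fun U (g : BSet B × BSet B) x => ∃ i, Rel (EU U) (cl U g.2) i x)
      (Df.ex (Df.Rel _ _ _))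
  refine leastOrd_oN (R := fun U j => ∃ f, IsFn (EU U) f j ∧
    (∀ i x, Rel (EU U) f i x → Sub (EU U) x (cl U (oN B ω))) ∧
    ¬ J.I U (fun x => ∃ i, Rel (EU U) f i x)) hD κ.ord ?_ ?_ U
  · intro U
    obtain ⟨x, hx⟩ := hle
    set f := fnN κ.ord (fun i => rN (x i)) with hf
    refine ⟨cl U f, isFn_fnN _ _ U, ?_, ?_⟩
    · intro i y hiy
      refine fn_ball (R := fun U y => Sub (EU U) y (cl U (oN B ω))) (Df.Sub _ _) κ.ord ⊤ f
        (fun U _ => isFn_fnN _ _ U) ?_ U U.top i y hiy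
      intro U _ a y hy
      rw [hf, rel_fnN] at hy
      rw [hy]
      exact rN_sub U _
    · intro hI
      obtain ⟨P, hP⟩ := Df.get (B := B) (P' := fun U => J.I U (fun x => ∃ i,
        Rel (EU U) (cl U f) i x)) ((J.df _ (fun U (_ : BSet B) x => ∃ i, Rel (EU U) (cl U f) i x)
          (Df.ex (Df.Rel _ _ _))).comp (fun _ : Unit => f))
      have hPU := (hP U).1 hI
      obtain ⟨c, hc⟩ := J.ex P (fun U x => ∃ i, Rel (EU U) (cl U f) i x) (Df.ex (Df.Rel _ _ _))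
        (fun V hV => (hP V).2 hV)
      have hle : P ≤ ⊥ := by
        rw [← hx c]
        refine le_iInf fun i => ?_
        rw [le_iff_ult]
        intro V hV
        apply hc V hV
        exact ⟨cl V (eN B κ.ord i), (rel_fnN _ _ V i _).2 rfl⟩
      exact U.bot (U.mono hle hPU)
  · rintro U a ha ⟨f, hf1, hf2, hf3⟩
    obtain ⟨f, rfl⟩ := cl_surj U f
    obtain ⟨b, hb⟩ := Df.get (B := B) (P' := fun U => IsFn (EU U) (cl U f) (cl U (oN B a)) ∧
      (∀ i x, Rel (EU U) (cl U f) i x → Sub (EU U) x (cl U (oN B ω))))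
      (Df.and (Df.IsFn _ _) (Df.all (Df.all (Df.imp (Df.Rel _ _ _) (Df.Sub _ _)))))
    have hbU := (hb U).1 ⟨hf1, hf2⟩
    have hfn : ∀ V : Ult B, b ∈ V.s → IsFn (EU V) (cl V f) (cl V (oN B a)) :=
      fun V hV => ((hb V).2 hV).1
    have h1 := fun i : a.ToType => exists_val a b f hfn i
    choose y hy using h1
    have h2 : ∀ (i : a.ToType) (V : Ult B), b ∈ V.s →
        cl V (y i) = cl V (rN fun n : ℕ => bmem (oN B n) (y i)) := by
      intro i V hV
      apply rN_of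
      exact ((hb V).2 hV).2 (cl V (eN B a i)) _ ((hy i V hV _).2 rfl)
    obtain ⟨c, hc⟩ := hge a.ToType (card_lt_of_lt_ord ha) (fun i n => bmem (oN B n) (y i))
    apply hf3
    refine J.of c b (fun U x => ∃ i, Rel (EU U) (cl U f) i x) (Df.ex (Df.Rel _ _ _)) ?_ U hbU
    rintro V hV x ⟨j, hj⟩
    by_contra hne
    have hjd := (hfn V hV).dom (zfc V) hj
    refine ball_eN (R := fun U j => ¬ Rel (EU U) (cl U f) j (cl U (rN x)))
      (Df.not (Df.Rel _ _ _)) a (b ⊓ (J.m c x)ᶜ) ?_ V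
      ((V.inf _ _).2 ⟨hV, (V.compl _).2 hne⟩) j hjd hj
    intro W hW i hi
    rw [W.inf, W.compl] at hW
    apply hW.2
    rw [hy i W hW.1, h2 i W hW.1, cl_eq, beq_symm] at hi
    refine W.mono (J.ext c _ x) ((W.inf _ _).2 ⟨hi, ?_⟩)
    rw [hc i]
    exact W.top

/-- the additivity of the null ideal -/
theorem add_null (κ : Cardinal.{u})
    (hge : ∀ (I : Type u), #I < κ → ∀ c : I → NulC B, ∃ d : NulC B,
      ∀ i x, (c i).mem x ≤ d.mem x)
    (hle : ∃ c : κ.ord.ToType → NulC B, ∀ d : NulC B,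
      ⨅ i, ⨅ x, (c i).mem x ⇨ d.mem x = ⊥) (U : Ult B) :
    IsAdd (EU U) (Null (EU U) (cl U (oN B ω))) (cl U (oN B κ.ord)) := by
  refine leastOrd_oN (R := fun U j => ∃ r, (∀ i, EU U i j →
    Null (EU U) (cl U (oN B ω)) (Rel (EU U) r i)) ∧
    ¬ Null (EU U) (cl U (oN B ω)) (fun x => ∃ i, EU U i j ∧ Rel (EU U) r i x)) ?_ κ.ord ?_ ?_ U
  · exact Df.ex (Df.and (Df.all (Df.imp (Df.mem _ _) (Df.Null _ (Df.Rel _ _ _))))
      (Df.not (Df.Null _ (Df.ex (Df.and (Df.mem _ _) (Df.Rel _ _ _))))))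
  · intro U
    obtain ⟨c, hc⟩ := hle
    set r := famN (eN B κ.ord) (fun i x => (c i).mem x) with hr
    have hrel : ∀ (U : Ult B) (i : κ.ord.ToType) (x : ℕ → B),
        Rel (EU U) (cl U r) (cl U (eN B κ.ord i)) (cl U (rN x)) ↔ (c i).mem x ∈ U.s :=
      fun U i x => rel_famN _ _ (fun i => (c i).rext) (fun i j h => eN_ne _ i j h) U i x
    refine ⟨cl U r, ?_, ?_⟩
    · intro i hi
      refine ball_eN (R := fun U i => Null (EU U) (cl U (oN B ω)) (Rel (EU U) (cl U r) i)) ?_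
        κ.ord ⊤ ?_ U U.top i hi
      · exact Df.Null _ (Df.Rel _ _ _)
      · intro U _ i
        refine null_of (c i) ⊤ (R := fun U x => Rel (EU U) (cl U r) (cl U (eN B κ.ord i)) x)
          (Df.Rel _ _ _) ?_ U U.top
        intro U _ x hx
        exact (hrel U i x).1 hx
    · intro hI
      obtain ⟨P, hP⟩ := Df.get (B := B) (P' := fun U => Null (EU U) (cl U (oN B ω))
        (fun x => ∃ i, EU U i (cl U (oN B κ.ord)) ∧ Rel (EU U) (cl U r) i x))
        (Df.Null _ (Df.ex (Df.and (Df.mem _ _) (Df.Rel _ _ _))))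
      have hPU := (hP U).1 hI
      obtain ⟨d, hd⟩ := exists_nulC P (R := fun U x => ∃ i, EU U i (cl U (oN B κ.ord)) ∧
        Rel (EU U) (cl U r) i x) (Df.ex (Df.and (Df.mem _ _) (Df.Rel _ _ _)))
        (fun V hV => (hP V).2 hV)
      have hle : P ≤ ⊥ := by
        rw [← hc d]
        refine le_iInf fun i => le_iInf fun x => ?_
        rw [le_himp_iff, le_iff_ult]
        intro V hV
        rw [V.inf] at hV
        apply hd V hV.1
        exact ⟨cl V (eN B κ.ord i), eN_mem V _ i, (hrel V i x).2 hV.2⟩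
      exact U.bot (U.mono hle hPU)
  · rintro U a ha ⟨r, hr1, hr2⟩
    obtain ⟨r, rfl⟩ := cl_surj U r
    obtain ⟨b, hb⟩ := Df.get (B := B) (P' := fun U =>
      (∀ i, EU U i (cl U (oN B a)) → Null (EU U) (cl U (oN B ω)) (Rel (EU U) (cl U r) i)))
      (Df.all (Df.imp (Df.mem _ _) (Df.Null _ (Df.Rel _ _ _))))
    have hbU := (hb U).1 hr1
    have h1 : ∀ i : a.ToType, ∃ c : NulC B, ∀ V : Ult B, b ∈ V.s → ∀ x : ℕ → B,
        Rel (EU V) (cl V r) (cl V (eN B a i)) (cl V (rN x)) → c.mem x ∈ V.s := by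
      intro i
      exact exists_nulC b (R := fun U x => Rel (EU U) (cl U r) (cl U (eN B a i)) x)
        (Df.Rel _ _ _) (fun V hV => ((hb V).2 hV) _ (eN_mem V a i))
    choose c hc using h1
    obtain ⟨d, hd⟩ := hge a.ToType (card_lt_of_lt_ord ha) c
    apply hr2
    refine null_of d b (R := fun U x => ∃ i, EU U i (cl U (oN B a)) ∧ Rel (EU U) (cl U r) i x)
      (Df.ex (Df.and (Df.mem _ _) (Df.Rel _ _ _))) ?_ U hbU
    rintro V hV x ⟨j, hjd, hj⟩
    by_contra hne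
    refine ball_eN (R := fun U j => ¬ Rel (EU U) (cl U r) j (cl U (rN x)))
      (Df.not (Df.Rel _ _ _)) a (b ⊓ (d.mem x)ᶜ) ?_ V
      ((V.inf _ _).2 ⟨hV, (V.compl _).2 hne⟩) j hjd hj
    intro W hW i hi
    rw [W.inf, W.compl] at hW
    apply hW.2
    exact W.mono (hd i x) (hc i W hW.1 x hi)

end CI
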