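import Pool.Agent.CI.T.Inv

/-!
# Project CI: the unbounding number, the dominating number, the continuum
-/

set_option autoImplicit false

namespace CI

universe u v

variable {B : Type u} [CompleteBooleanAlgebra B]

open BSet Ordinal Cardinal

/-- codes of the values of a sequence of functions from `ω` to `ω` -/
theorem exists_fus (a : Ordinal.{u}) (b : B) (F : BSet B)
    (hF : ∀ U : Ult B, b ∈ U.s → IsFn (EU U) (cl U F) (cl U (oN B a)))
    (hM : ∀ U : Ult B, b ∈ U.s → ∀ i f, Rel (EU U) (cl U F) i f →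
      IsMap (EU U) f (cl U (oN B ω)) (cl U (oN B ω))) :
    ∃ (h : a.ToType → BSet B) (f : a.ToType → Fu B),
      (∀ i, ∀ U : Ult B, b ∈ U.s → ∀ z : MU U,
        Rel (EU U) (cl U F) (cl U (eN B a i)) z ↔ z = cl U (h i)) ∧
      (∀ i, ∀ U : Ult B, b ∈ U.s → IsMap (EU U) (cl U (h i)) (cl U (oN B ω)) (cl U (oN B ω))) ∧
      (∀ i, ∀ U : Ult B, b ∈ U.s → ∀ n k : ℕ,
        (Rel (EU U) (cl U (h i)) (cl U (oN B n)) (cl U (oN B k)) ↔ (f i).f n k ∈ U.s)) := by
  have h1 := fun i : a.ToType => exists_val a b F hF i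
  choose h hh using h1
  have h2 : ∀ i, ∀ U : Ult B, b ∈ U.s →
      IsMap (EU U) (cl U (h i)) (cl U (oN B ω)) (cl U (oN B ω)) := by
    intro i U hU
    exact hM U hU (cl U (eN B a i)) _ ((hh i U hU _).2 rfl)
  have h3 := fun i : a.ToType => exists_fu b (h i) (h2 i)
  choose f hf using h3
  exact ⟨h, f, hh, h2, hf⟩

/-- the unbounding number -/
theorem b_gen (κ : Cardinal.{u})
    (hge : ∀ (I : Type u), #I < κ → ∀ f : I → Fu B, ∃ g : Fu B, ∀ i, (f i).le g = ⊤)
    (hle : ∃ f : κ.ord.ToType → Fu B, ∀ g : Fu B, ⨅ i, (f i).le g = ⊥) (U : Ult B) :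
    IsB (EU U) (cl U (oN B ω)) (cl U (oN B κ.ord)) := by
  refine leastOrd_oN (R := fun U j => ∃ F, IsFn (EU U) F j ∧
    (∀ i f, Rel (EU U) F i f → IsMap (EU U) f (cl U (oN B ω)) (cl U (oN B ω))) ∧
    ¬ ∃ g, IsMap (EU U) g (cl U (oN B ω)) (cl U (oN B ω)) ∧
      ∀ i f, Rel (EU U) F i f → LeStar (EU U) (cl U (oN B ω)) f g) ?_ κ.ord ?_ ?_ U
  · exact Df.ex (Df.and (Df.IsFn _ _) (Df.and (Df.all (Df.all (Df.imp (Df.Rel _ _ _)
      (Df.IsMap _ _ _)))) (Df.not (Df.ex (Df.and (Df.IsMap _ _ _) (Df.all (Df.all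
      (Df.imp (Df.Rel _ _ _) (Df.LeStar _ _ _)))))))))
  · intro U
    obtain ⟨f, hf⟩ := hle
    set F := fnN κ.ord (fun i => fuN (f i)) with hFd
    refine ⟨cl U F, isFn_fnN _ _ U, ?_, ?_⟩
    · intro i g hig
      refine fn_ball (R := fun U g => IsMap (EU U) g (cl U (oN B ω)) (cl U (oN B ω)))
        (Df.IsMap _ _ _) κ.ord ⊤ F (fun U _ => isFn_fnN _ _ U) ?_ U U.top i g hig
      intro U _ a g hg
      rw [hFd, rel_fnN] at hg
      rw [hg]
      exact isMap_fuN (f a) U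
    · rintro ⟨g, hg1, hg2⟩
      obtain ⟨g, rfl⟩ := cl_surj U g
      obtain ⟨b, hb⟩ := Df.get (B := B) (P' := fun U =>
        IsMap (EU U) (cl U g) (cl U (oN B ω)) (cl U (oN B ω)) ∧
        ∀ i f, Rel (EU U) (cl U F) i f → LeStar (EU U) (cl U (oN B ω)) f (cl U g))
        (Df.and (Df.IsMap _ _ _) (Df.all (Df.all (Df.imp (Df.Rel _ _ _) (Df.LeStar _ _ _)))))
      have hbU := (hb U).1 ⟨hg1, hg2⟩
      obtain ⟨g', hg'⟩ := exists_fu b g (fun V hV => ((hb V).2 hV).1)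
      have hle : b ≤ ⊥ := by
        rw [← hf g']
        refine le_iInf fun i => ?_
        rw [le_iff_ult]
        intro V hV
        refine le_of_leStar (f i) g' (fuN (f i)) g b (fun W _ n k => rel_fuN (f i) W n k) hg'
          V hV ?_
        exact ((hb V).2 hV).2 (cl V (eN B κ.ord i)) _ ((rel_fnN _ _ V i _).2 rfl)
      exact U.bot (U.mono hle hbU)
  · rintro U a ha ⟨F, hF1, hF2, hF3⟩
    obtain ⟨F, rfl⟩ := cl_surj U F
    obtain ⟨b, hb⟩ := Df.get (B := B) (P' := fun U => IsFn (EU U) (cl U F) (cl U (oN B a)) ∧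
      ∀ i f, Rel (EU U) (cl U F) i f → IsMap (EU U) f (cl U (oN B ω)) (cl U (oN B ω)))
      (Df.and (Df.IsFn _ _) (Df.all (Df.all (Df.imp (Df.Rel _ _ _) (Df.IsMap _ _ _)))))
    have hbU := (hb U).1 ⟨hF1, hF2⟩
    obtain ⟨h, f, hh1, hh2, hh3⟩ := exists_fus a b F (fun V hV => ((hb V).2 hV).1)
      (fun V hV => ((hb V).2 hV).2)
    obtain ⟨g, hg⟩ := hge a.ToType (card_lt_of_lt_ord ha) f
    apply hF3
    refine ⟨cl U (fuN g), isMap_fuN g U, ?_⟩
    intro i k hik
    refine fn_ball (R := fun U k => LeStar (EU U) (cl U (oN B ω)) k (cl U (fuN g)))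
      (Df.LeStar _ _ _) a b F (fun V hV => ((hb V).2 hV).1) ?_ U hbU i k hik
    intro V hV i k hik
    rw [hh1 i V hV] at hik
    rw [hik]
    refine leStar_of_le (f i) g (h i) (fuN g) b (hh2 i) (fun W _ => isMap_fuN g W) (hh3 i)
      (fun W _ n k => rel_fuN g W n k) V hV ?_
    rw [hg i]
    exact V.top

theorem Fu.le_refl (f : Fu B) : f.le f = ⊤ := by
  rw [eq_top_iff_ult]
  intro U
  refine U.mono (le_iSup _ 0) ?_
  have : (⨅ n : ℕ, ⨅ _ : 0 ≤ n, ⨆ i : ℕ, ⨆ j : ℕ, ⨆ _ : i ≤ j, f.f n i ⊓ f.f n j) = ⊤ := by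
    rw [iInf_eq_top]
    intro n
    rw [iInf_eq_top]
    intro _
    rw [eq_top_iff, ← f.top n]
    refine iSup_le fun i => ?_
    exact le_iSup_of_le i (le_iSup_of_le i (le_iSup_of_le le_rfl (by rw [inf_idem])))
  rw [this]
  exact U.top

/-- the dominating number, if it is the continuum -/
theorem d_gen (κ : Cardinal.{u})
    (hge : ∀ (I : Type u), #I < κ → ∀ g : I → Fu B, ∃ f : Fu B, ∀ i, f.le (g i) = ⊥)
    (hle : ∃ f : κ.ord.ToType → Fu B, Function.Surjective f) (U : Ult B) :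
    IsD (EU U) (cl U (oN B ω)) (cl U (oN B κ.ord)) := by
  refine leastOrd_oN (R := fun U j => ∃ F, IsFn (EU U) F j ∧
    (∀ i f, Rel (EU U) F i f → IsMap (EU U) f (cl U (oN B ω)) (cl U (oN B ω))) ∧
    ∀ g, IsMap (EU U) g (cl U (oN B ω)) (cl U (oN B ω)) →
      ∃ i f, Rel (EU U) F i f ∧ LeStar (EU U) (cl U (oN B ω)) g f) ?_ κ.ord ?_ ?_ U
  · exact Df.ex (Df.and (Df.IsFn _ _) (Df.and (Df.all (Df.all (Df.imp (Df.Rel _ _ _)
      (Df.IsMap _ _ _)))) (Df.all (Df.imp (Df.IsMap _ _ _) (Df.ex (Df.ex (Df.and (Df.Rel _ _ _)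
      (Df.LeStar _ _ _))))))))
  · intro U
    obtain ⟨f, hf⟩ := hle
    set F := fnN κ.ord (fun i => fuN (f i)) with hFd
    refine ⟨cl U F, isFn_fnN _ _ U, ?_, ?_⟩
    · intro i g hig
      refine fn_ball (R := fun U g => IsMap (EU U) g (cl U (oN B ω)) (cl U (oN B ω)))
        (Df.IsMap _ _ _) κ.ord ⊤ F (fun U _ => isFn_fnN _ _ U) ?_ U U.top i g hig
      intro U _ a g hg
      rw [hFd, rel_fnN] at hg
      rw [hg]
      exact isMap_fuN (f a) U
    · intro g hg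
      obtain ⟨g, rfl⟩ := cl_surj U g
      obtain ⟨b, hb⟩ := Df.get (B := B) (P' := fun U =>
        IsMap (EU U) (cl U g) (cl U (oN B ω)) (cl U (oN B ω))) (Df.IsMap _ _ _)
      have hbU := (hb U).1 hg
      obtain ⟨g', hg'⟩ := exists_fu b g (fun V hV => (hb V).2 hV)
      obtain ⟨i, hi⟩ := hf g'
      refine ⟨cl U (eN B κ.ord i), cl U (fuN (f i)), (rel_fnN _ _ U i _).2 rfl, ?_⟩
      rw [hi]
      refine leStar_of_le g' g' g (fuN g') b (fun V hV => (hb V).2 hV)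
        (fun W _ => isMap_fuN g' W) hg' (fun W _ n k => rel_fuN g' W n k) U hbU ?_
      rw [g'.le_refl]
      exact U.top
  · rintro U a ha ⟨F, hF1, hF2, hF3⟩
    obtain ⟨F, rfl⟩ := cl_surj U F
    obtain ⟨b, hb⟩ := Df.get (B := B) (P' := fun U => IsFn (EU U) (cl U F) (cl U (oN B a)) ∧
      ∀ i f, Rel (EU U) (cl U F) i f → IsMap (EU U) f (cl U (oN B ω)) (cl U (oN B ω)))
      (Df.and (Df.IsFn _ _) (Df.all (Df.all (Df.imp (Df.Rel _ _ _) (Df.IsMap _ _ _)))))
    have hbU := (hb U).1 ⟨hF1, hF2⟩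
    obtain ⟨h, f, hh1, hh2, hh3⟩ := exists_fus a b F (fun V hV => ((hb V).2 hV).1)
      (fun V hV => ((hb V).2 hV).2)
    obtain ⟨g, hg⟩ := hge a.ToType (card_lt_of_lt_ord ha) f
    obtain ⟨i, k, hik, hle⟩ := hF3 _ (isMap_fuN g U)
    refine fn_ball (R := fun U k => ¬ LeStar (EU U) (cl U (oN B ω)) (cl U (fuN g)) k)
      (Df.not (Df.LeStar _ _ _)) a b F (fun V hV => ((hb V).2 hV).1) ?_ U hbU i k hik hle
    intro V hV i k hik hle
    rw [hh1 i V hV] at hik
    rw [hik] at hle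
    have := le_of_leStar g (f i) (fuN g) (h i) b (fun W _ n k => rel_fuN g W n k) (hh3 i) V hV
      hle
    rw [hg i] at this
    exact V.bot this

/-- the continuum -/
theorem c_gen (κ : Cardinal.{u})
    (hge : ∀ (I : Type u), #I < κ → ∀ x : I → ℕ → B, ∃ c : NulC B, ∀ i, c.mem (x i) = ⊤)
    (hN : ∀ c : NulC B, ∃ x : ℕ → B, c.mem x = ⊥)
    (hle : ∃ x : κ.ord.ToType → ℕ → B, Function.Surjective x) (U : Ult B) :
    IsC (EU U) (cl U (oN B ω)) (cl U (oN B κ.ord)) := by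
  refine leastOrd_oN (R := fun U j => ∃ f, IsFn (EU U) f j ∧
    ∀ x, Sub (EU U) x (cl U (oN B ω)) → ∃ i, Rel (EU U) f i x) ?_ κ.ord ?_ ?_ U
  · exact Df.ex (Df.and (Df.IsFn _ _) (Df.all (Df.imp (Df.Sub _ _) (Df.ex (Df.Rel _ _ _)))))
  · intro U
    obtain ⟨x, hx⟩ := hle
    refine ⟨cl U (fnN κ.ord (fun i => rN (x i))), isFn_fnN _ _ U, ?_⟩
    intro y hy
    obtain ⟨y, rfl⟩ := exists_rN U y hy
    obtain ⟨i, hi⟩ := hx y
    refine ⟨cl U (eN B κ.ord i), (rel_fnN _ _ U i _).2 ?_⟩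
    rw [hi]
  · rintro U a ha ⟨f, hf1, hf2⟩
    obtain ⟨f, rfl⟩ := cl_surj U f
    obtain ⟨b, hb⟩ := Df.get (B := B) (P' := fun U => IsFn (EU U) (cl U f) (cl U (oN B a)))
      (Df.IsFn _ _)
    have hbU := (hb U).1 hf1
    have h1 := fun i : a.ToType => exists_val a b f (fun V hV => (hb V).2 hV) i
    choose y hy using h1
    obtain ⟨c, hc⟩ := hge a.ToType (card_lt_of_lt_ord ha) (fun i n => bmem (oN B n) (y i))
    obtain ⟨x, hx⟩ := hN c
    obtain ⟨j, hj⟩ := hf2 _ (rN_sub U x)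
    have hjd := hf1.dom (zfc U) hj
    refine ball_eN (R := fun U j => ¬ Rel (EU U) (cl U f) j (cl U (rN x)))
      (Df.not (Df.Rel _ _ _)) a b ?_ U hbU j hjd hj
    intro W hW i hi
    rw [hy i W hW] at hi
    have h2 : Sub (EU W) (cl W (y i)) (cl W (oN B ω)) := by
      rw [← hi]; exact rN_sub W x
    rw [rN_of (y i) W h2, cl_eq, beq_symm] at hi
    have := W.mono (c.rext _ x) ((W.inf _ _).2 ⟨hi, (by rw [hc i]; exact W.top)⟩)
    rw [hx] at this
    exact W.bot this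

/-- the code of a singleton -/
def sgC (y : ℕ → B) : CloC B where
  T := fun n a => cutV y n a
  zero := by
    intro n a ha
    have hn : n ∉ a := fun h => by
      have := Finset.mem_range.1 (ha h); omega
    apply le_antisymm
    · rw [le_iff_ult]
      intro U hU
      rw [U.sup]
      rw [cutV_mem] at hU
      rw [cutV_mem, cutV_mem]
      by_cases h : y n ∈ U.s
      · right
        intro i hi
        rcases (Nat.lt_succ_iff.1 hi).lt_or_eq with h' | h'
        · rw [← hU i h', Finset.mem_insert]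
          constructor
          · rintro (h2 | h2)
            · omega
            · exact h2
          · exact fun h2 => Or.inr h2
        · subst h'
          exact ⟨fun _ => h, fun _ => Finset.mem_insert_self _ _⟩
      · left
        intro i hi
        rcases (Nat.lt_succ_iff.1 hi).lt_or_eq with h' | h'
        · exact hU i h'
        · subst h'
          exact ⟨fun h2 => absurd h2 hn, fun h2 => absurd h2 h⟩
    · rw [le_iff_ult]
      intro U hU
      rw [U.sup, cutV_mem, cutV_mem] at hU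
      rw [cutV_mem]
      intro i hi
      rcases hU with h | h
      · exact h i (hi.trans (Nat.lt_succ_self n))
      · rw [← h i (hi.trans (Nat.lt_succ_self n)), Finset.mem_insert]
        constructor
        · exact fun h2 => Or.inr h2
        · rintro (h2 | h2)
          · omega
          · exact h2

theorem sgC_nul (y : ℕ → B) : (sgC y).Nul := by
  intro k
  change ⨆ n, fewV (sgC y) k n = ⊤
  rw [eq_top_iff_ult]
  intro U
  refine U.mono (le_iSup _ k) ?_
  rw [fewV_mem]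
  intro A hA hT
  have : A ⊆ {tr U y k} := by
    intro a ha
    rw [Finset.mem_singleton]
    exact (cutV_iff_tr U y k a (hA a ha)).1 (hT a ha)
  have := Finset.card_le_card this
  rw [Finset.card_singleton] at this
  calc 2 ^ k * A.card ≤ 2 ^ k * 1 := Nat.mul_le_mul_left _ this
    _ = 2 ^ k := mul_one _

theorem sgC_mem (y : ℕ → B) : (sgC y).mem y = ⊤ := by
  rw [CloC.mem, iInf_eq_top]
  intro n
  rw [eq_top_iff_ult]
  intro U
  refine U.mono (le_iSup_of_le (tr U y n) (le_iSup_of_le (tr_sub U y n) le_rfl)) ?_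
  rw [U.inf]
  exact ⟨cutV_tr U y n, cutV_tr U y n⟩

end CI
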