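import Pool.Agent.CI.T.Full
import Pool.Agent.CI.Model

/-!
# Project CI: the quotient by an ultrafilter and the theorem of Los
-/

set_option autoImplicit false

namespace CI

universe u

variable {B : Type u} [CompleteBooleanAlgebra B]

open BSet

/-- equality modulo the ultrafilter -/
def bsetoid (U : Ult B) : Setoid (BSet B) where
  r u v := beq u v ∈ U.s
  iseqv :=
    { refl := fun u => by rw [beq_refl]; exact U.top
      symm := fun {u v} h => by rw [beq_symm]; exact h
      trans := fun {u v w} h1 h2 => U.mono (beq_trans u v w) ((U.inf _ _).2 ⟨h1, h2⟩) }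

/-- the two-valued model -/
def MU (U : Ult B) : Type (u + 1) := Quotient (bsetoid U)

/-- the class of a name -/
def cl (U : Ult B) (u : BSet B) : MU U := Quotient.mk (bsetoid U) u

theorem cl_surj (U : Ult B) (x : MU U) : ∃ u, cl U u = x := Quotient.exists_rep x

theorem cl_eq {U : Ult B} {u v : BSet B} : cl U u = cl U v ↔ beq u v ∈ U.s := by
  constructor
  · intro h; exact Quotient.exact h
  · intro h; exact Quotient.sound (s := bsetoid U) h

/-- membership in the two-valued model -/
def EU (U : Ult B) (x y : MU U) : Prop :=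
  Quotient.liftOn₂ x y (fun u v => bmem u v ∈ U.s) (by
    intro u v u' v' h1 h2
    apply propext
    constructor
    · intro h
      exact U.mono (bmem_congr_right _ _ _) ((U.inf _ _).2
        ⟨h2, U.mono (bmem_congr_left _ _ _) ((U.inf _ _).2 ⟨h1, h⟩)⟩)
    · intro h
      have h1' : beq u' u ∈ U.s := by rw [beq_symm]; exact h1
      have h2' : beq v' v ∈ U.s := by rw [beq_symm]; exact h2
      exact U.mono (bmem_congr_right _ _ _) ((U.inf _ _).2
        ⟨h2', U.mono (bmem_congr_left _ _ _) ((U.inf _ _).2 ⟨h1', h⟩)⟩))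

theorem EU_cl {U : Ult B} {u v : BSet B} : EU U (cl U u) (cl U v) ↔ bmem u v ∈ U.s := Iff.rfl

/-- the truth value `P x` describes the property `P' x` in all two-valued models -/
def Los (P : BSet B → B) (P' : ∀ U : Ult B, MU U → Prop) : Prop :=
  ∀ U x, P' U (cl U x) ↔ P x ∈ U.s

theorem Los.ext {P : BSet B → B} {P' : ∀ U : Ult B, MU U → Prop} (h : Los P P') : Ext P := by
  intro u v
  rw [le_iff_ult]
  intro U hU
  rw [U.inf] at hU
  rw [← h U v, ← cl_eq.2 hU.1, h U u]
  exact hU.2

theorem Los.ex {P : BSet B → B} {P' : ∀ U : Ult B, MU U → Prop} (h : Los P P') (U : Ult B) :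
    (∃ x, P' U x) ↔ (⨆ x, P x) ∈ U.s := by
  constructor
  · rintro ⟨x, hx⟩
    obtain ⟨u, rfl⟩ := cl_surj U x
    exact U.mono (le_iSup P u) ((h U u).1 hx)
  · intro hU
    obtain ⟨u, hu⟩ := exists_max h.ext
    rw [← hu] at hU
    exact ⟨cl U u, (h U u).2 hU⟩

theorem Los.not {P : BSet B → B} {P' : ∀ U : Ult B, MU U → Prop} (h : Los P P') :
    Los (fun x => (P x)ᶜ) (fun U x => ¬ P' U x) := by
  intro U x
  beta_reduce
  rw [h U x, U.compl]

theorem Los.all {P : BSet B → B} {P' : ∀ U : Ult B, MU U → Prop} (h : Los P P') (U : Ult B) :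
    (∀ x, P' U x) ↔ (⨅ x, P x) ∈ U.s := by
  have h1 := h.not.ex U
  rw [← compl_iInf, U.compl] at h1
  rw [← not_iff_not, not_forall, h1]

/-- Boolean value of a formula -/
def Fm.val : {n : ℕ} → Fm n → (Fin n → BSet B) → B
  | _, .mem i j, v => bmem (v i) (v j)
  | _, .eq i j, v => beq (v i) (v j)
  | _, .bot, _ => ⊥
  | _, .imp p q, v => Fm.val p v ⇨ Fm.val q v
  | _, .all p, v => ⨅ x : BSet B, Fm.val p (Fin.cons x v)

theorem cons_cl {n : ℕ} (U : Ult B) (x : BSet B) (v : Fin n → BSet B) :
    (Fin.cons (cl U x) (fun i => cl U (v i)) : Fin (n + 1) → MU U) =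
      fun i => cl U ((Fin.cons x v : Fin (n + 1) → BSet B) i) := by
  funext i
  refine Fin.cases ?_ (fun j => ?_) i
  · simp
  · simp

/-- the theorem of Los -/
theorem los {n : ℕ} (p : Fm n) (U : Ult B) (v : Fin n → BSet B) :
    p.sat (EU U) (fun i => cl U (v i)) ↔ p.val v ∈ U.s := by
  induction p generalizing U with
  | mem i j => exact EU_cl
  | eq i j => exact cl_eq
  | bot => exact iff_of_false id U.bot
  | imp p q ihp ihq =>
    rw [Fm.sat, Fm.val, U.himp, ihp, ihq]
  | all p ih =>
    rw [Fm.sat, Fm.val]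
    refine Los.all (P := fun x => p.val (Fin.cons x v))
      (P' := fun U x => p.sat (EU U) (Fin.cons x (fun i => cl U (v i)))) ?_ U
    intro U x
    beta_reduce
    rw [cons_cl, ih]

end CI
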