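import Pool.Agent.CI.T.Codes

/-!
# Project CI: compactness and the measure of an open set given by a code
-/

set_option autoImplicit false

namespace CI

universe u v

variable {B : Type u} [CompleteBooleanAlgebra B] {G : Type v}

open BSet Ordinal

theorem OpnC.mono1 (O : OpnC B) (j : ℕ) (c : Finset ℕ) (hc : c ⊆ Finset.range (j + 1)) :
    O.O j (c ∩ Finset.range j) ≤ O.O (j + 1) c := by
  have h := O.mono j (c ∩ Finset.range j) Finset.inter_subset_right
  by_cases hj : j ∈ c
  · have : insert j (c ∩ Finset.range j) = c := by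
      ext i
      simp only [Finset.mem_insert, Finset.mem_inter, Finset.mem_range]
      constructor
      · rintro (rfl | h)
        · exact hj
        · exact h.1
      · intro hi
        have := Finset.mem_range.1 (hc hi)
        rcases (Nat.lt_succ_iff.1 this).lt_or_eq with h | h
        · exact Or.inr ⟨hi, h⟩
        · exact Or.inl h
    rw [this] at h
    exact h.trans inf_le_right
  · have : c ∩ Finset.range j = c := by
      ext i
      simp only [Finset.mem_inter, Finset.mem_range]
      constructor
      · exact fun h => h.1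
      · intro hi
        have := Finset.mem_range.1 (hc hi)
        rcases (Nat.lt_succ_iff.1 this).lt_or_eq with h | h
        · exact ⟨hi, h⟩
        · subst h; exact absurd hi hj
    rw [this] at h ⊢
    exact h.trans inf_le_left

theorem OpnC.mono' (O : OpnC B) (j i : ℕ) (c : Finset ℕ) (hc : c ⊆ Finset.range (j + i)) :
    O.O j (c ∩ Finset.range j) ≤ O.O (j + i) c := by
  induction i generalizing c with
  | zero =>
    rw [add_zero] at *
    rw [Finset.inter_eq_left.2 hc]
  | succ i ih =>
    have h1 := ih (c ∩ Finset.range (j + i)) Finset.inter_subset_right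
    have h2 : c ∩ Finset.range (j + i) ∩ Finset.range j = c ∩ Finset.range j := by
      rw [Finset.inter_assoc]
      congr 1
      rw [Finset.inter_eq_right]
      exact Finset.range_mono (Nat.le_add_right j i)
    rw [h2] at h1
    exact h1.trans (O.mono1 (j + i) c hc)

theorem OpnC.mono2 (O : OpnC B) {j l : ℕ} (h : j ≤ l) (c : Finset ℕ)
    (hc : c ⊆ Finset.range l) : O.O j (c ∩ Finset.range j) ≤ O.O l c := by
  obtain ⟨i, rfl⟩ := Nat.exists_eq_add_of_le h
  exact O.mono' j i c hc

/-- value of: at level `j` some cylinder which extends both `(n, a)` and `(m, a')` is not in the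
code -/
def lev (O : OpnC B) (n : ℕ) (a : Finset ℕ) (j m : ℕ) (a' : Finset ℕ) : B :=
  ((Finset.range j).powerset.filter (fun c => c ∩ Finset.range n = a ∧
    c ∩ Finset.range m = a')).sup (fun c => (O.O j c)ᶜ)

theorem lev_mem (U : Ult B) (O : OpnC B) (n : ℕ) (a : Finset ℕ) (j m : ℕ) (a' : Finset ℕ) :
    lev O n a j m a' ∈ U.s ↔ ∃ c, c ⊆ Finset.range j ∧ c ∩ Finset.range n = a ∧
      c ∩ Finset.range m = a' ∧ O.O j c ∉ U.s := by
  rw [lev, U.finset_sup]
  simp only [Finset.mem_filter, Finset.mem_powerset, U.compl, and_assoc]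

theorem lev_anti (O : OpnC B) (n : ℕ) (a : Finset ℕ) {j l m : ℕ} (a' : Finset ℕ) (h : j ≤ l)
    (hn : n ≤ j) (hm : m ≤ j) : lev O n a l m a' ≤ lev O n a j m a' := by
  rw [le_iff_ult]
  intro U hU
  rw [lev_mem] at *
  obtain ⟨c, hc, h1, h2, h3⟩ := hU
  refine ⟨c ∩ Finset.range j, Finset.inter_subset_right, ?_, ?_, ?_⟩
  · rw [Finset.inter_assoc, Finset.inter_eq_right.2 (Finset.range_mono hn), h1]
  · rw [Finset.inter_assoc, Finset.inter_eq_right.2 (Finset.range_mono hm), h2]
  · intro h4
    exact h3 (U.mono (O.mono2 h c hc) h4)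

theorem inter_succ (c : Finset ℕ) (m : ℕ) : c ∩ Finset.range (m + 1) = c ∩ Finset.range m ∨
    c ∩ Finset.range (m + 1) = insert m (c ∩ Finset.range m) := by
  by_cases h : m ∈ c
  · right
    ext i
    simp only [Finset.mem_insert, Finset.mem_inter, Finset.mem_range]
    constructor
    · rintro ⟨h1, h2⟩
      rcases (Nat.lt_succ_iff.1 h2).lt_or_eq with h3 | h3
      · exact Or.inr ⟨h1, h3⟩
      · exact Or.inl h3
    · rintro (rfl | ⟨h1, h2⟩)
      · exact ⟨h, Nat.lt_succ_self _⟩
      · exact ⟨h1, h2.trans (Nat.lt_succ_self m)⟩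
  · left
    ext i
    simp only [Finset.mem_inter, Finset.mem_range]
    constructor
    · rintro ⟨h1, h2⟩
      rcases (Nat.lt_succ_iff.1 h2).lt_or_eq with h3 | h3
      · exact ⟨h1, h3⟩
      · subst h3; exact absurd h1 h
    · rintro ⟨h1, h2⟩
      exact ⟨h1, h2.trans (Nat.lt_succ_self m)⟩

/-- the tree of the cylinders which are never covered -/
def levT (O : OpnC B) (n : ℕ) (a : Finset ℕ) (m : ℕ) (a' : Finset ℕ) : B :=
  ⨅ i : ℕ, lev O n a (max m n + i) m a'

theorem levT_succ (O : OpnC B) (n : ℕ) (a : Finset ℕ) (m : ℕ) (a' : Finset ℕ) :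
    levT O n a m a' ≤ levT O n a (m + 1) a' ⊔ levT O n a (m + 1) (insert m a') := by
  have h1 : levT O n a m a' ≤ ⨅ i : ℕ, (lev O n a (max (m + 1) n + i) (m + 1) a' ⊔
      lev O n a (max (m + 1) n + i) (m + 1) (insert m a')) := by
    refine le_iInf fun i => ?_
    have hle : max m n ≤ max (m + 1) n + i := by omega
    obtain ⟨j, hj⟩ := Nat.exists_eq_add_of_le hle
    refine (iInf_le _ j).trans ?_
    rw [← hj, le_iff_ult]
    intro U hU
    rw [U.sup, lev_mem, lev_mem]
    rw [lev_mem] at hU
    obtain ⟨c, hc, h1, h2, h3⟩ := hU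
    rcases inter_succ c m with h | h
    · left; exact ⟨c, hc, h1, by rw [h, h2], h3⟩
    · right; exact ⟨c, hc, h1, by rw [h, h2], h3⟩
  refine h1.trans (le_of_eq ?_)
  rw [levT, levT]
  apply iInf_sup_of_antitone
  · intro i j hij
    apply lev_anti <;> omega
  · intro i j hij
    apply lev_anti <;> omega

/-- compactness: a cylinder in an open set is covered at some level -/
theorem cyl_compact (O : OpnC B) (n : ℕ) (a : Finset ℕ) (U : Ult B)
    (ha : a ⊆ Finset.range n)
    (h : CylIn (EU U) (cl U (oN B ω)) (cl U (oN B n)) (cl U (fN B a)) (cl U (setN O.mem))) :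
    (⨆ i : ℕ, (lev O n a (n + i) 0 ∅)ᶜ) ∈ U.s := by
  by_contra hU
  rw [← compl_iInf, U.compl, not_not] at hU
  have hT0 : ∀ V : Ult B, (⨅ i : ℕ, lev O n a (n + i) 0 ∅) ∈ V.s → levT O n a 0 ∅ ∈ V.s := by
    intro V hV
    have : levT O n a 0 ∅ = ⨅ i : ℕ, lev O n a (n + i) 0 ∅ := by
      rw [levT]
      simp
    rw [this]; exact hV
  set T := levT O n a with hT
  have hTs : ∀ m a', a' ⊆ Finset.range m → T m a' ≤ T (m + 1) a' ⊔ T (m + 1) (insert m a') :=
    fun m a' _ => levT_succ O n a m a'
  set x := br T with hx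
  have key : ∀ V : Ult B, (⨅ i : ℕ, lev O n a (n + i) 0 ∅) ∈ V.s → ∀ m, ∃ c,
      c ⊆ Finset.range (max m n) ∧ c ∩ Finset.range n = a ∧
      c ∩ Finset.range m = tr V x m ∧ O.O (max m n) c ∉ V.s := by
    intro V hV m
    have h1 := br_spec T hTs V (hT0 V hV) m
    have h2 : lev O n a (max m n + 0) m (tr V (br T) m) ∈ V.s := V.mono (iInf_le _ 0) h1
    rw [add_zero, lev_mem] at h2
    exact h2
  -- the branch is in the cylinder
  have h1 : cutV x n a ∈ U.s := by
    rw [cutV_iff_tr U x n a ha]
    obtain ⟨c, -, hc1, hc2, -⟩ := key U hU n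
    rw [← hc1, hc2]
  have h2 := h (cl U (rN x)) (rN_sub U x) ((cut_iff U x n a ha).2 h1)
  rw [mem_setN O.rext] at h2
  -- but not in the open set
  have h3 : (⨅ i : ℕ, lev O n a (n + i) 0 ∅) ⊓ O.mem x ≤ ⊥ := by
    rw [OpnC.mem, inf_iSup_eq]
    refine iSup_le fun m => ?_
    rw [inf_iSup_eq]
    refine iSup_le fun a' => ?_
    rw [inf_iSup_eq]
    refine iSup_le fun ha' => ?_
    rw [le_iff_ult]
    intro V hV
    exfalso
    rw [V.inf, V.inf, cutV_iff_tr V x m a' ha'] at hV
    obtain ⟨hV1, hV2, hV3⟩ := hV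
    obtain ⟨c, hc, -, hc2, hc3⟩ := key V hV1 m
    apply hc3
    have h4 := O.mono2 (le_max_left m n) c hc
    rw [hc2, ← hV3] at h4
    exact V.mono h4 hV2
  exact U.bot (U.mono h3 ((U.inf _ _).2 ⟨hU, h2⟩))

theorem iSup_inf_finset {ι : Type*} (S : Finset ι) (e : ι → ℕ → B) (he : ∀ a, Monotone (e a)) :
    S.inf (fun a => ⨆ i, e a i) = ⨆ i, S.inf (fun a => e a i) := by
  classical
  induction S using Finset.induction_on with
  | empty => simp
  | insert a S ha ih =>
    simp only [Finset.inf_insert]
    rw [ih]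
    have hm : Monotone fun i => S.inf (fun a => e a i) := by
      intro i j hij
      exact Finset.inf_mono_fun fun a _ => he a hij
    exact (iSup_inf_of_monotone (he a) hm).symm

/-- number of extensions of a set of cylinders -/
theorem card_ext (n i : ℕ) (S : Finset (Finset ℕ)) (hS : ∀ a ∈ S, a ⊆ Finset.range n) :
    ((Finset.range (n + i)).powerset.filter (fun c => c ∩ Finset.range n ∈ S)).card =
      2 ^ i * S.card := by
  classical
  have h1 : ((Finset.range (n + i)).powerset.filter (fun c => c ∩ Finset.range n ∈ S)) =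
      (S ×ˢ (Finset.Ico n (n + i)).powerset).image (fun p => p.1 ∪ p.2) := by
    ext c
    simp only [Finset.mem_filter, Finset.mem_powerset, Finset.mem_image, Finset.mem_product,
      Prod.exists]
    constructor
    · rintro ⟨h1, h2⟩
      refine ⟨c ∩ Finset.range n, c ∩ Finset.Ico n (n + i), ⟨h2, Finset.inter_subset_right⟩, ?_⟩
      ext j
      simp only [Finset.mem_union, Finset.mem_inter, Finset.mem_range, Finset.mem_Ico]
      constructor
      · rintro (h | h) <;> exact h.1
      · intro hj
        have := Finset.mem_range.1 (h1 hj)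
        by_cases hjn : j < n
        · exact Or.inl ⟨hj, hjn⟩
        · exact Or.inr ⟨hj, not_lt.1 hjn, this⟩
    · rintro ⟨a, b, ⟨ha, hb⟩, rfl⟩
      constructor
      · intro j hj
        rcases Finset.mem_union.1 hj with h | h
        · have := Finset.mem_range.1 (hS a ha h)
          exact Finset.mem_range.2 (by omega)
        · have := Finset.mem_Ico.1 (hb h)
          exact Finset.mem_range.2 this.2
      · have : (a ∪ b) ∩ Finset.range n = a := by
          ext j
          simp only [Finset.mem_union, Finset.mem_inter, Finset.mem_range]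
          constructor
          · rintro ⟨h | h, h'⟩
            · exact h
            · have := Finset.mem_Ico.1 (hb h)
              omega
          · intro h
            exact ⟨Or.inl h, Finset.mem_range.1 (hS a ha h)⟩
        rw [this]; exact ha
  rw [h1, Finset.card_image_of_injOn, Finset.card_product, Finset.card_powerset, Nat.card_Ico]
  · rw [Nat.add_sub_cancel_left, mul_comm]
  · rintro ⟨a, b⟩ hab ⟨a', b'⟩ hab' h
    simp only [Finset.coe_product, Set.mem_prod, Finset.mem_coe, Finset.mem_powerset] at hab hab'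
    have h : a ∪ b = a' ∪ b' := h
    have key : ∀ a b : Finset ℕ, a ∈ S → b ⊆ Finset.Ico n (n + i) →
        a = (a ∪ b) ∩ Finset.range n ∧ b = (a ∪ b) ∩ Finset.Ico n (n + i) := by
      intro a b ha hb
      constructor
      · ext j
        simp only [Finset.mem_union, Finset.mem_inter, Finset.mem_range]
        constructor
        · intro h
          exact ⟨Or.inl h, Finset.mem_range.1 (hS a ha h)⟩
        · rintro ⟨h | h, h'⟩
          · exact h
          · have := Finset.mem_Ico.1 (hb h)
            omega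
      · ext j
        simp only [Finset.mem_union, Finset.mem_inter]
        constructor
        · intro h
          exact ⟨Or.inr h, hb h⟩
        · rintro ⟨h | h, h'⟩
          · have := Finset.mem_range.1 (hS a ha h)
            have := Finset.mem_Ico.1 h'
            omega
          · exact h
    have k1 := key a b hab.1 hab.2
    have k2 := key a' b' hab'.1 hab'.2
    rw [Prod.mk.injEq]
    refine ⟨?_, ?_⟩
    · rw [k1.1, k2.1, h]
    · rw [k1.2, k2.2, h]

/-- few cylinders of a standard level are contained in the open set -/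
theorem card_cyl (O : OpnC B) (k n : ℕ) (hO : O.Le k) (U : Ult B) (S : Finset (Finset ℕ))
    (hS : ∀ a ∈ S, a ⊆ Finset.range n) (h : ∀ a ∈ S, CylIn (EU U) (cl U (oN B ω))
      (cl U (oN B n)) (cl U (fN B a)) (cl U (setN O.mem))) : 2 ^ k * S.card ≤ 2 ^ n := by
  classical
  by_contra hlt
  rw [not_le] at hlt
  have h1 : S.inf (fun a => ⨆ i : ℕ, (lev O n a (n + i) 0 ∅)ᶜ) ∈ U.s := by
    rw [U.finset_inf]
    exact fun a ha => cyl_compact O n a U (hS a ha) (h a ha)
  rw [iSup_inf_finset] at h1
  · have h2 : (⨆ i : ℕ, S.inf fun a => (lev O n a (n + i) 0 ∅)ᶜ) ≤ ⊥ := by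
      refine iSup_le fun i => ?_
      rw [le_iff_ult]
      intro V hV
      exfalso
      rw [V.finset_inf] at hV
      set A := (Finset.range (n + i)).powerset.filter (fun c => c ∩ Finset.range n ∈ S) with hA
      have h3 : ⨅ c ∈ A, O.O (n + i) c = ⊥ := by
        apply hO
        · intro c hc
          exact Finset.mem_powerset.1 (Finset.mem_filter.1 hc).1
        · rw [hA, card_ext n i S hS, pow_add]
          calc 2 ^ n * 2 ^ i < (2 ^ k * S.card) * 2 ^ i :=
                Nat.mul_lt_mul_of_pos_right hlt (by positivity)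
            _ = 2 ^ k * (2 ^ i * S.card) := by ring
      have h4 : (⨅ c ∈ A, O.O (n + i) c) ∈ V.s := by
        rw [V.biInf_finset]
        intro c hc
        by_contra hc'
        have h5 := hV _ (Finset.mem_filter.1 hc).2
        rw [V.compl, lev_mem] at h5
        apply h5
        exact ⟨c, Finset.mem_powerset.1 (Finset.mem_filter.1 hc).1, rfl, by simp, hc'⟩
      rw [h3] at h4
      exact V.bot h4
    exact U.bot (U.mono h2 h1)
  · intro a i j hij
    apply compl_le_compl
    apply lev_anti <;> omega

end CI
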