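import Pool.Agent.CI.T.Df

/-!
# Project CI: the notions of the problem have truth values
-/

set_option autoImplicit false

namespace CI

universe u v

variable {B : Type u} [CompleteBooleanAlgebra B] {G : Type v}

open BSet Ordinal

theorem Df.Sub (x y : G → BSet B) : Df (fun U g => CI.Sub (EU U) (cl U (x g)) (cl U (y g))) := by
  unfold CI.Sub
  exact Df.all (Df.imp (Df.mem _ _) (Df.mem _ _))

theorem Df.IsEmp (x : G → BSet B) : Df (fun U g => CI.IsEmp (EU U) (cl U (x g))) := by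
  unfold CI.IsEmp
  exact Df.all (Df.not (Df.mem _ _))

theorem Df.IsPair (p x y : G → BSet B) :
    Df (fun U g => CI.IsPair (EU U) (cl U (p g)) (cl U (x g)) (cl U (y g))) := by
  unfold CI.IsPair
  refine Df.all (Df.iff (Df.mem _ _) (Df.or (Df.all (Df.iff (Df.mem _ _) (Df.eq _ _)))
    (Df.all (Df.iff (Df.mem _ _) (Df.or (Df.eq _ _) (Df.eq _ _))))))

theorem Df.Rel (r x y : G → BSet B) :
    Df (fun U g => CI.Rel (EU U) (cl U (r g)) (cl U (x g)) (cl U (y g))) := by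
  unfold CI.Rel
  exact Df.ex (Df.and (Df.IsPair _ _ _) (Df.mem _ _))

theorem Df.exu {R : ∀ U : Ult B, G → MU U → Prop}
    (h : Df (G := G × BSet B) (fun U x => R U x.1 (cl U x.2))) :
    Df (fun U x => ∃! y, R U x y) := by
  unfold ExistsUnique
  refine Df.ex (Df.and h (Df.all (Df.imp ?_ (Df.eq _ _))))
  exact h.comp (fun z : (G × BSet B) × BSet B => (z.1.1, z.2))

theorem Df.IsFn (f a : G → BSet B) :
    Df (fun U g => CI.IsFn (EU U) (cl U (f g)) (cl U (a g))) := by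
  unfold CI.IsFn
  refine Df.and (Df.all (Df.imp (Df.mem _ _) (Df.ex (Df.ex (Df.and (Df.mem _ _)
    (Df.IsPair _ _ _)))))) (Df.all (Df.imp (Df.mem _ _) (Df.exu (Df.Rel _ _ _))))

theorem Df.IsMap (f a b : G → BSet B) :
    Df (fun U g => CI.IsMap (EU U) (cl U (f g)) (cl U (a g)) (cl U (b g))) := by
  unfold CI.IsMap
  refine Df.and (Df.IsFn _ _) (Df.all (Df.all (Df.imp (Df.Rel _ _ _) (Df.mem _ _))))

theorem Df.Cut (x n a : G → BSet B) :
    Df (fun U g => CI.Cut (EU U) (cl U (x g)) (cl U (n g)) (cl U (a g))) := by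
  unfold CI.Cut
  exact Df.all (Df.iff (Df.mem _ _) (Df.and (Df.mem _ _) (Df.mem _ _)))

theorem Df.CylIn (w n a y : G → BSet B) :
    Df (fun U g => CI.CylIn (EU U) (cl U (w g)) (cl U (n g)) (cl U (a g)) (cl U (y g))) := by
  unfold CI.CylIn
  exact Df.all (Df.imp (Df.Sub _ _) (Df.imp (Df.Cut _ _ _) (Df.mem _ _)))

theorem Df.IsOpn (w y : G → BSet B) :
    Df (fun U g => CI.IsOpn (EU U) (cl U (w g)) (cl U (y g))) := by
  unfold CI.IsOpn
  exact Df.and (Df.all (Df.imp (Df.mem _ _) (Df.Sub _ _)))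
    (Df.all (Df.imp (Df.mem _ _) (Df.ex (Df.ex (Df.and (Df.mem _ _) (Df.and (Df.Cut _ _ _)
      (Df.CylIn _ _ _ _)))))))

theorem Df.MeasLe (w y k : G → BSet B) :
    Df (fun U g => CI.MeasLe (EU U) (cl U (w g)) (cl U (y g)) (cl U (k g))) := by
  unfold CI.MeasLe
  refine Df.all (Df.imp (Df.mem _ _) (Df.ex (Df.and ?_ ?_)))
  · exact Df.all (Df.all (Df.imp (Df.Sub _ _) (Df.imp (Df.Sub _ _) (Df.imp (Df.CylIn _ _ _ _)
      (Df.ex (Df.ex (Df.and (Df.IsPair _ _ _) (Df.and (Df.Sub _ _) (Df.Rel _ _ _)))))))))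
  · exact Df.all (Df.all (Df.all (Df.imp (Df.Rel _ _ _) (Df.imp (Df.Rel _ _ _) (Df.eq _ _)))))

theorem Df.Null (w : G → BSet B) {R : ∀ U : Ult B, G → MU U → Prop}
    (h : Df (G := G × BSet B) (fun U x => R U x.1 (cl U x.2))) :
    Df (fun U g => CI.Null (EU U) (cl U (w g)) (R U g)) := by
  unfold CI.Null
  refine Df.all (Df.imp (Df.mem _ _) (Df.ex (Df.and (Df.IsOpn _ _) (Df.and (Df.MeasLe _ _ _)
    (Df.all (Df.imp (Df.Sub _ _) (Df.imp ?_ (Df.mem _ _))))))))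
  exact h.comp (fun z : ((G × BSet B) × BSet B) × BSet B => (z.1.1.1, z.2))

theorem Df.ClosedP (w : G → BSet B) {R : ∀ U : Ult B, G → MU U → Prop}
    (h : Df (G := G × BSet B) (fun U x => R U x.1 (cl U x.2))) :
    Df (fun U g => CI.ClosedP (EU U) (cl U (w g)) (R U g)) := by
  unfold CI.ClosedP
  refine Df.all (Df.imp (Df.Sub _ _) (Df.imp (Df.not h) (Df.ex (Df.ex (Df.and (Df.mem _ _)
    (Df.and (Df.Cut _ _ _) (Df.all (Df.imp (Df.Sub _ _) (Df.imp (Df.Cut _ _ _)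
      (Df.not ?_))))))))))
  exact h.comp (fun z : (((G × BSet B) × BSet B) × BSet B) × BSet B => (z.1.1.1.1, z.2))

theorem Df.NullE (w : G → BSet B) {R : ∀ U : Ult B, G → MU U → Prop}
    (h : Df (G := G × BSet B) (fun U x => R U x.1 (cl U x.2))) :
    Df (fun U g => CI.NullE (EU U) (cl U (w g)) (R U g)) := by
  unfold CI.NullE
  refine Df.ex (Df.and (Df.all (Df.imp (Df.mem _ _) (Df.and ?_ ?_)))
    (Df.all (Df.imp (Df.Sub _ _) (Df.imp ?_ (Df.ex (Df.and (Df.mem _ _) (Df.Rel _ _ _)))))))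
  · exact Df.ClosedP _ (Df.Rel _ _ _)
  · exact Df.Null _ (Df.Rel _ _ _)
  · exact h.comp (fun z : (G × BSet B) × BSet B => (z.1.1, z.2))

theorem Df.Meager (w : G → BSet B) {R : ∀ U : Ult B, G → MU U → Prop}
    (h : Df (G := G × BSet B) (fun U x => R U x.1 (cl U x.2))) :
    Df (fun U g => CI.Meager (EU U) (cl U (w g)) (R U g)) := by
  unfold CI.Meager
  refine Df.ex (Df.and (Df.all (Df.imp (Df.mem _ _) (Df.and ?_ ?_)))
    (Df.all (Df.imp (Df.Sub _ _) (Df.imp ?_ (Df.ex (Df.and (Df.mem _ _) (Df.Rel _ _ _)))))))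
  · exact Df.ClosedP _ (Df.Rel _ _ _)
  · exact Df.all (Df.all (Df.imp (Df.mem _ _) (Df.imp (Df.Sub _ _) (Df.ex (Df.and (Df.Sub _ _)
      (Df.and (Df.Cut _ _ _) (Df.not (Df.Rel _ _ _))))))))
  · exact h.comp (fun z : (G × BSet B) × BSet B => (z.1.1, z.2))

theorem Df.LeStar (w f k : G → BSet B) :
    Df (fun U g => CI.LeStar (EU U) (cl U (w g)) (cl U (f g)) (cl U (k g))) := by
  unfold CI.LeStar
  refine Df.ex (Df.and (Df.mem _ _) (Df.all (Df.all (Df.all (Df.imp (Df.mem _ _)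
    (Df.imp (Df.not (Df.mem _ _)) (Df.imp (Df.Rel _ _ _) (Df.imp (Df.Rel _ _ _)
      (Df.or (Df.eq _ _) (Df.mem _ _))))))))))

end CI
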