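import Pool.Agent.CI.T.Meas

/-!
# Project CI: null sets and codes
-/

set_option autoImplicit false

namespace CI

universe u v

variable {B : Type u} [CompleteBooleanAlgebra B] {G : Type v}

open BSet Ordinal

theorem Df.MeasIn (w y k n : G → BSet B) : Df (fun U g =>
    ∃ f, (∀ b a, CI.Sub (EU U) b (cl U (k g)) → CI.Sub (EU U) a (cl U (n g)) →
      CI.CylIn (EU U) (cl U (w g)) (cl U (n g)) a (cl U (y g)) →
      ∃ p c, CI.IsPair (EU U) p b a ∧ CI.Sub (EU U) c (cl U (n g)) ∧ CI.Rel (EU U) f p c) ∧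
    (∀ p q c, CI.Rel (EU U) f p c → CI.Rel (EU U) f q c → p = q)) := by
  refine Df.ex (Df.and ?_ ?_)
  · exact Df.all (Df.all (Df.imp (Df.Sub _ _) (Df.imp (Df.Sub _ _) (Df.imp (Df.CylIn _ _ _ _)
      (Df.ex (Df.ex (Df.and (Df.IsPair _ _ _) (Df.and (Df.Sub _ _) (Df.Rel _ _ _)))))))))
  · exact Df.all (Df.all (Df.all (Df.imp (Df.Rel _ _ _) (Df.imp (Df.Rel _ _ _) (Df.eq _ _)))))

/-- the open set of a code has the right measure -/
theorem measLe_setN (O : OpnC B) (k : ℕ) (hO : O.Le k) (U : Ult B) :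
    MeasLe (EU U) (cl U (oN B ω)) (cl U (setN O.mem)) (cl U (oN B k)) := by
  classical
  intro n hn
  refine ball_omega (R := fun U n =>
    ∃ f, (∀ b a, CI.Sub (EU U) b (cl U (oN B k)) → CI.Sub (EU U) a n →
      CI.CylIn (EU U) (cl U (oN B ω)) n a (cl U (setN O.mem)) →
      ∃ p c, CI.IsPair (EU U) p b a ∧ CI.Sub (EU U) c n ∧ CI.Rel (EU U) f p c) ∧
    (∀ p q c, CI.Rel (EU U) f p c → CI.Rel (EU U) f q c → p = q))
    (Df.MeasIn (fun _ => oN B ω) (fun _ => setN O.mem) (fun _ => oN B k) (fun x => x))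
    ⊤ ?_ U U.top n hn
  intro U _ n
  -- the standard cylinders contained in the open set
  set S := (Finset.range n).powerset.filter (fun a => CylIn (EU U) (cl U (oN B ω))
    (cl U (oN B n)) (cl U (fN B a)) (cl U (setN O.mem))) with hS
  have hcard : 2 ^ k * S.card ≤ 2 ^ n := by
    apply card_cyl O k n hO U S
    · intro a ha
      exact Finset.mem_powerset.1 (Finset.mem_filter.1 ha).1
    · intro a ha
      exact (Finset.mem_filter.1 ha).2
  have hemb : Nonempty ((↥(Finset.range k).powerset × ↥S) ↪ ↥(Finset.range n).powerset) := by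
    apply Function.Embedding.nonempty_of_card_le
    rw [Fintype.card_prod, Fintype.card_coe, Fintype.card_coe, Fintype.card_coe,
      Finset.card_powerset, Finset.card_powerset, Finset.card_range, Finset.card_range]
    exact hcard
  obtain ⟨g⟩ := hemb
  let I := ULift.{u} (↥(Finset.range k).powerset × ↥S)
  let X : I → BSet B := fun i => opN (fN B i.down.1.1) (fN B i.down.2.1)
  let Y : I → BSet B := fun i => fN B (g i.down).1
  have hrel : ∀ p c : MU U, Rel (EU U) (cl U (relN (fun _ : I => (⊤ : B)) X Y)) p c ↔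
      ∃ i : I, p = cl U (X i) ∧ c = cl U (Y i) := by
    intro p c
    obtain ⟨p, rfl⟩ := cl_surj U p
    obtain ⟨c, rfl⟩ := cl_surj U c
    rw [rel_relN, U.iSup_fin]
    simp only [top_inf_eq, U.inf, cl_eq]
  refine ⟨cl U (relN (fun _ : I => (⊤ : B)) X Y), ?_, ?_⟩
  · intro b a hb ha hc
    obtain ⟨b, hb', rfl⟩ := exists_fN U k b hb
    obtain ⟨a, ha', rfl⟩ := exists_fN U n a ha
    let i : I := ⟨(⟨b, Finset.mem_powerset.2 hb'⟩,
      ⟨a, Finset.mem_filter.2 ⟨Finset.mem_powerset.2 ha', hc⟩⟩)⟩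
    refine ⟨cl U (X i), cl U (Y i), isPair_opN U _ _, ?_, (hrel _ _).2 ⟨i, rfl, rfl⟩⟩
    rw [fN_sub]
    exact Finset.mem_powerset.1 (g i.down).2
  · intro p q c hp hq
    obtain ⟨i, rfl, rfl⟩ := (hrel _ _).1 hp
    obtain ⟨j, rfl, hj⟩ := (hrel _ _).1 hq
    have h1 : (g i.down).1 = (g j.down).1 := (fN_inj U).1 hj
    have h2 : i.down = j.down := g.injective (Subtype.ext h1)
    have h3 : i = j := ULift.ext _ _ h2
    rw [h3]

/-- codes give null sets -/
theorem null_of (c : NulC B) (b : B) {R : ∀ U : Ult B, MU U → Prop}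
    (hR : Df (G := BSet B) (fun U x => R U (cl U x)))
    (h : ∀ U : Ult B, b ∈ U.s → ∀ x : ℕ → B, R U (cl U (rN x)) → c.mem x ∈ U.s)
    (U : Ult B) (hU : b ∈ U.s) : Null (EU U) (cl U (oN B ω)) (R U) := by
  intro k hk
  refine ball_omega (R := fun U k => ∃ y, IsOpn (EU U) (cl U (oN B ω)) y ∧
    MeasLe (EU U) (cl U (oN B ω)) y k ∧ ∀ x, Sub (EU U) x (cl U (oN B ω)) → R U x → EU U x y)
    ?_ b ?_ U hU k hk
  · refine Df.ex (Df.and (Df.IsOpn _ _) (Df.and (Df.MeasLe _ _ _)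
      (Df.all (Df.imp (Df.Sub _ _) (Df.imp ?_ (Df.mem _ _))))))
    exact hR.comp (fun z : (BSet B × BSet B) × BSet B => z.2)
  · intro U hU k
    refine ⟨cl U (setN (c.U k).mem), isOpn_setN _ U, measLe_setN _ k (c.le k) U, ?_⟩
    intro x hx hRx
    obtain ⟨x, rfl⟩ := exists_rN U x hx
    rw [mem_setN (OpnC.rext _)]
    exact U.mono (iInf_le _ k) (h U hU x hRx)

/-- the maximum principle for definable properties -/
theorem exists_name {R : ∀ U : Ult B, MU U → Prop}
    (hR : Df (G := BSet B) (fun U x => R U (cl U x))) (b : B)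
    (h : ∀ U : Ult B, b ∈ U.s → ∃ x, R U x) :
    ∃ x : BSet B, ∀ U : Ult B, b ∈ U.s → R U (cl U x) := by
  obtain ⟨P, hP⟩ := hR
  have hL : Los P R := hP
  obtain ⟨x, hx⟩ := exists_max hL.ext
  refine ⟨x, fun U hU => ?_⟩
  rw [hL U x, hx]
  exact (hL.ex U).1 (h U hU)

theorem cylIn_mono (U : Ult B) (n : ℕ) (a : Finset ℕ) (ha : a ⊆ Finset.range n) (y : MU U)
    (h : CylIn (EU U) (cl U (oN B ω)) (cl U (oN B n)) (cl U (fN B a)) y) (c : Finset ℕ)
    (hc : c = a ∨ c = insert n a) :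
    CylIn (EU U) (cl U (oN B ω)) (cl U (oN B (n + 1 : ℕ))) (cl U (fN B c)) y := by
  intro x hx hxc
  obtain ⟨x, rfl⟩ := exists_rN U x hx
  have hcn : c ⊆ Finset.range (n + 1) := by
    rcases hc with rfl | rfl
    · exact ha.trans (Finset.range_mono (Nat.le_succ n))
    · intro i hi
      rcases Finset.mem_insert.1 hi with rfl | hi
      · exact Finset.self_mem_range_succ _
      · exact Finset.range_mono (Nat.le_succ n) (ha hi)
  rw [cut_iff U x (n + 1) c hcn, cutV_mem] at hxc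
  apply h _ hx
  rw [cut_iff U x n a ha, cutV_mem]
  intro i hi
  rw [← hxc i (hi.trans (Nat.lt_succ_self n))]
  rcases hc with rfl | rfl
  · exact Iff.rfl
  · rw [Finset.mem_insert]
    constructor
    · exact fun h => Or.inr h
    · rintro (h | h)
      · exact absurd h hi.ne
      · exact h

/-- the count of standard cylinders in a set of small measure -/
theorem card_of_measLe (U : Ult B) (y : MU U) (k n : ℕ)
    (h : MeasLe (EU U) (cl U (oN B ω)) y (cl U (oN B k))) (A : Finset (Finset ℕ))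
    (hA : ∀ a ∈ A, a ⊆ Finset.range n)
    (hc : ∀ a ∈ A, CylIn (EU U) (cl U (oN B ω)) (cl U (oN B n)) (cl U (fN B a)) y) :
    2 ^ k * A.card ≤ 2 ^ n := by
  classical
  obtain ⟨g, hg1, hg2⟩ := h _ (nat_mem_omega U n)
  have h1 : ∀ p : ↥((Finset.range k).powerset ×ˢ A), ∃ c : ↥(Finset.range n).powerset,
      Rel (EU U) g (cl U (opN (fN B p.1.1) (fN B p.1.2))) (cl U (fN B c.1)) := by
    rintro ⟨⟨b, a⟩, hp⟩
    rw [Finset.mem_product] at hp
    obtain ⟨p, c, hp1, hp2, hp3⟩ := hg1 (cl U (fN B b)) (cl U (fN B a))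
      ((fN_sub U b k).2 (Finset.mem_powerset.1 hp.1)) ((fN_sub U a n).2 (hA a hp.2))
      (hc a hp.2)
    obtain ⟨c, hc1, rfl⟩ := exists_fN U n c hp2
    refine ⟨⟨c, Finset.mem_powerset.2 hc1⟩, ?_⟩
    have := hp1.uniq (zfc U) (isPair_opN U _ _)
    rwa [this] at hp3
  choose f hf using h1
  have hinj : Function.Injective f := by
    rintro ⟨⟨b, a⟩, hp⟩ ⟨⟨b', a'⟩, hp'⟩ heq
    have h2 := hf ⟨(b, a), hp⟩
    have h3 := hf ⟨(b', a'), hp'⟩
    rw [heq] at h2
    have h4 := hg2 _ _ _ h2 h3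
    have h5 := isPair_opN U (fN B b) (fN B a)
    change cl U (opN (fN B b) (fN B a)) = cl U (opN (fN B b') (fN B a')) at h4
    rw [h4] at h5
    obtain ⟨h6, h7⟩ := h5.inj (zfc U) (isPair_opN U _ _)
    rw [fN_inj] at h6 h7
    subst h6; subst h7
    rfl
  have h2 := Fintype.card_le_of_injective f hinj
  rw [Fintype.card_coe, Fintype.card_coe, Finset.card_product, Finset.card_powerset,
    Finset.card_powerset, Finset.card_range, Finset.card_range] at h2
  exact h2

/-- null sets are covered by codes -/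
theorem exists_nulC (b : B) {R : ∀ U : Ult B, MU U → Prop}
    (hR : Df (G := BSet B) (fun U x => R U (cl U x)))
    (h : ∀ U : Ult B, b ∈ U.s → Null (EU U) (cl U (oN B ω)) (R U)) :
    ∃ c : NulC B, ∀ U : Ult B, b ∈ U.s → ∀ x : ℕ → B, R U (cl U (rN x)) → c.mem x ∈ U.s := by
  -- names of the open sets
  have h1 : ∀ k : ℕ, ∃ y : BSet B, ∀ U : Ult B, b ∈ U.s →
      IsOpn (EU U) (cl U (oN B ω)) (cl U y) ∧
      MeasLe (EU U) (cl U (oN B ω)) (cl U y) (cl U (oN B k)) ∧
      ∀ x, Sub (EU U) x (cl U (oN B ω)) → R U x → EU U x (cl U y) := by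
    intro k
    refine exists_name (R := fun U y => IsOpn (EU U) (cl U (oN B ω)) y ∧
      MeasLe (EU U) (cl U (oN B ω)) y (cl U (oN B k)) ∧
      ∀ x, Sub (EU U) x (cl U (oN B ω)) → R U x → EU U x y) ?_ b ?_
    · refine Df.and (Df.IsOpn _ _) (Df.and (Df.MeasLe _ _ _)
        (Df.all (Df.imp (Df.Sub _ _) (Df.imp ?_ (Df.mem _ _)))))
      exact hR.comp (fun z : BSet B × BSet B => z.2)
    · intro U hU
      exact h U hU _ (nat_mem_omega U k)
  choose y hy using h1
  have h2 : ∀ k n a, ∃ P : B, ∀ U : Ult B, (b ∈ U.s ∧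
      CylIn (EU U) (cl U (oN B ω)) (cl U (oN B (n : ℕ))) (cl U (fN B a)) (cl U (y k))) ↔
        P ∈ U.s := by
    intro k n a
    obtain ⟨P, hP⟩ := (Df.and (Df.val (fun _ : Unit => b)) (Df.CylIn (B := B) (G := Unit)
      (fun _ => oN B ω) (fun _ => oN B n) (fun _ => fN B a) (fun _ => y k)))
    exact ⟨P (), fun U => hP U ()⟩
  choose P hP using h2
  let O : ℕ → OpnC B := fun k =>
    { O := fun n a => P k n a
      mono := by
        intro n a ha
        rw [le_iff_ult]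
        intro U hU
        rw [← hP] at hU
        rw [U.inf, ← hP, ← hP]
        exact ⟨⟨hU.1, cylIn_mono U n a ha _ hU.2 a (Or.inl rfl)⟩,
          hU.1, cylIn_mono U n a ha _ hU.2 _ (Or.inr rfl)⟩ }
  refine ⟨⟨O, ?_⟩, ?_⟩
  · intro k n A hA hlt
    by_contra hne
    obtain ⟨U, hU⟩ := exists_ult hne
    rw [U.biInf_finset] at hU
    have hUb : b ∈ U.s := by
      have hne : A.Nonempty := by
        rw [Finset.nonempty_iff_ne_empty]
        rintro rfl
        simp at hlt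
      obtain ⟨a, ha⟩ := hne
      have := hU a ha
      exact ((hP k n a U).2 this).1
    have h3 := card_of_measLe U (cl U (y k)) k n (hy k U hUb).2.1 A hA
      (fun a ha => ((hP k n a U).2 (hU a ha)).2)
    omega
  · -- every `k`
    have key : ∀ U : Ult B, b ∈ U.s → ∀ x : ℕ → B, R U (cl U (rN x)) →
        ∀ k, b ⊓ ((O k).mem x)ᶜ ∈ U.s → False := by
      intro U hU x hx k hk
      have h3 : ∀ V : Ult B, b ⊓ ((O k).mem x)ᶜ ∈ V.s → ∀ n : ℕ, ∀ a,
          ¬ (Cut (EU V) (cl V (rN x)) (cl V (oN B n)) a ∧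
            CylIn (EU V) (cl V (oN B ω)) (cl V (oN B n)) a (cl V (y k))) := by
        rintro V hV n a ⟨ha1, ha2⟩
        rw [V.inf, V.compl] at hV
        obtain ⟨a, ha, rfl⟩ := cut_exists V _ n a ha1
        rw [cut_iff V x n a ha] at ha1
        apply hV.2
        refine V.mono ((O k).mem_of x n a ha) ((V.inf _ _).2 ⟨?_, ha1⟩)
        exact (hP k n a V).1 ⟨hV.1, ha2⟩
      have h4 := (hy k U hU).1.2 (cl U (rN x)) ((hy k U hU).2.2 _ (rN_sub U x) hx)
      obtain ⟨n, a, hn, ha1, ha2⟩ := h4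
      refine ball_omega (R := fun U n => ∀ a, ¬ (Cut (EU U) (cl U (rN x)) n a ∧
        CylIn (EU U) (cl U (oN B ω)) n a (cl U (y k)))) ?_ _ h3 U hk n hn a ⟨ha1, ha2⟩
      exact Df.all (Df.not (Df.and (Df.Cut _ _ _) (Df.CylIn _ _ _ _)))
    intro U hU x hx
    obtain ⟨Q, hQ⟩ := hR
    have hle : b ⊓ Q (rN x) ≤ ⨅ k, (O k).mem x := by
      refine le_iInf fun k => ?_
      rw [le_iff_ult]
      intro V hV
      rw [V.inf] at hV
      by_contra hc
      exact key V hV.1 x ((hQ V _).2 hV.2) k ((V.inf _ _).2 ⟨hV.1, (V.compl _).2 hc⟩)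
    exact U.mono hle ((U.inf _ _).2 ⟨hU, (hQ U _).1 hx⟩)

end CI
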