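import Pool.Agent.CI.T.Los

/-!
# Project CI: operations on names, and the axioms of ZFC in the two-valued models
-/

set_option autoImplicit false

namespace CI

universe u

variable {B : Type u} [CompleteBooleanAlgebra B]

open BSet

namespace BSet

/-- separation -/
def sepN (v : BSet B) (P : BSet B → B) : BSet B :=
  mk v.Ty v.el (fun a => v.tv a ⊓ P (v.el a))

theorem bmem_sepN {P : BSet B → B} (hP : Ext P) (z v : BSet B) :
    bmem z (sepN v P) = bmem z v ⊓ P z := by
  apply le_antisymm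
  · rw [bmem]
    refine iSup_le fun a => ?_
    change (v.tv a ⊓ P (v.el a)) ⊓ beq z (v.el a) ≤ _
    have h1 : v.tv a ⊓ beq z (v.el a) ≤ bmem z v := le_iSup (fun a => v.tv a ⊓ beq z (v.el a)) a
    have h2 : P (v.el a) ⊓ beq z (v.el a) ≤ P z := by
      rw [beq_symm, inf_comm]; exact hP _ _
    refine le_inf ?_ ?_
    · exact le_trans (inf_le_inf_right _ inf_le_left) h1
    · exact le_trans (inf_le_inf_right _ inf_le_right) h2
  · rw [bmem, iSup_inf_eq]
    refine iSup_mono fun a => ?_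
    change (v.tv a ⊓ beq z (v.el a)) ⊓ P z ≤ (v.tv a ⊓ P (v.el a)) ⊓ beq z (v.el a)
    refine le_inf (le_inf ?_ ?_) ?_
    · exact inf_le_left.trans inf_le_left
    · calc (v.tv a ⊓ beq z (v.el a)) ⊓ P z ≤ beq z (v.el a) ⊓ P z :=
            inf_le_inf_right _ inf_le_right
        _ ≤ P (v.el a) := hP _ _
    · exact inf_le_left.trans inf_le_right

/-- union of a family of names with truth values -/
def unN {I : Type u} (b : I → B) (v : I → BSet B) : BSet B :=
  mk (Σ i, (v i).Ty) (fun p => (v p.1).el p.2) (fun p => b p.1 ⊓ (v p.1).tv p.2)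

theorem bmem_unN {I : Type u} (b : I → B) (v : I → BSet B) (z : BSet B) :
    bmem z (unN b v) = ⨆ i, b i ⊓ bmem z (v i) := by
  have h : bmem z (unN b v) = ⨆ p : (Σ i, (v i).Ty),
      (b p.1 ⊓ (v p.1).tv p.2) ⊓ beq z ((v p.1).el p.2) := rfl
  rw [h, iSup_sigma]
  refine iSup_congr fun i => ?_
  rw [bmem, inf_iSup_eq]
  exact iSup_congr fun a => inf_assoc _ _ _

/-- unordered pair -/
def pairN (u v : BSet B) : BSet B :=
  mk (ULift.{u} Bool) (fun i => if i.down then u else v) (fun _ => ⊤)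

theorem bmem_pairN (u v z : BSet B) : bmem z (pairN u v) = beq z u ⊔ beq z v := by
  have h : bmem z (pairN u v) = ⨆ i : ULift.{u} Bool, (⊤ : B) ⊓
      beq z (if i.down then u else v) := rfl
  rw [h]
  apply le_antisymm
  · refine iSup_le fun i => ?_
    obtain ⟨i⟩ := i
    cases i <;> simp
  · refine sup_le ?_ ?_
    · exact le_iSup_of_le ⟨true⟩ (by simp)
    · exact le_iSup_of_le ⟨false⟩ (by simp)

/-- power set -/
def powN (v : BSet B) : BSet B :=
  mk (v.Ty → B) (fun f => mk v.Ty v.el (fun a => v.tv a ⊓ f a)) (fun _ => ⊤)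

/-- truth value of inclusion -/
def bsub (u v : BSet B) : B := ⨅ w, bmem w u ⇨ bmem w v

theorem bsub_inf_le (u v w : BSet B) : bsub u v ⊓ bmem w u ≤ bmem w v := by
  rw [← le_himp_iff]
  exact iInf_le _ w

theorem ext_bmem_left (v : BSet B) : Ext (fun z => bmem z v) := fun _ _ => bmem_congr_left _ _ _

theorem ext_bmem_right (u : BSet B) : Ext (fun z => bmem u z) := fun _ _ => bmem_congr_right _ _ _

theorem bmem_powN (v z : BSet B) : bmem z (powN v) = bsub z v := by
  have h : bmem z (powN v) = ⨆ f : v.Ty → B, (⊤ : B) ⊓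
      beq z (mk v.Ty v.el (fun a => v.tv a ⊓ f a)) := rfl
  rw [h]
  apply le_antisymm
  · refine iSup_le fun f => ?_
    refine inf_le_right.trans (le_iInf fun w => ?_)
    rw [le_himp_iff]
    refine (bmem_congr_right _ _ _).trans ?_
    refine iSup_le fun a => ?_
    refine le_iSup_of_le a ?_
    exact inf_le_inf_right _ inf_le_left
  · refine le_iSup_of_le (fun a => bmem (v.el a) z) ?_
    rw [top_inf_eq]
    change _ ≤ beq z (sepN v (fun w => bmem w z))
    apply le_beq_of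
    · intro w
      rw [bmem_sepN (ext_bmem_left z)]
      exact le_inf (bsub_inf_le _ _ _) inf_le_right
    · intro w
      rw [bmem_sepN (ext_bmem_left z)]
      exact inf_le_right.trans inf_le_right

end BSet

/-! ### Los pairs -/

theorem Los.and {P Q : BSet B → B} {P' Q' : ∀ U : Ult B, MU U → Prop} (h : Los P P')
    (h' : Los Q Q') : Los (fun x => P x ⊓ Q x) (fun U x => P' U x ∧ Q' U x) := by
  intro U x
  beta_reduce
  rw [U.inf, h U x, h' U x]

theorem Los.imp {P Q : BSet B → B} {P' Q' : ∀ U : Ult B, MU U → Prop} (h : Los P P')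
    (h' : Los Q Q') : Los (fun x => P x ⇨ Q x) (fun U x => P' U x → Q' U x) := by
  intro U x
  beta_reduce
  rw [U.himp, h U x, h' U x]

theorem Los.mem_left (v : BSet B) : Los (fun x => bmem x v) (fun U x => EU U x (cl U v)) :=
  fun _ _ => EU_cl

theorem Los.mem_right (v : BSet B) : Los (fun x => bmem v x) (fun U x => EU U (cl U v) x) :=
  fun _ _ => EU_cl

theorem Los.mono {P Q : BSet B → B} {P' Q' : ∀ U : Ult B, MU U → Prop} (h : Los P P')
    (h' : Los Q Q') (hle : ∀ x, P x ≤ Q x) (U : Ult B) (x : MU U) (hx : P' U x) : Q' U x := by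
  obtain ⟨u, rfl⟩ := cl_surj U x
  rw [h' U u]
  exact U.mono (hle u) ((h U u).1 hx)

theorem EU_sepN {P : BSet B → B} {P' : ∀ U : Ult B, MU U → Prop} (h : Los P P') (U : Ult B)
    (v : BSet B) (x : MU U) : EU U x (cl U (sepN v P)) ↔ EU U x (cl U v) ∧ P' U x := by
  obtain ⟨z, rfl⟩ := cl_surj U x
  rw [EU_cl, bmem_sepN h.ext, U.inf, h U z, EU_cl]

theorem EU_pairN (U : Ult B) (u v : BSet B) (x : MU U) :
    EU U x (cl U (pairN u v)) ↔ x = cl U u ∨ x = cl U v := by
  obtain ⟨z, rfl⟩ := cl_surj U x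
  rw [EU_cl, bmem_pairN, U.sup, cl_eq, cl_eq]

theorem bsub_mem (U : Ult B) (u v : BSet B) :
    bsub u v ∈ U.s ↔ ∀ z, EU U z (cl U u) → EU U z (cl U v) :=
  (((Los.mem_left u).imp (Los.mem_left v)).all U).symm

theorem EU_powN (U : Ult B) (v : BSet B) (x : MU U) :
    EU U x (cl U (powN v)) ↔ ∀ z, EU U z x → EU U z (cl U v) := by
  obtain ⟨w, rfl⟩ := cl_surj U x
  rw [EU_cl, bmem_powN, bsub_mem]

/-- extensionality in the two-valued model -/
theorem EU_ext (U : Ult B) (x y : MU U) (h : ∀ z, EU U z x ↔ EU U z y) : x = y := by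
  obtain ⟨u, rfl⟩ := cl_surj U x
  obtain ⟨v, rfl⟩ := cl_surj U y
  rw [cl_eq]
  have h1 : bsub u v ∈ U.s := (bsub_mem U u v).2 fun z hz => (h z).1 hz
  have h2 : bsub v u ∈ U.s := (bsub_mem U v u).2 fun z hz => (h z).2 hz
  refine U.mono ?_ ((U.inf _ _).2 ⟨h1, h2⟩)
  apply le_beq_of
  · intro w
    exact (inf_le_inf_right _ inf_le_left).trans (bsub_inf_le _ _ _)
  · intro w
    exact (inf_le_inf_right _ inf_le_right).trans (bsub_inf_le _ _ _)

/-- union in the two-valued model -/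
theorem EU_union (U : Ult B) (x : MU U) : ∃ y, ∀ z, EU U z y ↔ ∃ w, EU U w x ∧ EU U z w := by
  obtain ⟨u, rfl⟩ := cl_surj U x
  refine ⟨cl U (unN u.tv u.el), fun z => ?_⟩
  obtain ⟨t, rfl⟩ := cl_surj U z
  rw [EU_cl, bmem_unN, ← bex_eq (ext_bmem_right t) u]
  exact (((Los.mem_left u).and (Los.mem_right t)).ex U).symm

/-- foundation, Boolean form -/
theorem found_val (v : BSet B) : ∀ y : BSet B,
    bmem y v ≤ ⨆ y, bmem y v ⊓ ⨅ z, bmem z y ⇨ (bmem z v)ᶜ
  | mk A x b => by
    have ih := fun a => found_val v (x a)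
    set c := ⨆ y, bmem y v ⊓ ⨅ z, bmem z y ⇨ (bmem z v)ᶜ with hc
    set y := mk A x b with hy
    have h1 : bmem y v ⊓ (⨅ z, bmem z y ⇨ (bmem z v)ᶜ) ≤ c :=
      le_iSup (fun y => bmem y v ⊓ ⨅ z, bmem z y ⇨ (bmem z v)ᶜ) y
    have h2 : (⨅ z, bmem z y ⇨ (bmem z v)ᶜ)ᶜ ≤ c := by
      have hE : Ext (fun z => (bmem z v)ᶜ) := (Los.mem_left v).not.ext
      rw [ball_eq hE y, compl_iInf]
      refine iSup_le fun a => ?_
      rw [compl_himp, sdiff_eq, compl_compl]
      exact inf_le_right.trans (ih a)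
    calc bmem y v = (bmem y v ⊓ ⨅ z, bmem z y ⇨ (bmem z v)ᶜ) ⊔
          (bmem y v ⊓ (⨅ z, bmem z y ⇨ (bmem z v)ᶜ)ᶜ) := by
          rw [← inf_sup_left, sup_compl_eq_top, inf_top_eq]
      _ ≤ c := sup_le h1 (inf_le_right.trans h2)

end CI
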