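import Pool.Agent.CI.T.Notions

/-!
# Project CI: ordinals in the two-valued models
-/

set_option autoImplicit false

namespace CI

universe u v

variable {B : Type u} [CompleteBooleanAlgebra B] {G : Type v}

open BSet Ordinal

theorem Df.IsOrd (x : G → BSet B) : Df (fun U g => CI.IsOrd (EU U) (cl U (x g))) := by
  unfold CI.IsOrd
  exact Df.and (Df.all (Df.imp (Df.mem _ _) (Df.Sub _ _)))
    (Df.all (Df.imp (Df.mem _ _) (Df.all (Df.imp (Df.mem _ _) (Df.Sub _ _)))))

theorem Df.IsSucc (x y : G → BSet B) :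
    Df (fun U g => CI.IsSucc (EU U) (cl U (x g)) (cl U (y g))) := by
  unfold CI.IsSucc
  exact Df.all (Df.iff (Df.mem _ _) (Df.or (Df.mem _ _) (Df.eq _ _)))

theorem EU_oN_mono (U : Ult B) {a b : Ordinal.{u}} (h : a ≤ b) (z : MU U)
    (hz : EU U z (cl U (oN B a))) : EU U z (cl U (oN B b)) := by
  obtain ⟨z, rfl⟩ := cl_surj U z
  rw [EU_cl, bmem_oN] at *
  refine U.mono ?_ hz
  exact iSup₂_le fun c hc => le_iSup₂_of_le c (hc.trans_le h) le_rfl

theorem isOrd_oN (U : Ult B) (a : Ordinal.{u}) : IsOrd (EU U) (cl U (oN B a)) := by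
  have h1 : ∀ (U : Ult B) (a : Ordinal.{u}) (y : MU U), EU U y (cl U (oN B a)) →
      Sub (EU U) y (cl U (oN B a)) := by
    intro U a y hy
    refine ball_oN (R := fun U y => Sub (EU U) y (cl U (oN B a))) (Df.Sub _ _) a ⊤ ?_ U U.top
      y hy
    intro U _ b hb z hz
    exact EU_oN_mono U hb.le z hz
  refine ⟨h1 U a, fun y hy => ?_⟩
  refine ball_oN (R := fun U y => ∀ z, EU U z y → Sub (EU U) z y)
    (Df.all (Df.imp (Df.mem _ _) (Df.Sub _ _))) a ⊤ ?_ U U.top y hy
  intro U _ b _ z hz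
  exact h1 U b z hz

theorem IsOrd.mem {M : Type*} {E : M → M → Prop} {x y : M} (hx : IsOrd E x) (hy : E y x) :
    IsOrd E y :=
  ⟨hx.2 y hy, fun z hz => hx.2 z (hx.1 y hy z hz)⟩

/-- trichotomy with ground model ordinals -/
theorem trichotomy (a : Ordinal.{u}) : ∀ (U : Ult B) (j : MU U), IsOrd (EU U) j →
    j = cl U (oN B a) ∨ EU U j (cl U (oN B a)) ∨ EU U (cl U (oN B a)) j := by
  induction a using WellFoundedLT.induction with
  | _ a ih =>
    intro U j hj
    have hcmp : ∀ x, EU U x (cl U (oN B a)) → ∀ j, IsOrd (EU U) j →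
        j = x ∨ EU U j x ∨ EU U x j := by
      intro x hx
      refine ball_oN (R := fun U x => ∀ j, IsOrd (EU U) j → j = x ∨ EU U j x ∨ EU U x j)
        (Df.all (Df.imp (Df.IsOrd _) (Df.or (Df.eq _ _) (Df.or (Df.mem _ _) (Df.mem _ _)))))
        a ⊤ ?_ U U.top x hx
      intro U _ b hb j hj
      exact ih b hb U j hj
    have ha := isOrd_oN U a
    by_cases hjm : EU U j (cl U (oN B a))
    · exact Or.inr (Or.inl hjm)
    have hsub : ∀ x, EU U x (cl U (oN B a)) → EU U x j := by
      intro x hx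
      rcases hcmp x hx j hj with h | h | h
      · exact absurd (h ▸ hx) hjm
      · exact absurd (ha.1 x hx j h) hjm
      · exact h
    by_cases hex : ∃ y, EU U y j ∧ ¬ EU U y (cl U (oN B a))
    · -- the difference set
      obtain ⟨d, hd⟩ := EU_sep U 1 (Fm.imp (Fm.mem 0 1) Fm.bot) (fun _ => cl U (oN B a)) j
      have hd' : ∀ x, EU U x d ↔ EU U x j ∧ ¬ EU U x (cl U (oN B a)) := by
        intro x
        rw [hd x]
        exact Iff.rfl
      obtain ⟨y, hy1, hy2⟩ := EU_found U d (by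
        obtain ⟨y, hy⟩ := hex
        exact ⟨y, (hd' y).2 hy⟩)
      rw [hd'] at hy1
      have hyo : IsOrd (EU U) y := hj.mem hy1.1
      have hya : y = cl U (oN B a) := by
        apply EU_ext
        intro z
        constructor
        · intro hz
          by_contra hza
          exact hy2 z hz ((hd' z).2 ⟨hj.1 y hy1.1 z hz, hza⟩)
        · intro hz
          rcases hcmp z hz y hyo with h | h | h
          · exact absurd (h ▸ hz) hy1.2
          · exact absurd (ha.1 z hz y h) hy1.2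
          · exact h
      right; right
      rw [← hya]; exact hy1.1
    · left
      push Not at hex
      apply EU_ext
      intro z
      exact ⟨hex z, hsub z⟩

/-- least ordinals -/
theorem leastOrd_oN {R : ∀ U : Ult B, MU U → Prop}
    (hR : Df (G := BSet B) (fun U x => R U (cl U x))) (k : Ordinal.{u})
    (h1 : ∀ U : Ult B, R U (cl U (oN B k)))
    (h2 : ∀ (U : Ult B), ∀ a < k, ¬ R U (cl U (oN B a))) (U : Ult B) :
    LeastOrd (EU U) (R U) (cl U (oN B k)) := by
  refine ⟨isOrd_oN U k, h1 U, fun j hj hRj => ?_⟩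
  rcases trichotomy k U j hj with h | h | h
  · exact Or.inl h.symm
  · exfalso
    exact ball_oN (R := fun U x => ¬ R U x) hR.not k ⊤ (fun U _ a ha => h2 U a ha) U U.top j h
      hRj
  · exact Or.inr h

theorem isOmega_oN (U : Ult B) : IsOmega (EU U) (cl U (oN B ω)) := by
  refine ⟨isOrd_oN U ω, ⟨cl U (oN B 0), (EU_oN U _ _).2 omega0_pos, EU_zero U⟩, ?_, ?_⟩
  · intro x hx
    refine ball_oN (R := fun U x => ∃ y, EU U y (cl U (oN B ω)) ∧ IsSucc (EU U) y x)
      (Df.ex (Df.and (Df.mem _ _) (Df.IsSucc _ _))) ω ⊤ ?_ U U.top x hx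
    intro U _ a ha
    exact ⟨cl U (oN B (Order.succ a)), (EU_oN U _ _).2 (isSuccLimit_omega0.succ_lt ha),
      EU_succ U a⟩
  · intro x hx
    refine ball_oN (R := fun U x => IsEmp (EU U) x ∨ ∃ y, IsSucc (EU U) x y)
      (Df.or (Df.IsEmp _) (Df.ex (Df.IsSucc _ _))) ω ⊤ ?_ U U.top x hx
    intro U _ a ha
    obtain ⟨n, rfl⟩ := lt_omega0.1 ha
    cases n with
    | zero => left; rw [Nat.cast_zero]; exact EU_zero U
    | succ n =>
      right
      refine ⟨cl U (oN B n), ?_⟩
      have : ((n + 1 : ℕ) : Ordinal.{u}) = Order.succ (n : Ordinal.{u}) := by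
        rw [Nat.cast_succ, Order.succ_eq_add_one]
      rw [this]
      exact EU_succ U n

end CI
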