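import Pool.Agent.CI.T.Ord

/-!
# Project CI: pairs, relations and functions in the two-valued models
-/

set_option autoImplicit false

namespace CI

universe u v

section

variable {M : Type*} {E : M → M → Prop}

theorem IsPair.inj (hE : ZFC E) {p x y x' y' : M} (h : IsPair E p x y) (h' : IsPair E p x' y') :
    x = x' ∧ y = y' := by
  -- singletons and pairs exist
  obtain ⟨s, hs⟩ := hE.pair x x
  obtain ⟨t, ht⟩ := hE.pair x y
  obtain ⟨s', hs'⟩ := hE.pair x' x'
  obtain ⟨t', ht'⟩ := hE.pair x' y'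
  have e1 : E s p := (h s).2 (Or.inl fun w => by rw [hs w, or_self])
  have e2 : E t p := (h t).2 (Or.inr ht)
  have e1' : E s' p := (h' s').2 (Or.inl fun w => by rw [hs' w, or_self])
  have e2' : E t' p := (h' t').2 (Or.inr ht')
  have hxx : x = x' := by
    rcases (h' s).1 e1 with h1 | h1
    · exact (h1 x).1 ((hs x).2 (Or.inl rfl))
    · have h2 := (hs x').1 ((h1 x').2 (Or.inl rfl))
      rcases h2 with h2 | h2 <;> exact h2.symm
  subst hxx
  refine ⟨rfl, ?_⟩
  rcases (h' t).1 e2 with h1 | h1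
  · -- `y = x`
    have hy : y = x := (h1 y).1 ((ht y).2 (Or.inr rfl))
    subst hy
    rcases (h t').1 e2' with h2 | h2
    · exact ((h2 y').1 ((ht' y').2 (Or.inr rfl))).symm
    · have := (h2 y').1 ((ht' y').2 (Or.inr rfl))
      rcases this with h2 | h2
      · rw [h2]
      · exact h2.symm
  · have h3 := (h1 y).1 ((ht y).2 (Or.inr rfl))
    rcases h3 with h3 | h3
    · -- `y = x`
      have h4 := (ht y').1 ((h1 y').2 (Or.inr rfl))
      rcases h4 with h4 | h4
      · rw [h3, h4]
      · exact h4.symm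
    · exact h3

theorem IsPair.uniq (hE : ZFC E) {p q x y : M} (h : IsPair E p x y) (h' : IsPair E q x y) :
    p = q := hE.ext _ _ fun z => by rw [h z, h' z]

theorem rel_of {r p x y : M} (h : IsPair E p x y) (h' : E p r) : Rel E r x y := ⟨p, h, h'⟩

end

variable {B : Type u} [CompleteBooleanAlgebra B] {G : Type v}

open BSet Ordinal

/-- ordered pair of names -/
def opN (x y : BSet B) : BSet B := pairN (pairN x x) (pairN x y)

theorem isPair_opN (U : Ult B) (x y : BSet B) :
    IsPair (EU U) (cl U (opN x y)) (cl U x) (cl U y) := by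
  intro z
  rw [opN, EU_pairN]
  constructor
  · rintro (rfl | rfl)
    · left
      intro w
      rw [EU_pairN, or_self]
    · right
      intro w
      rw [EU_pairN]
  · rintro (h | h)
    · left
      apply EU_ext
      intro w
      rw [h w, EU_pairN, or_self]
    · right
      apply EU_ext
      intro w
      rw [h w, EU_pairN]

/-- a relation given by a family of pairs with truth values -/
def relN {I : Type u} (b : I → B) (x y : I → BSet B) : BSet B := mk I (fun i => opN (x i) (y i)) b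

theorem rel_relN {I : Type u} (U : Ult B) (b : I → B) (x y : I → BSet B) (s t : BSet B) :
    Rel (EU U) (cl U (relN b x y)) (cl U s) (cl U t) ↔
      (⨆ i, b i ⊓ (beq s (x i) ⊓ beq t (y i))) ∈ U.s := by
  constructor
  · rintro ⟨p, hp, hpr⟩
    obtain ⟨p, rfl⟩ := cl_surj U p
    obtain ⟨P, hP⟩ := Df.IsPair (B := B) (G := Unit) (fun _ => p) (fun _ => s) (fun _ => t)
    have hp' : P () ∈ U.s := (hP U ()).1 hp
    have hpr' : bmem p (relN b x y) ∈ U.s := hpr
    have h1 : bmem p (relN b x y) = ⨆ i, b i ⊓ beq p (opN (x i) (y i)) := rfl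
    refine U.mono ?_ ((U.inf _ _).2 ⟨hp', hpr'⟩)
    rw [h1, inf_iSup_eq]
    refine iSup_mono fun i => ?_
    rw [le_iff_ult]
    intro V hV
    simp only [V.inf] at hV
    obtain ⟨h2, h3, h4⟩ := hV
    have h5 := (hP V ()).2 h2
    have h6 : cl V p = cl V (opN (x i) (y i)) := cl_eq.2 h4
    have h5' : IsPair (EU V) (cl V p) (cl V s) (cl V t) := h5
    rw [h6] at h5'
    obtain ⟨h7, h8⟩ := h5'.inj (zfc V) (isPair_opN V (x i) (y i))
    simp only [V.inf]
    exact ⟨h3, cl_eq.1 h7, cl_eq.1 h8⟩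
  · intro h
    refine ⟨cl U (opN s t), isPair_opN U s t, ?_⟩
    rw [EU_cl]
    refine U.mono ?_ h
    have h1 : bmem (opN s t) (relN b x y) = ⨆ i, b i ⊓ beq (opN s t) (opN (x i) (y i)) := rfl
    rw [h1]
    refine iSup_mono fun i => ?_
    refine inf_le_inf_left _ ?_
    rw [le_iff_ult]
    intro V hV
    rw [V.inf, ← cl_eq, ← cl_eq] at hV
    rw [← cl_eq]
    have h2 := isPair_opN V s t
    rw [hV.1, hV.2] at h2
    exact h2.uniq (zfc V) (isPair_opN V (x i) (y i))

/-- all elements of a relation name are pairs -/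
theorem mem_relN {I : Type u} (U : Ult B) (b : I → B) (x y : I → BSet B) (p : MU U)
    (hp : EU U p (cl U (relN b x y))) : ∃ s t : BSet B, p = cl U (opN s t) ∧
      (⨆ i, b i ⊓ (beq s (x i) ⊓ beq t (y i))) ∈ U.s := by
  obtain ⟨p, rfl⟩ := cl_surj U p
  have hR : Df (G := BSet B) (fun U p => ∃ s t, IsPair (EU U) (cl U p) s t) :=
    Df.ex (Df.ex (Df.IsPair _ _ _))
  obtain ⟨P, hP⟩ := hR
  have h1 : bmem p (relN b x y) = ⨆ i, b i ⊓ beq p (opN (x i) (y i)) := rfl
  have h2 : bmem p (relN b x y) ≤ P p := by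
    rw [h1]
    refine iSup_le fun i => ?_
    rw [le_iff_ult]
    intro V hV
    rw [V.inf, ← cl_eq] at hV
    apply (hP V p).1
    rw [hV.2]
    exact ⟨cl V (x i), cl V (y i), isPair_opN V _ _⟩
  have h3 := (hP U p).2 (U.mono h2 hp)
  obtain ⟨s, t, hst⟩ := h3
  obtain ⟨s, rfl⟩ := cl_surj U s
  obtain ⟨t, rfl⟩ := cl_surj U t
  have h4 := hst.uniq (zfc U) (isPair_opN U s t)
  refine ⟨s, t, h4, ?_⟩
  rw [← rel_relN]
  exact ⟨_, hst, hp⟩

end CI
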