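import Pool.Agent.CI.T.Pairs
import Pool.Agent.CI.Core

/-!
# Project CI: natural numbers, finite sets, and names of reals
-/

set_option autoImplicit false

namespace CI

universe u v

variable {B : Type u} [CompleteBooleanAlgebra B] {G : Type v}

open BSet Ordinal

namespace Ult

variable (U : Ult B)

theorem finset_sup {ι : Type*} (s : Finset ι) (f : ι → B) :
    s.sup f ∈ U.s ↔ ∃ i ∈ s, f i ∈ U.s := by
  classical
  induction s using Finset.induction_on with
  | empty => simp [U.bot]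
  | insert i s hi ih => rw [Finset.sup_insert, U.sup, ih]; simp

theorem finset_inf {ι : Type*} (s : Finset ι) (f : ι → B) :
    s.inf f ∈ U.s ↔ ∀ i ∈ s, f i ∈ U.s := by
  classical
  induction s using Finset.induction_on with
  | empty => simp [U.top]
  | insert i s hi ih => rw [Finset.inf_insert, U.inf, ih]; simp

theorem iInf_fin {ι : Type*} [Finite ι] (f : ι → B) : (⨅ i, f i) ∈ U.s ↔ ∀ i, f i ∈ U.s := by
  have := Fintype.ofFinite ι
  rw [← Finset.inf_univ_eq_iInf, U.finset_inf]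
  simp

theorem iSup_fin {ι : Type*} [Finite ι] (f : ι → B) : (⨆ i, f i) ∈ U.s ↔ ∃ i, f i ∈ U.s := by
  have := Fintype.ofFinite ι
  rw [← Finset.sup_univ_eq_iSup, U.finset_sup]
  simp

theorem biInf_finset {ι : Type*} (s : Finset ι) (f : ι → B) :
    (⨅ i ∈ s, f i) ∈ U.s ↔ ∀ i ∈ s, f i ∈ U.s := by
  rw [← Finset.inf_eq_iInf, U.finset_inf]

end Ult

/-- standard natural numbers -/
theorem EU_nat (U : Ult B) (n : ℕ) (z : MU U) :
    EU U z (cl U (oN B n)) ↔ ∃ m < n, z = cl U (oN B m) := by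
  induction n with
  | zero =>
    rw [Nat.cast_zero]
    constructor
    · intro h; exact absurd h (EU_zero U z)
    · rintro ⟨m, hm, -⟩; exact absurd hm (Nat.not_lt_zero m)
  | succ n ih =>
    have : ((n + 1 : ℕ) : Ordinal.{u}) = Order.succ (n : Ordinal.{u}) := by
      rw [Nat.cast_succ, Order.succ_eq_add_one]
    rw [this, EU_succ, ih]
    constructor
    · rintro (⟨m, hm, h⟩ | h)
      · exact ⟨m, hm.trans (Nat.lt_succ_self n), h⟩
      · exact ⟨n, Nat.lt_succ_self n, h⟩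
    · rintro ⟨m, hm, h⟩
      rcases (Nat.lt_succ_iff.1 hm).lt_or_eq with h' | h'
      · exact Or.inl ⟨m, h', h⟩
      · subst h'; exact Or.inr h

theorem nat_mem_omega (U : Ult B) (n : ℕ) : EU U (cl U (oN B n)) (cl U (oN B ω)) :=
  (EU_oN U _ _).2 (natCast_lt_omega0 n)

theorem nat_inj (U : Ult B) {m n : ℕ} : cl U (oN B m) = cl U (oN B n) ↔ m = n := by
  rw [oN_inj, Nat.cast_inj]

/-- bounded quantifiers over the natural numbers -/
theorem ball_omega {R : ∀ U : Ult B, MU U → Prop}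
    (h : Df (G := BSet B) (fun U x => R U (cl U x))) (b : B)
    (hb : ∀ U : Ult B, b ∈ U.s → ∀ n : ℕ, R U (cl U (oN B n)))
    (U : Ult B) (hU : b ∈ U.s) (x : MU U) (hx : EU U x (cl U (oN B ω))) : R U x := by
  refine ball_oN h ω b ?_ U hU x hx
  intro U hU a ha
  obtain ⟨n, rfl⟩ := lt_omega0.1 ha
  exact hb U hU n

/-- the name of a subset of the natural numbers -/
noncomputable def rN (x : ℕ → B) : BSet B :=
  mk (ULift.{u} ℕ) (fun n => oN B n.down) (fun n => x n.down)

theorem bmem_rN (z : BSet B) (x : ℕ → B) : bmem z (rN x) = ⨆ n : ℕ, x n ⊓ beq z (oN B n) := by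
  have h : bmem z (rN x) = ⨆ n : ULift.{u} ℕ, x n.down ⊓ beq z (oN B n.down) := rfl
  rw [h]
  exact (Equiv.ulift.{u} (α := ℕ)).iSup_comp (g := fun n : ℕ => x n ⊓ beq z (oN B n))

theorem mem_rN (U : Ult B) (n : ℕ) (x : ℕ → B) :
    EU U (cl U (oN B n)) (cl U (rN x)) ↔ x n ∈ U.s := by
  rw [EU_cl, bmem_rN]
  have : (⨆ m : ℕ, x m ⊓ beq (oN B n) (oN B m)) = x n := by
    apply le_antisymm
    · refine iSup_le fun m => ?_
      by_cases h : n = m
      · subst h; exact inf_le_left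
      · rw [beq_oN_ne (by rwa [Ne, Nat.cast_inj])]
        simp
    · refine le_iSup_of_le n ?_
      rw [beq_refl]; simp
  rw [this]

theorem rN_sub (U : Ult B) (x : ℕ → B) : Sub (EU U) (cl U (rN x)) (cl U (oN B ω)) := by
  intro z hz
  obtain ⟨z, rfl⟩ := cl_surj U z
  rw [EU_cl, bmem_rN] at hz
  rw [EU_cl, bmem_oN]
  refine U.mono ?_ hz
  exact iSup_le fun n => inf_le_right.trans (le_iSup₂_of_le (n : Ordinal.{u}) (natCast_lt_omega0 n)
    le_rfl)

/-- every subset of `ω` has a name of the form `rN x` -/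
theorem exists_rN (U : Ult B) (y : MU U) (hy : Sub (EU U) y (cl U (oN B ω))) :
    ∃ x : ℕ → B, y = cl U (rN x) := by
  obtain ⟨y, rfl⟩ := cl_surj U y
  refine ⟨fun n => bmem (oN B n) y, ?_⟩
  apply EU_ext
  intro z
  have key : ∀ z, EU U z (cl U (oN B ω)) → (EU U z (cl U y) ↔
      EU U z (cl U (rN fun n : ℕ => bmem (oN B n) y))) := by
    intro z hz
    refine ball_omega (R := fun U z => (EU U z (cl U y) ↔
      EU U z (cl U (rN fun n : ℕ => bmem (oN B n) y)))) (Df.iff (Df.mem _ _) (Df.mem _ _))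
      ⊤ ?_ U U.top z hz
    intro U _ n
    rw [mem_rN]
    exact EU_cl
  constructor
  · intro hz
    exact (key z (hy z hz)).1 hz
  · intro hz
    exact (key z (rN_sub U _ z hz)).2 hz

/-- the name of a finite set -/
noncomputable def fN (B : Type u) [CompleteBooleanAlgebra B] (a : Finset ℕ) : BSet B :=
  rN (fun n => if n ∈ a then ⊤ else ⊥)

theorem EU_fN (U : Ult B) (a : Finset ℕ) (z : MU U) :
    EU U z (cl U (fN B a)) ↔ ∃ m ∈ a, z = cl U (oN B m) := by
  obtain ⟨z, rfl⟩ := cl_surj U z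
  rw [EU_cl, fN, bmem_rN]
  have : (⨆ n : ℕ, (if n ∈ a then ⊤ else ⊥) ⊓ beq z (oN B n)) =
      a.sup (fun n => beq z (oN B n)) := by
    rw [Finset.sup_eq_iSup]
    refine iSup_congr fun n => ?_
    by_cases h : n ∈ a
    · simp [h]
    · simp [h]
  rw [this, U.finset_sup]
  simp only [cl_eq]

theorem nat_mem_fN (U : Ult B) (a : Finset ℕ) (n : ℕ) :
    EU U (cl U (oN B n)) (cl U (fN B a)) ↔ n ∈ a := by
  rw [EU_fN]
  constructor
  · rintro ⟨m, hm, h⟩
    rw [nat_inj] at h
    rwa [h]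
  · intro h; exact ⟨n, h, rfl⟩

theorem fN_inj (U : Ult B) {a b : Finset ℕ} : cl U (fN B a) = cl U (fN B b) ↔ a = b := by
  constructor
  · intro h
    ext n
    rw [← nat_mem_fN U a n, h, nat_mem_fN]
  · rintro rfl; rfl

theorem fN_sub (U : Ult B) (a : Finset ℕ) (n : ℕ) :
    Sub (EU U) (cl U (fN B a)) (cl U (oN B n)) ↔ a ⊆ Finset.range n := by
  constructor
  · intro h m hm
    have := h _ ((nat_mem_fN U a m).2 hm)
    rw [EU_oN, Nat.cast_lt] at this
    exact Finset.mem_range.2 this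
  · intro h z hz
    rw [EU_fN] at hz
    obtain ⟨m, hm, rfl⟩ := hz
    rw [EU_oN, Nat.cast_lt]
    exact Finset.mem_range.1 (h hm)

/-- subsets of a standard natural number are standard finite sets -/
theorem exists_fN (U : Ult B) (n : ℕ) (y : MU U) (hy : Sub (EU U) y (cl U (oN B n))) :
    ∃ a : Finset ℕ, a ⊆ Finset.range n ∧ y = cl U (fN B a) := by
  classical
  refine ⟨(Finset.range n).filter (fun m => EU U (cl U (oN B m)) y), Finset.filter_subset _ _, ?_⟩
  apply EU_ext
  intro z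
  rw [EU_fN]
  constructor
  · intro hz
    obtain ⟨m, hm, rfl⟩ := (EU_nat U n z).1 (hy z hz)
    exact ⟨m, Finset.mem_filter.2 ⟨Finset.mem_range.2 hm, hz⟩, rfl⟩
  · rintro ⟨m, hm, rfl⟩
    exact (Finset.mem_filter.1 hm).2

theorem cutV_mem (U : Ult B) (x : ℕ → B) (n : ℕ) (a : Finset ℕ) :
    cutV x n a ∈ U.s ↔ ∀ i < n, (i ∈ a ↔ x i ∈ U.s) := by
  rw [cutV, U.iInf_fin]
  constructor
  · intro h i hi
    have := h ⟨i, hi⟩
    by_cases hia : i ∈ a
    · simp only [hia, if_true] at this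
      exact ⟨fun _ => this, fun _ => hia⟩
    · simp only [hia, if_false] at this
      rw [U.compl] at this
      exact ⟨fun h => absurd h hia, fun h => absurd h this⟩
  · rintro h ⟨i, hi⟩
    have := h i hi
    by_cases hia : i ∈ a
    · simp only [hia, if_true]
      exact this.1 hia
    · simp only [hia, if_false]
      rw [U.compl]
      exact fun h => hia (this.2 h)

theorem cut_iff (U : Ult B) (x : ℕ → B) (n : ℕ) (a : Finset ℕ) (ha : a ⊆ Finset.range n) :
    Cut (EU U) (cl U (rN x)) (cl U (oN B n)) (cl U (fN B a)) ↔ cutV x n a ∈ U.s := by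
  rw [cutV_mem]
  constructor
  · intro h i hi
    have := h (cl U (oN B i))
    rw [nat_mem_fN, mem_rN, EU_oN, Nat.cast_lt] at this
    rw [this]
    exact ⟨fun h => h.1, fun h => ⟨h, hi⟩⟩
  · intro h z
    rw [EU_fN, EU_nat]
    constructor
    · rintro ⟨m, hm, rfl⟩
      have hmn := Finset.mem_range.1 (ha hm)
      exact ⟨(mem_rN U m x).2 ((h m hmn).1 hm), m, hmn, rfl⟩
    · rintro ⟨h1, m, hmn, rfl⟩
      exact ⟨m, (h m hmn).2 ((mem_rN U m x).1 h1), rfl⟩

/-- the trace of a real on a standard natural number -/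
theorem cut_exists (U : Ult B) (x : MU U) (n : ℕ) (a : MU U)
    (h : Cut (EU U) x (cl U (oN B n)) a) : ∃ a₀ : Finset ℕ, a₀ ⊆ Finset.range n ∧
      a = cl U (fN B a₀) :=
  exists_fN U n a fun z hz => ((h z).1 hz).2

end CI
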