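import Pool.Agent.CI.T.Inv2
import Pool.Agent.CI.Final

/-!
# Project CI: the top half
-/

set_option autoImplicit false

namespace CI

open BSet Ordinal Cardinal

universe u

theorem fam_ex {α : Type*} {I : Type u} {κ : Cardinal.{u}} (h : #I = κ) (f : I → α) :
    ∃ g : κ.ord.ToType → α, Set.range g = Set.range f := by
  obtain ⟨e⟩ := fam_equiv h
  exact ⟨f ∘ e, e.surjective.range_comp f⟩

/-- the chain holds in all two-valued models -/
theorem chain_of {B : Type u} [CompleteBooleanAlgebra B] {l : Fin 8 → Cardinal.{u}}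
    (h : CoreProps B l) (U : Ult B) : Chain (EU U) := by
  have hN : ∀ c : NulC B, ∃ x : ℕ → B, c.mem x = ⊥ := by
    intro c
    have h1 : #PUnit.{u + 1} < l 3 := by
      have h2 := h.lt 0 3 (by decide)
      rw [h.aleph] at h2
      calc #PUnit.{u + 1} = 1 := Cardinal.mk_punit
        _ < ℵ₁ := Cardinal.one_lt_aleph0.trans Cardinal.aleph0_lt_aleph_one
        _ < l 3 := h2
    obtain ⟨x, hx⟩ := h.covN_ge PUnit h1 (fun _ => c)
    exact ⟨x, hx ⟨⟩⟩
  have hsurj : ∃ x : (l 7).ord.ToType → ℕ → B, Function.Surjective x := by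
    have h1 : #(ℕ → B) ≤ #(l 7).ord.ToType := by
      rw [Cardinal.mk_ord_toType]; exact h.c_le
    obtain ⟨e⟩ := h1
    exact ⟨Function.invFun e, Function.invFun_surjective e.injective⟩
  have hsurjF : ∃ f : (l 7).ord.ToType → Fu B, Function.Surjective f := by
    have h0 : #(ℕ → ℕ → B) = #(ℕ → B) := by
      apply Cardinal.mk_congr
      exact (Equiv.curry ℕ ℕ B).symm.trans (Equiv.arrowCongr Nat.pairEquiv (Equiv.refl B))
    have h1 : #(Fu B) ≤ #(l 7).ord.ToType := by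
      rw [Cardinal.mk_ord_toType]
      refine le_trans ?_ h.c_le
      rw [← h0]
      apply Cardinal.mk_le_of_injective (f := fun f : Fu B => f.f)
      rintro ⟨f, _, _⟩ ⟨g, _, _⟩ heq
      cases heq
      rfl
    obtain ⟨e⟩ := h1
    have : Nonempty (Fu B) := by
      refine ⟨⟨fun _ k => if k = 0 then ⊤ else ⊥, ?_, ?_⟩⟩
      · intro n k k' hne
        by_cases hk : k = 0
        · have : k' ≠ 0 := fun h => hne (hk.trans h.symm)
          simp [this]
        · simp [hk]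
      · intro n
        rw [eq_top_iff]
        exact le_iSup_of_le 0 (by simp)
    exact ⟨Function.invFun e, Function.invFun_surjective e.injective⟩
  refine ⟨cl U (oN B ω), cl U (oN B (l 0).ord), cl U (oN B (l 1).ord), cl U (oN B (l 2).ord),
    cl U (oN B (l 3).ord), cl U (oN B (l 4).ord), cl U (oN B (l 5).ord), cl U (oN B (l 6).ord),
    cl U (oN B (l 7).ord), isOmega_oN U, ?_, ?_, ?_, ?_, ?_, ?_, ?_, ?_, ?_, ?_, ?_, ?_⟩
  · rw [h.aleph]; exact aleph1 h.ccc U
  · apply add_null _ h.addN_ge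
    obtain ⟨I, c, hI, hc⟩ := h.addN_le
    obtain ⟨e⟩ := fam_equiv hI
    refine ⟨c ∘ e, fun d => ?_⟩
    rw [← hc d]
    exact e.surjective.iInf_comp (g := fun i => ⨅ x, (c i).mem x ⇨ d.mem x)
  · apply b_gen _ h.b_ge
    obtain ⟨I, f, hI, hf⟩ := h.b_le
    obtain ⟨e⟩ := fam_equiv hI
    refine ⟨f ∘ e, fun g => ?_⟩
    rw [← hf g]
    exact e.surjective.iInf_comp (g := fun i => (f i).le g)
  · apply cov_gen (idN B) _ h.covN_ge
    obtain ⟨I, c, hI, hc⟩ := h.covN_le
    obtain ⟨e⟩ := fam_equiv hI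
    refine ⟨c ∘ e, fun x => ?_⟩
    rw [← hc x]
    exact e.surjective.iSup_comp (g := fun i => (c i).mem x)
  · apply non_gen (idE B)
    · intro I hI x
      obtain ⟨F, hF, hx⟩ := h.nonE_ge I hI x
      exact ⟨⟨F, hF⟩, hx⟩
    · obtain ⟨I, x, hI, hx⟩ := h.nonE_le
      obtain ⟨e⟩ := fam_equiv hI
      refine ⟨x ∘ e, fun F => ?_⟩
      rw [← hx F.1 F.2]
      exact e.surjective.iInf_comp (g := fun i => ⨆ n, (F.1 n).mem (x i))
  · apply non_gen (idM B)
    · intro I hI x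
      obtain ⟨F, hF, hx⟩ := h.nonM_ge I hI x
      exact ⟨⟨F, hF⟩, hx⟩
    · obtain ⟨I, x, hI, hx⟩ := h.nonM_le
      obtain ⟨e⟩ := fam_equiv hI
      refine ⟨x ∘ e, fun F => ?_⟩
      rw [← hx F.1 F.2]
      exact e.surjective.iInf_comp (g := fun i => ⨆ n, (F.1 n).mem (x i))
  · apply cov_gen (idM B)
    · intro I hI F
      obtain ⟨x, hx⟩ := h.covM_ge I hI (fun i => (F i).1) (fun i => (F i).2)
      refine ⟨x, fun i => ?_⟩
      change ⨆ n, ((F i).1 n).mem x = ⊥
      rw [iSup_eq_bot]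
      exact hx i
    · obtain ⟨I, F, hI, hF, hx⟩ := h.covM_le
      obtain ⟨e⟩ := fam_equiv hI
      refine ⟨fun i => ⟨F (e i), hF (e i)⟩, fun x => ?_⟩
      rw [← hx x]
      exact e.surjective.iSup_comp (g := fun i => ⨆ n, (F i n).mem x)
  · apply cov_gen (idE B)
    · intro I hI F
      obtain ⟨x, hx⟩ := h.covE_ge I hI (fun i => (F i).1) (fun i => (F i).2)
      refine ⟨x, fun i => ?_⟩
      change ⨆ n, ((F i).1 n).mem x = ⊥
      rw [iSup_eq_bot]
      exact hx i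
    · obtain ⟨s, hs⟩ := hsurj
      refine ⟨fun i => ⟨fun _ => sgC (s i), fun _ => sgC_nul _⟩, fun x => ?_⟩
      obtain ⟨i, hi⟩ := hs x
      rw [eq_top_iff]
      refine le_iSup_of_le i ?_
      change ⊤ ≤ ⨆ _ : ℕ, (sgC (s i)).mem x
      refine le_iSup_of_le 0 ?_
      rw [hi, sgC_mem]
  · apply non_gen (idN B) _ h.nonN_ge
    obtain ⟨s, hs⟩ := hsurj
    refine ⟨s, fun c => ?_⟩
    obtain ⟨x, hx⟩ := hN c
    obtain ⟨i, hi⟩ := hs x
    rw [eq_bot_iff, ← hx, ← hi]
    exact iInf_le _ i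
  · exact d_gen _ h.d_ge hsurjF U
  · exact c_gen _ h.nonN_ge hN hsurj U
  · refine ⟨?_, ?_, ?_, ?_, ?_, ?_, ?_⟩
    all_goals
      rw [EU_oN]
      apply Cardinal.ord_lt_ord.2
      apply h.lt
      decide

theorem topStatement : TopStatement := by
  intro B _ l h
  have h1 : (⊤ : B) ≠ ⊥ := h.nontriv.symm
  obtain ⟨U, -⟩ := exists_ult h1
  exact ⟨MU U, EU U, zfc U, chain_of h U⟩

end CI
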