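import Pool.Agent.CI.T.Ops

/-!
# Project CI: the axioms of ZFC in the two-valued models
-/

set_option autoImplicit false

namespace CI

universe u

variable {B : Type u} [CompleteBooleanAlgebra B]

open BSet

theorem EU_found (U : Ult B) (x : MU U) (hx : ∃ y, EU U y x) :
    ∃ y, EU U y x ∧ ∀ z, EU U z y → ¬ EU U z x := by
  obtain ⟨v, rfl⟩ := cl_surj U x
  have L : Los (fun y => bmem y v ⊓ ⨅ z, bmem z y ⇨ (bmem z v)ᶜ)
      (fun U y => EU U y (cl U v) ∧ ∀ z, EU U z y → ¬ EU U z (cl U v)) := by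
    apply Los.and (Los.mem_left v)
    intro U y
    exact ((Los.mem_left y).imp (Los.mem_left v).not).all U
  rw [L.ex U]
  have h := ((Los.mem_left v).ex U).1 hx
  exact U.mono (iSup_le fun y => found_val v y) h

/-- separation for formulas -/
theorem los_cons {n : ℕ} (p : Fm (n + 1)) (v : Fin n → BSet B) :
    Los (fun x => p.val (Fin.cons x v))
      (fun U x => p.sat (EU U) (Fin.cons x (fun i => cl U (v i)))) := by
  intro U x
  beta_reduce
  rw [cons_cl, los]

theorem lift_tuple {n : ℕ} (U : Ult B) (v : Fin n → MU U) :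
    ∃ w : Fin n → BSet B, v = fun i => cl U (w i) := by
  choose w hw using fun i => cl_surj U (v i)
  exact ⟨w, funext fun i => (hw i).symm⟩

theorem EU_sep (U : Ult B) (n : ℕ) (p : Fm (n + 1)) (v : Fin n → MU U) (a : MU U) :
    ∃ b, ∀ x, EU U x b ↔ EU U x a ∧ p.sat (EU U) (Fin.cons x v) := by
  obtain ⟨w, rfl⟩ := lift_tuple U v
  obtain ⟨u, rfl⟩ := cl_surj U a
  exact ⟨_, fun x => EU_sepN (los_cons p w) U u x⟩

/-- replacement for names: `y a` is a witness for the element number `a` -/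
def repN (v : BSet B) (y : v.Ty → BSet B) (c : v.Ty → B) : BSet B := mk v.Ty y c

theorem EU_repl (U : Ult B) (n : ℕ) (p : Fm (n + 2)) (v : Fin n → MU U) (a : MU U)
    (h : ∀ x, EU U x a → ∃! y, p.sat (EU U) (Fin.cons y (Fin.cons x v))) :
    ∃ b, ∀ y, EU U y b ↔ ∃ x, EU U x a ∧ p.sat (EU U) (Fin.cons y (Fin.cons x v)) := by
  obtain ⟨w, rfl⟩ := lift_tuple U v
  obtain ⟨u, rfl⟩ := cl_surj U a
  -- a set which contains all values
  have L1 : ∀ x : BSet B, Los (fun y => p.val (Fin.cons y (Fin.cons x w)))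
      (fun U y => p.sat (EU U) (Fin.cons y (Fin.cons (cl U x) (fun i => cl U (w i))))) := by
    intro x U y
    beta_reduce
    rw [cons_cl, cons_cl, los]
  have hy : ∀ a : u.Ty, ∃ y, p.val (Fin.cons y (Fin.cons (u.el a) w)) =
      ⨆ y, p.val (Fin.cons y (Fin.cons (u.el a) w)) := fun a => exists_max (L1 _).ext
  choose y hy using hy
  let b₀ : BSet B := repN u y u.tv
  -- `Q x` : some `y` in `b₀` works
  have L2 : Los (fun x => ⨆ y, bmem y b₀ ⊓ p.val (Fin.cons y (Fin.cons x w)))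
      (fun U x => ∃ y, EU U y (cl U b₀) ∧
        p.sat (EU U) (Fin.cons y (Fin.cons x (fun i => cl U (w i))))) := by
    intro U x
    exact ((Los.mem_left b₀).and (L1 x)).ex U
  have L3 : Los (fun x => ⨆ y, p.val (Fin.cons y (Fin.cons x w)))
      (fun U x => ∃ y, p.sat (EU U) (Fin.cons y (Fin.cons x (fun i => cl U (w i))))) := by
    intro U x
    exact (L1 x).ex U
  have key : ∀ a : u.Ty, u.tv a ≤ (⨆ y, p.val (Fin.cons y (Fin.cons (u.el a) w))) ⇨
      ⨆ y, bmem y b₀ ⊓ p.val (Fin.cons y (Fin.cons (u.el a) w)) := by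
    intro a
    rw [le_himp_iff]
    refine le_iSup_of_le (y a) ?_
    rw [hy a]
    exact inf_le_inf_right _ (tv_le_bmem b₀ a)
  have key2 : (⨅ x, bmem x u ⇨ ((⨆ y, p.val (Fin.cons y (Fin.cons x w))) ⇨
      ⨆ y, bmem y b₀ ⊓ p.val (Fin.cons y (Fin.cons x w)))) = ⊤ := by
    rw [ball_eq (L3.imp L2).ext u, iInf_eq_top]
    intro a
    rw [himp_eq_top_iff]
    exact key a
  have key3 : ∀ x, EU U x (cl U u) →
      (∃ y, p.sat (EU U) (Fin.cons y (Fin.cons x (fun i => cl U (w i))))) →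
      ∃ y, EU U y (cl U b₀) ∧
        p.sat (EU U) (Fin.cons y (Fin.cons x (fun i => cl U (w i)))) := by
    have := (((Los.mem_left u).imp (L3.imp L2)).all U).2
    apply this
    beta_reduce
    rw [key2]
    exact U.top
  -- separate the values from `b₀`
  have L4 : Los (fun y => ⨆ x, bmem x u ⊓ p.val (Fin.cons y (Fin.cons x w)))
      (fun U y => ∃ x, EU U x (cl U u) ∧
        p.sat (EU U) (Fin.cons y (Fin.cons x (fun i => cl U (w i))))) := by
    intro U y
    refine Los.ex (P := fun x => bmem x u ⊓ p.val (Fin.cons y (Fin.cons x w)))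
      (P' := fun U x => EU U x (cl U u) ∧
        p.sat (EU U) (Fin.cons (cl U y) (Fin.cons x (fun i => cl U (w i))))) ?_ U
    apply Los.and (Los.mem_left u)
    intro U x
    beta_reduce
    rw [cons_cl, cons_cl, los]
  refine ⟨cl U (sepN b₀ (fun y => ⨆ x, bmem x u ⊓ p.val (Fin.cons y (Fin.cons x w)))), ?_⟩
  intro z
  rw [EU_sepN L4 U b₀ z]
  constructor
  · exact fun h => h.2
  · rintro ⟨x, hx, hz⟩
    refine ⟨?_, x, hx, hz⟩
    obtain ⟨y', hy1, hy2⟩ := key3 x hx ⟨z, hz⟩
    rwa [(h x hx).unique hz hy2]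

end CI
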